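import Mathlib

open MeasureTheory Filter Topology Set TopologicalSpace
open scoped FourierTransform RealInnerProductSpace

namespace Pool.Agent.Helper30.Cov

/-- integer points as real vectors -/
def zr {n : ℕ} (z : Fin n → ℤ) : Fin n → ℝ := fun i => (z i : ℝ)

/-- unit cells -/
def cell {n : ℕ} (m : Fin n → ℤ) : Set (Fin n → ℝ) := {x | ∀ i, x i ∈ Ioc (m i : ℝ) (m i + 1)}

lemma measurableSet_cell {n : ℕ} (m : Fin n → ℤ) : MeasurableSet (cell m) :=
  MeasurableSet.univ_pi' (fun _ => measurableSet_Ioc)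

lemma cell_disjoint {n : ℕ} : Pairwise (Function.onFun Disjoint (cell (n := n))) := by
  intro m m' hne
  rw [Function.onFun, Set.disjoint_left]
  intro x hx hx'
  apply hne
  funext i
  have h1 := hx i
  have h2 := hx' i
  rw [mem_Ioc] at h1 h2
  have h3 : (m i : ℝ) < m' i + 1 := by linarith
  have h4 : (m' i : ℝ) < m i + 1 := by linarith
  have h5 : m i < m' i + 1 := by exact_mod_cast h3
  have h6 : m' i < m i + 1 := by exact_mod_cast h4
  omega

lemma iUnion_cell {n : ℕ} : (⋃ m : Fin n → ℤ, cell m) = univ := by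
  rw [eq_univ_iff_forall]
  intro x
  rw [mem_iUnion]
  refine ⟨fun i => ⌈x i⌉ - 1, fun i => ?_⟩
  rw [mem_Ioc]
  push_cast
  constructor
  · have := Int.ceil_lt_add_one (x i)
    linarith
  · have := Int.le_ceil (x i)
    linarith

lemma hasSum_integral_cell {n : ℕ} (g : (Fin n → ℝ) → ℂ) (hg : Integrable g) :
    HasSum (fun m : Fin n → ℤ => ∫ x in cell (0 : Fin n → ℤ), g (x + zr m)) (∫ x, g x) := by
  have h := hasSum_integral_iUnion (μ := volume) (f := g) (s := fun m : Fin n → ℤ => cell m)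
    (fun m => measurableSet_cell m) cell_disjoint (by rw [iUnion_cell]; exact hg.integrableOn)
  rw [iUnion_cell, setIntegral_univ] at h
  refine h.congr_fun (fun m => ?_)
  have hpre : (fun x : Fin n → ℝ => x + zr m) ⁻¹' (cell m) = cell 0 := by
    ext x
    simp only [cell, mem_preimage, Set.mem_ofPred_eq, Pi.add_apply, zr, mem_Ioc, Pi.zero_apply,
      Int.cast_zero, zero_add]
    refine forall_congr' (fun i => ?_)
    constructor
    · rintro ⟨h1, h2⟩; constructor <;> linarith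
    · rintro ⟨h1, h2⟩; constructor <;> linarith
  rw [← hpre]
  exact ((measurePreserving_add_right volume (zr m)).setIntegral_preimage_emb
    (measurableEmbedding_addRight (zr m)) g (cell m))


/-- the quotient map onto the torus -/
noncomputable def tq {n : ℕ} (x : Fin n → ℝ) : UnitAddTorus (Fin n) := fun i => (x i : UnitAddCircle)

lemma isOpenQuotientMap_tq {n : ℕ} : IsOpenQuotientMap (tq (n := n)) := by
  have : tq (n := n) = Pi.map (fun _ => ((↑) : ℝ → UnitAddCircle)) := rfl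
  rw [this]
  exact IsOpenQuotientMap.piMap (fun i => QuotientAddGroup.isOpenQuotientMap_mk)

lemma tq_eq {n : ℕ} {x y : Fin n → ℝ} (h : tq x = tq y) : ∃ m : Fin n → ℤ, y = x + zr m := by
  have h1 : ∀ i, ∃ m : ℤ, y i = x i + m := by
    intro i
    have h2 : (x i : UnitAddCircle) = (y i : UnitAddCircle) := congrFun h i
    rw [QuotientAddGroup.eq] at h2
    rw [AddSubgroup.mem_zmultiples_iff] at h2
    obtain ⟨k, hk⟩ := h2
    refine ⟨k, ?_⟩
    simp at hk
    linarith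
  choose m hm using h1
  exact ⟨m, funext hm⟩

/-- **Poisson summation** in several variables. -/
theorem poisson {n : ℕ} (f : C(Fin n → ℝ, ℂ))
    (hf : ∀ K : Compacts (Fin n → ℝ),
      Summable fun m : Fin n → ℤ => ‖(f.comp (ContinuousMap.addRight (zr m))).restrict K‖)
    (hint : Integrable f)
    (hsum : Summable fun w : Fin n → ℤ => ∫ x, UnitAddTorus.mFourier (-w) (tq x) * f x)
    (x : Fin n → ℝ) :
    HasSum (fun w : Fin n → ℤ => (∫ x, UnitAddTorus.mFourier (-w) (tq x) * f x) *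
      UnitAddTorus.mFourier w (tq x)) (∑' m : Fin n → ℤ, f (x + zr m)) := by
  have hlocsum : Summable (fun m : Fin n → ℤ => f.comp (ContinuousMap.addRight (zr m))) :=
    ContinuousMap.summable_of_locally_summable_norm hf
  let G : C(Fin n → ℝ, ℂ) := ∑' m : Fin n → ℤ, f.comp (ContinuousMap.addRight (zr m))
  have hG : ∀ x, G x = ∑' m : Fin n → ℤ, f (x + zr m) := by
    intro x
    have := ContinuousMap.tsum_apply hlocsum x
    simpa [G] using this.symm
  have hper : ∀ x y, tq x = tq y → G x = G y := by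
    intro x y hxy
    obtain ⟨m0, rfl⟩ := tq_eq hxy
    rw [hG, hG]
    rw [← (Equiv.addLeft m0).tsum_eq (fun m => f (x + zr m))]
    refine tsum_congr (fun m => ?_)
    congr 1
    funext i
    simp [zr]
    ring
  let tqC : C(Fin n → ℝ, UnitAddTorus (Fin n)) := ⟨tq, isOpenQuotientMap_tq.continuous⟩
  have hq : IsQuotientMap tqC := (isOpenQuotientMap_tq (n := n)).isQuotientMap
  let F : C(UnitAddTorus (Fin n), ℂ) := hq.lift G (fun x y h => hper x y h)
  have hF : ∀ x, F (tq x) = G x := by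
    intro x
    have := hq.lift_comp G (fun x y h => hper x y h)
    exact congrFun (congrArg DFunLike.coe this) x
  have hcoef : ∀ w, UnitAddTorus.mFourierCoeff F w
      = ∫ x, UnitAddTorus.mFourier (-w) (tq x) * f x := by
    intro w
    rw [UnitAddTorus.mFourierCoeff_eq_integral F w 0]
    have hset : {x : Fin n → ℝ | ∀ i, x i ∈ Ioc ((0 : Fin n → ℝ) i) ((0 : Fin n → ℝ) i + 1)}
        = cell (0 : Fin n → ℤ) := by
      ext x; simp [cell]
    rw [hset]
    have hcellK : ∃ K : Compacts (Fin n → ℝ), cell (0 : Fin n → ℤ) ⊆ (K : Set (Fin n → ℝ)) := by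
      refine ⟨⟨Set.pi univ (fun _ => Icc 0 1), isCompact_univ_pi (fun _ => isCompact_Icc)⟩, ?_⟩
      intro x hx
      rw [Compacts.coe_mk, Set.mem_pi]
      intro i _
      have := hx i
      simp only [Pi.zero_apply, Int.cast_zero, zero_add] at this
      exact Ioc_subset_Icc_self this
    obtain ⟨K, hK⟩ := hcellK
    have hmeas_finite : volume (cell (0 : Fin n → ℤ)) < ⊤ :=
      lt_of_le_of_lt (measure_mono hK) K.isCompact.measure_lt_top
    have hgi : Integrable (fun x => UnitAddTorus.mFourier (-w) (tq x) * f x) := by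
      refine hint.bdd_mul (c := 1) ?_ ?_
      · exact ((UnitAddTorus.mFourier (-w)).continuous.comp
          isOpenQuotientMap_tq.continuous).aestronglyMeasurable
      · refine Eventually.of_forall (fun x => ?_)
        refine (ContinuousMap.norm_coe_le_norm _ _).trans ?_
        rw [UnitAddTorus.mFourier_norm]
    rw [← (hasSum_integral_cell _ hgi).tsum_eq]
    have h1 : ∀ x : Fin n → ℝ, UnitAddTorus.mFourier (-w) (fun i => (x i : UnitAddCircle)) •
        F (fun i => (x i : UnitAddCircle))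
        = ∑' m : Fin n → ℤ, UnitAddTorus.mFourier (-w) (tq (x + zr m)) * f (x + zr m) := by
      intro x
      have h2 : F (fun i => (x i : UnitAddCircle)) = G x := hF x
      rw [h2, hG, smul_eq_mul, ← tsum_mul_left]
      refine tsum_congr (fun m => ?_)
      congr 2
      funext i
      simp [tq, zr]
    simp_rw [h1]
    rw [integral_tsum_of_summable_integral_norm]
    · intro m
      exact (hgi.comp_add_right (zr m)).integrableOn
    · refine Summable.of_nonneg_of_le (fun m => integral_nonneg (fun x => norm_nonneg _))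
        (fun m => ?_) ((hf K).mul_left ((volume (cell (0 : Fin n → ℤ))).toReal))
      have := norm_setIntegral_le_of_norm_le_const (μ := volume) (s := cell (0 : Fin n → ℤ))
        (f := fun x => ‖UnitAddTorus.mFourier (-w) (tq (x + zr m)) * f (x + zr m)‖)
        (C := ‖(f.comp (ContinuousMap.addRight (zr m))).restrict K‖) hmeas_finite (by
          intro x hx
          rw [norm_norm, norm_mul]
          have h3 : ‖UnitAddTorus.mFourier (-w) (tq (x + zr m))‖ ≤ 1 := by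
            refine (ContinuousMap.norm_coe_le_norm _ _).trans ?_
            rw [UnitAddTorus.mFourier_norm]
          have h4 : ‖f (x + zr m)‖ ≤ ‖(f.comp (ContinuousMap.addRight (zr m))).restrict K‖ :=
            ContinuousMap.norm_coe_le_norm
              ((f.comp (ContinuousMap.addRight (zr m))).restrict (K : Set (Fin n → ℝ))) ⟨x, hK hx⟩
          calc _ ≤ 1 * ‖f (x + zr m)‖ := by gcongr
            _ ≤ _ := by rw [one_mul]; exact h4)
      rw [mul_comm]
      refine le_trans (le_abs_self _) this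
  have hS : Summable (UnitAddTorus.mFourierCoeff F) := by
    have : UnitAddTorus.mFourierCoeff F
      = fun w => ∫ x, UnitAddTorus.mFourier (-w) (tq x) * f x := funext hcoef
    rw [this]; exact hsum
  have := UnitAddTorus.hasSum_mFourier_series_apply_of_summable hS (tq x)
  rw [hF, hG] at this
  simpa [hcoef, smul_eq_mul] using this



abbrev E (n : ℕ) := EuclideanSpace ℝ (Fin n)

noncomputable def ze {n : ℕ} (z : Fin n → ℤ) : E n := WithLp.toLp 2 (zr z)

lemma mFourier_tq {n : ℕ} (w : Fin n → ℤ) (x : Fin n → ℝ) :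
    UnitAddTorus.mFourier w (tq x) =
      Complex.exp (2 * Real.pi * Complex.I * (inner ℝ (ze w) (WithLp.toLp 2 x : E n) : ℝ)) := by
  have h1 : UnitAddTorus.mFourier w (tq x) = ∏ i, fourier (w i) (tq x i) := rfl
  rw [h1]
  have h2 : (inner ℝ (ze w) (WithLp.toLp 2 x : E n) : ℝ) = ∑ i, (w i : ℝ) * x i := by
    simp [ze, zr, PiLp.inner_apply, mul_comm]
  rw [h2, Complex.ofReal_sum, Finset.mul_sum, Complex.exp_sum]
  refine Finset.prod_congr rfl (fun i _ => ?_)
  simp only [tq, fourier_coe_apply]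
  congr 1
  push_cast
  ring

lemma integral_comp_linearEquiv {n : ℕ} (B : E n ≃ₗ[ℝ] E n) (f : E n → ℂ) :
    ∫ v, f (B v) = (|(LinearMap.det (B : E n →ₗ[ℝ] E n))|⁻¹ : ℝ) * ∫ v, f v := by
  have hdet : LinearMap.det (B : E n →ₗ[ℝ] E n) ≠ 0 := (LinearEquiv.isUnit_det' B).ne_zero
  have h := Measure.map_linearMap_addHaar_eq_smul_addHaar (μ := (volume : Measure (E n))) hdet
  have hemb : MeasurableEmbedding (B : E n → E n) :=
    B.toContinuousLinearEquiv.toHomeomorph.measurableEmbedding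
  have h2 : ∫ v, f (B v) = ∫ v, f v ∂(Measure.map (B : E n → E n) volume) :=
    (hemb.integral_map f).symm
  rw [h2]
  have h3 : Measure.map (B : E n → E n) (volume : Measure (E n)) =
    ENNReal.ofReal |(LinearMap.det (B : E n →ₗ[ℝ] E n))⁻¹| • volume := h
  rw [h3, integral_smul_measure, ENNReal.toReal_ofReal (abs_nonneg _), abs_inv]
  rw [Complex.real_smul]

lemma integral_gauss {n : ℕ} (B : E n ≃ₗ[ℝ] E n) (D : E n → E n)
    (hD : ∀ v u, inner ℝ (D v) (B u) = inner ℝ v u) (w : Fin n → ℤ) :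
    ∫ x : Fin n → ℝ, UnitAddTorus.mFourier (-w) (tq x) *
      Complex.exp (-Real.pi * ‖B (WithLp.toLp 2 x)‖ ^ 2)
    = (|(LinearMap.det (B : E n →ₗ[ℝ] E n))|⁻¹ : ℝ) *
      Complex.exp (-Real.pi * ‖D (ze w)‖ ^ 2) := by
  let F : E n → ℂ := fun v => Complex.exp (-Real.pi * ‖v‖ ^ 2 + (-2 * Real.pi * Complex.I) * (inner ℝ (D (ze w)) v : ℝ))
  have h1 : ∀ x : Fin n → ℝ, UnitAddTorus.mFourier (-w) (tq x) *
      Complex.exp (-Real.pi * ‖B (WithLp.toLp 2 x)‖ ^ 2) = F (B (WithLp.toLp 2 x)) := by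
    intro x
    rw [mFourier_tq]
    simp only [F]
    rw [← Complex.exp_add]
    congr 1
    rw [hD]
    have : (ze (-w) : E n) = - ze w := by
      ext i; simp [ze, zr]
    rw [this, inner_neg_left]
    push_cast
    ring
  simp_rw [h1]
  have h2 := (PiLp.volume_preserving_toLp (Fin n)).integral_comp
    (MeasurableEquiv.toLp 2 (Fin n → ℝ)).measurableEmbedding (fun v => F (B v))
  rw [h2, integral_comp_linearEquiv B F]
  congr 1
  have h3 := GaussianFourier.integral_cexp_neg_mul_sq_norm_add (b := (Real.pi : ℂ))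
    (by simpa using Real.pi_pos) (-2 * Real.pi * Complex.I) (D (ze w))
  simp only [F]
  have h4 : ∀ v : E n, Complex.exp (-Real.pi * ‖v‖ ^ 2 + (-2 * Real.pi * Complex.I) * (inner ℝ (D (ze w)) v : ℝ))
     = Complex.exp (-(Real.pi : ℂ) * ‖v‖ ^ 2 + -2 * Real.pi * Complex.I * (inner ℝ (D (ze w)) v : ℝ)) := fun v => rfl
  rw [h3]
  rw [div_self (by exact_mod_cast Real.pi_ne_zero), Complex.one_cpow, one_mul]
  congr 1
  have hpi : (Real.pi : ℂ) ≠ 0 := by exact_mod_cast Real.pi_ne_zero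
  field_simp
  ring_nf
  rw [Complex.I_sq]
  ring



lemma hasSum_pi_prod {n : ℕ} (f : Fin n → ℤ → ℝ) (h0 : ∀ i k, 0 ≤ f i k)
    (hf : ∀ i, Summable (f i)) :
    HasSum (fun m : Fin n → ℤ => ∏ i, f i (m i)) (∏ i, ∑' k, f i k) := by
  induction n with
  | zero =>
      have h1 : HasSum (fun _ : Fin 0 → ℤ => (1 : ℝ)) 1 := by
        have : (fun _ : Fin 0 → ℤ => (1 : ℝ)) = fun x => if x = default then 1 else 0 := by
          funext x; rw [if_pos (Subsingleton.elim _ _)]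
        rw [this]
        exact hasSum_ite_eq _ _
      simpa only [Finset.univ_eq_empty, Finset.prod_empty] using h1
  | succ n ih =>
      obtain ⟨g, hg⟩ : ∃ g : (Fin n → ℤ) → ℝ, g = fun m => ∏ i, f (Fin.succ i) (m i) := ⟨_, rfl⟩
      have ih : HasSum g (∏ i : Fin n, ∑' k, f (Fin.succ i) k) := by
        rw [hg]; exact ih (fun i => f i.succ) (fun i k => h0 _ k) (fun i => hf _)
      have h1 := (hf 0).hasSum
      have hg0 : ∀ m, 0 ≤ g m := fun m => by
        rw [hg]; exact Finset.prod_nonneg (fun i _ => h0 _ _)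
      have h2 : Summable (fun x : ℤ × (Fin n → ℤ) => f 0 x.1 * g x.2) := 
        Summable.mul_of_nonneg (hf 0) ih.summable (fun k => h0 0 k) hg0
      have h3 := h1.mul ih h2
      rw [Fin.prod_univ_succ]
      rw [← (Fin.consEquiv (fun _ : Fin (n + 1) => ℤ)).hasSum_iff]
      have h4 : ((fun m : Fin (n + 1) → ℤ => ∏ i, f i (m i)) ∘
          (Fin.consEquiv (fun _ : Fin (n + 1) => ℤ))) =
          fun x : ℤ × (Fin n → ℤ) => f 0 x.1 * g x.2 := by
        funext x
        rw [hg]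
        simp only [Function.comp_apply, Fin.consEquiv_apply, Fin.prod_univ_succ, Fin.cons_zero,
          Fin.cons_succ]
      rw [h4]
      exact h3

/-- the one-variable theta sum -/
noncomputable def Th (α : ℝ) : ℝ := ∑' k : ℤ, Real.exp (-Real.pi * α * (k : ℝ) ^ 2)

lemma summable_exp_abs {α : ℝ} (hα : 0 < α) :
    Summable (fun k : ℤ => Real.exp (-α * |(k : ℝ)|)) := by
  apply Summable.of_nat_of_neg
  · simp only [Int.cast_natCast, Nat.abs_cast]
    have := Real.summable_exp_nat_mul_iff.mpr (show -α < 0 by linarith)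
    refine this.congr (fun k => ?_)
    ring_nf
  · simp only [Int.cast_neg, Int.cast_natCast, abs_neg, Nat.abs_cast]
    have := Real.summable_exp_nat_mul_iff.mpr (show -α < 0 by linarith)
    refine this.congr (fun k => ?_)
    ring_nf

lemma int_abs_le_sq (k : ℤ) : |(k : ℝ)| ≤ (k : ℝ) ^ 2 := by
  have h : |k| ≤ k ^ 2 := by
    rcases eq_or_ne k 0 with rfl | hk
    · simp
    · have h1 : 1 ≤ |k| := Int.one_le_abs hk
      calc |k| = |k| * 1 := by ring
        _ ≤ |k| * |k| := by gcongr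
        _ = k ^ 2 := by rw [← sq, sq_abs]
  exact_mod_cast h

lemma summable_Th {α : ℝ} (hα : 0 < α) :
    Summable (fun k : ℤ => Real.exp (-Real.pi * α * (k : ℝ) ^ 2)) := by
  refine Summable.of_nonneg_of_le (fun k => (Real.exp_pos _).le) (fun k => ?_)
    (summable_exp_abs (mul_pos Real.pi_pos hα))
  rw [Real.exp_le_exp]
  have := int_abs_le_sq k
  have h2 : 0 < Real.pi * α := mul_pos Real.pi_pos hα
  nlinarith

lemma Th_pos {α : ℝ} (hα : 0 < α) : 0 < Th α :=
  (summable_Th hα).tsum_pos (fun k => (Real.exp_pos _).le) 0 (Real.exp_pos _)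

lemma exp_neg_pi_le : Real.exp (-Real.pi) ≤ 1 / 3 := by
  have h1 : Real.exp (-Real.pi) ≤ Real.exp (-3) := by
    rw [Real.exp_le_exp]; linarith [Real.pi_gt_three]
  have h2 : (4 : ℝ) ≤ Real.exp 3 := by
    have := Real.add_one_le_exp (3 : ℝ)
    linarith
  refine h1.trans ?_
  rw [Real.exp_neg, inv_le_comm₀ (by positivity) (by norm_num)]
  linarith

lemma Th_le_two {α : ℝ} (hα : 1 ≤ α) : Th α ≤ 2 := by
  set q : ℝ := Real.exp (-Real.pi) with hq
  have hq0 : 0 < q := Real.exp_pos _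
  have hq1 : q ≤ 1 / 3 := exp_neg_pi_le
  have hle : ∀ k : ℤ, Real.exp (-Real.pi * α * (k : ℝ) ^ 2) ≤ q ^ (k.natAbs) := by
    intro k
    rw [hq, ← Real.exp_nat_mul, Real.exp_le_exp]
    have h1 := int_abs_le_sq k
    have h2 : ((k.natAbs : ℕ) : ℝ) = |(k : ℝ)| := by
      rw [Nat.cast_natAbs]; push_cast; rfl
    rw [h2]
    have h3 : 0 ≤ (k : ℝ) ^ 2 := sq_nonneg _
    have h4 := Real.pi_pos
    nlinarith [mul_nonneg h4.le (mul_nonneg (sub_nonneg.2 hα) h3)]
  have hgeo : HasSum (fun k : ℕ => q ^ k) (1 - q)⁻¹ :=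
    hasSum_geometric_of_lt_one hq0.le (by linarith)
  have hgeo' : HasSum (fun k : ℕ => q ^ (k + 1)) (q * (1 - q)⁻¹) := by
    have := hgeo.mul_left q
    refine this.congr_fun (fun k => ?_)
    rw [pow_succ]; ring
  have hI : HasSum (fun k : ℤ => q ^ (k.natAbs)) ((1 - q)⁻¹ + q * (1 - q)⁻¹) := by
    apply HasSum.of_nat_of_neg_add_one (f := fun k : ℤ => q ^ (k.natAbs))
    · simpa using hgeo
    · refine hgeo'.congr_fun (fun k => ?_)
      congr 1
  have h5 : Th α ≤ (1 - q)⁻¹ + q * (1 - q)⁻¹ :=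
    hasSum_le hle (summable_Th (by linarith)).hasSum hI
  refine h5.trans ?_
  have h6 : (0:ℝ) < 1 - q := by linarith
  rw [← one_add_mul, ← div_eq_mul_inv, div_le_iff₀ h6]
  linarith

lemma Th_inv {α : ℝ} (hα : 0 < α) : Th α = (Real.sqrt α)⁻¹ * Th (α⁻¹) := by
  unfold Th
  have := Real.tsum_exp_neg_mul_int_sq hα
  rw [this, ← Real.sqrt_eq_rpow, one_div]
  congr 1

lemma Th_le_small {α : ℝ} (hα : 0 < α) (h1 : α ≤ 1) : Th α ≤ 2 * (Real.sqrt α)⁻¹ := by
  rw [Th_inv hα]
  have h2 : Th (α⁻¹) ≤ 2 := Th_le_two ((one_le_inv₀ hα).2 h1)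
  have h3 : 0 ≤ (Real.sqrt α)⁻¹ := by positivity
  nlinarith

lemma Th_anti {α β : ℝ} (hα : 0 < α) (h : α ≤ β) : Th β ≤ Th α := by
  refine Summable.tsum_le_tsum (fun k => ?_) (summable_Th (hα.trans_le h)) (summable_Th hα)
  rw [Real.exp_le_exp]
  have h3 : 0 ≤ (k : ℝ) ^ 2 := sq_nonneg _
  have h4 := Real.pi_pos
  nlinarith [mul_nonneg h4.le (mul_nonneg (sub_nonneg.2 h) h3)]

lemma norm_ze_sq {n : ℕ} (m : Fin n → ℤ) : ‖(ze m : E n)‖ ^ 2 = ∑ i, (m i : ℝ) ^ 2 := by
  rw [EuclideanSpace.norm_sq_eq]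
  simp [ze, zr]

lemma hasSum_gauss_ze {n : ℕ} {α : ℝ} (hα : 0 < α) :
    HasSum (fun m : Fin n → ℤ => Real.exp (-Real.pi * α * ‖(ze m : E n)‖ ^ 2)) (Th α ^ n) := by
  have h := hasSum_pi_prod (n := n) (fun _ k => Real.exp (-Real.pi * α * (k : ℝ) ^ 2))
    (fun _ _ => (Real.exp_pos _).le) (fun _ => summable_Th hα)
  have h2 : (∏ _i : Fin n, ∑' k : ℤ, Real.exp (-Real.pi * α * (k : ℝ) ^ 2)) = Th α ^ n := by
    simp [Th]
  rw [h2] at h
  have h3 : (fun m : Fin n → ℤ => Real.exp (-Real.pi * α * ‖(ze m : E n)‖ ^ 2)) =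
      fun m : Fin n → ℤ => ∏ i, Real.exp (-Real.pi * α * (m i : ℝ) ^ 2) := by
    funext m
    rw [norm_ze_sq, ← Real.exp_sum, Finset.mul_sum]
  rw [h3]
  exact h



lemma zr_add {n : ℕ} (a b : Fin n → ℤ) : zr (a + b) = zr a + zr b := by
  funext i; simp [zr]
lemma ze_add {n : ℕ} (a b : Fin n → ℤ) : (ze (a + b) : E n) = ze a + ze b := by
  ext i; simp [ze, zr]
lemma ze_neg {n : ℕ} (a : Fin n → ℤ) : (ze (-a) : E n) = - ze a := by
  ext i; simp [ze, zr]
lemma ze_sub {n : ℕ} (a b : Fin n → ℤ) : (ze (a - b) : E n) = ze a - ze b := by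
  ext i; simp [ze, zr]
lemma ze_zero {n : ℕ} : (ze (0 : Fin n → ℤ) : E n) = 0 := by
  ext i; simp [ze, zr]
lemma ze_smul {n : ℕ} (c : ℤ) (a : Fin n → ℤ) : (ze (c • a) : E n) = (c : ℝ) • ze a := by
  ext i; simp [ze, zr]
lemma ze_inj {n : ℕ} {a b : Fin n → ℤ} (h : (ze a : E n) = ze b) : a = b := by
  funext i
  have := congrArg (fun v : E n => v i) h
  simpa [ze, zr] using this

/-- lower bound for an invertible linear map -/
lemma exists_lower {n : ℕ} (B : E n ≃ₗ[ℝ] E n) : ∃ c > 0, ∀ v, c * ‖v‖ ≤ ‖B v‖ := by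
  obtain ⟨C, hC, h⟩ := B.symm.toContinuousLinearEquiv.toContinuousLinearMap.bound
  refine ⟨C⁻¹, inv_pos.2 hC, fun v => ?_⟩
  rw [inv_mul_le_iff₀ hC]
  have := h (B v)
  simpa using this

lemma exists_upper {n : ℕ} (B : E n ≃ₗ[ℝ] E n) : ∃ C > 0, ∀ v, ‖B v‖ ≤ C * ‖v‖ := by
  obtain ⟨C, hC, h⟩ := B.toContinuousLinearEquiv.toContinuousLinearMap.bound
  exact ⟨C, hC, h⟩

lemma dual_lower {n : ℕ} (B : E n ≃ₗ[ℝ] E n) (D : E n → E n)
    (hD : ∀ v u, inner ℝ (D v) (B u) = inner ℝ v u) : ∃ c > 0, ∀ v, c * ‖v‖ ≤ ‖D v‖ := by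
  obtain ⟨C, hC, h⟩ := exists_upper B
  refine ⟨C⁻¹, inv_pos.2 hC, fun v => ?_⟩
  rw [inv_mul_le_iff₀ hC]
  rcases eq_or_ne v 0 with rfl | hv
  · simp; positivity
  have hv' : 0 < ‖v‖ := norm_pos_iff.2 hv
  have h1 : ‖v‖ * ‖v‖ = inner ℝ (D v) (B v) := by
    rw [hD, real_inner_self_eq_norm_mul_norm]
  have h2 : inner ℝ (D v) (B v) ≤ ‖D v‖ * ‖B v‖ := real_inner_le_norm _ _
  have h3 := h v
  have h4 : ‖v‖ * ‖v‖ ≤ (C * ‖D v‖) * ‖v‖ := by
    rw [h1]; refine h2.trans ?_
    have := norm_nonneg (D v)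
    nlinarith
  exact le_of_mul_le_mul_right h4 hv'

/-- bound on shifted Gaussian terms -/
lemma gauss_shift_bound {n : ℕ} {B : E n → E n} {c : ℝ} (hc : 0 < c)
    (hB : ∀ v, c * ‖v‖ ≤ ‖B v‖) (x : E n) (m : Fin n → ℤ) :
    Real.exp (-Real.pi * ‖B (x + ze m)‖ ^ 2) ≤
      Real.exp (Real.pi * c ^ 2 * ‖x‖ ^ 2) *
        Real.exp (-Real.pi * (c ^ 2 / 2) * ‖(ze m : E n)‖ ^ 2) := by
  rw [← Real.exp_add, Real.exp_le_exp]
  have h1 := hB (x + ze m)
  have h2 : c ^ 2 * ‖x + ze m‖ ^ 2 ≤ ‖B (x + ze m)‖ ^ 2 := by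
    rw [← mul_pow]
    exact pow_le_pow_left₀ (by positivity) h1 2
  have h3 : ‖(ze m : E n)‖ ≤ ‖x + ze m‖ + ‖x‖ := by
    have : (ze m : E n) = (x + ze m) - x := by abel
    calc ‖(ze m : E n)‖ = ‖(x + ze m) - x‖ := by rw [← this]
      _ ≤ _ := norm_sub_le _ _
  have h4 : ‖(ze m : E n)‖ ^ 2 ≤ 2 * ‖x + ze m‖ ^ 2 + 2 * ‖x‖ ^ 2 := by
    have h5 : ‖(ze m : E n)‖ ^ 2 ≤ (‖x + ze m‖ + ‖x‖) ^ 2 :=
      pow_le_pow_left₀ (norm_nonneg _) h3 2
    nlinarith [sq_nonneg (‖x + ze m‖ - ‖x‖)]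
  have h6 : c ^ 2 / 2 * ‖(ze m : E n)‖ ^ 2 ≤ c ^ 2 * ‖x + ze m‖ ^ 2 + c ^ 2 * ‖x‖ ^ 2 := by
    have := mul_le_mul_of_nonneg_left h4 (show 0 ≤ c ^ 2 / 2 by positivity)
    nlinarith
  have hpi := Real.pi_pos
  nlinarith [mul_le_mul_of_nonneg_left (h6.trans (add_le_add h2 le_rfl)) hpi.le]

lemma summable_gauss_shift {n : ℕ} {B : E n → E n} {c : ℝ} (hc : 0 < c)
    (hB : ∀ v, c * ‖v‖ ≤ ‖B v‖) (x : E n) :
    Summable (fun m : Fin n → ℤ => Real.exp (-Real.pi * ‖B (x + ze m)‖ ^ 2)) := by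
  refine Summable.of_nonneg_of_le (fun m => (Real.exp_pos _).le)
    (fun m => gauss_shift_bound hc hB x m) ?_
  exact (hasSum_gauss_ze (by positivity)).summable.mul_left _

/-- **Poisson summation for Gaussians**. -/
theorem poisson_gauss {n : ℕ} (B : E n ≃ₗ[ℝ] E n) (D : E n → E n)
    (hD : ∀ v u, inner ℝ (D v) (B u) = inner ℝ v u) (x : E n) :
    HasSum (fun w : Fin n → ℤ => |(LinearMap.det (B : E n →ₗ[ℝ] E n))|⁻¹ *
      (Real.exp (-Real.pi * ‖D (ze w)‖ ^ 2) * Real.cos (2 * Real.pi * inner ℝ (ze w) x)))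
      (∑' m : Fin n → ℤ, Real.exp (-Real.pi * ‖B (x + ze m)‖ ^ 2)) := by
  obtain ⟨c, hc, hB⟩ := exists_lower B
  obtain ⟨c', hc', hD'⟩ := dual_lower B D hD
  have hcontB : Continuous (fun x : Fin n → ℝ => B (WithLp.toLp 2 x : E n)) := by
    exact B.toContinuousLinearEquiv.continuous.comp (PiLp.continuous_toLp 2 _)
  let f : C(Fin n → ℝ, ℂ) := ⟨fun x => Complex.exp (-Real.pi * ‖B (WithLp.toLp 2 x)‖ ^ 2), by
    have := hcontB.norm
    fun_prop⟩
  have hf : ∀ x, f x = ((Real.exp (-Real.pi * ‖B (WithLp.toLp 2 x)‖ ^ 2) : ℝ) : ℂ) := by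
    intro x
    simp [f]
  have htolp : ∀ (y : Fin n → ℝ) (m : Fin n → ℤ),
      (WithLp.toLp 2 (y + zr m) : E n) = WithLp.toLp 2 y + ze m := by
    intro y m; rfl
  have hloc : ∀ K : Compacts (Fin n → ℝ),
      Summable fun m : Fin n → ℤ => ‖(f.comp (ContinuousMap.addRight (zr m))).restrict K‖ := by
    intro K
    obtain ⟨R, hR⟩ : ∃ R : ℝ, ∀ y ∈ (K : Set (Fin n → ℝ)), ‖(WithLp.toLp 2 y : E n)‖ ≤ R := by
      have hcont : Continuous (fun y : Fin n → ℝ => (WithLp.toLp 2 y : E n)) :=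
        PiLp.continuous_toLp 2 _
      exact K.isCompact.exists_bound_of_continuousOn hcont.continuousOn
    refine Summable.of_nonneg_of_le (fun m => norm_nonneg _) (fun m => ?_)
      ((hasSum_gauss_ze (n := n) (α := c ^ 2 / 2) (by positivity)).summable.mul_left
        (Real.exp (Real.pi * c ^ 2 * R ^ 2)))
    rw [ContinuousMap.norm_le _ (by positivity)]
    rintro ⟨y, hy⟩
    have h1 : ((f.comp (ContinuousMap.addRight (zr m))).restrict (K : Set (Fin n → ℝ))) ⟨y, hy⟩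
      = f (y + zr m) := rfl
    rw [h1, hf, Complex.norm_real, Real.norm_of_nonneg (Real.exp_pos _).le, htolp]
    refine (gauss_shift_bound hc hB _ m).trans ?_
    gcongr
    exact hR y hy
  have hint : Integrable f := by
    have h1 := GaussianFourier.integrable_cexp_neg_mul_sq_norm_add (V := E n)
      (b := ((Real.pi * c ^ 2 : ℝ) : ℂ)) (by rw [Complex.ofReal_re]; positivity) 0 0
    have h2 : Integrable (fun v : E n => Real.exp (-Real.pi * c ^ 2 * ‖v‖ ^ 2)) := by
      have h3 := h1.norm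
      refine h3.congr (Eventually.of_forall (fun v => ?_))
      simp only [Complex.norm_exp]
      congr 1
      simp only [zero_mul, add_zero]
      have : (-((Real.pi * c ^ 2 : ℝ) : ℂ) * (‖v‖ : ℂ) ^ 2) =
        ((-Real.pi * c ^ 2 * ‖v‖ ^ 2 : ℝ) : ℂ) := by push_cast; ring
      rw [this, Complex.ofReal_re]
    have h4 : Integrable (fun y : Fin n → ℝ =>
        Real.exp (-Real.pi * c ^ 2 * ‖(WithLp.toLp 2 y : E n)‖ ^ 2)) :=
      ((PiLp.volume_preserving_toLp (Fin n)).integrable_comp_emb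
        (MeasurableEquiv.toLp 2 (Fin n → ℝ)).measurableEmbedding).2 h2
    refine h4.mono' f.continuous.aestronglyMeasurable (Eventually.of_forall (fun y => ?_))
    rw [hf, Complex.norm_real, Real.norm_of_nonneg (Real.exp_pos _).le, Real.exp_le_exp]
    have h5 := pow_le_pow_left₀ (by positivity) (hB (WithLp.toLp 2 y)) 2
    rw [mul_pow] at h5
    have hpi := Real.pi_pos
    nlinarith [mul_le_mul_of_nonneg_left h5 hpi.le]
  have hcoef : ∀ w : Fin n → ℤ, ∫ x, UnitAddTorus.mFourier (-w) (tq x) * f x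
      = ((|(LinearMap.det (B : E n →ₗ[ℝ] E n))|⁻¹ *
        Real.exp (-Real.pi * ‖D (ze w)‖ ^ 2) : ℝ) : ℂ) := by
    intro w
    have := integral_gauss B D hD w
    rw [Complex.ofReal_mul, Complex.ofReal_exp]
    have h1 : ((-Real.pi * ‖D (ze w)‖ ^ 2 : ℝ) : ℂ) = -(Real.pi : ℂ) * (‖D (ze w)‖ : ℂ) ^ 2 := by
      push_cast; ring
    rw [h1, ← this]
    rfl
  have hsumD : Summable (fun w : Fin n → ℤ => Real.exp (-Real.pi * ‖D (ze w)‖ ^ 2)) := by
    have := summable_gauss_shift (B := D) hc' hD' 0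
    simpa using this
  have hsum : Summable fun w : Fin n → ℤ => ∫ x, UnitAddTorus.mFourier (-w) (tq x) * f x := by
    simp_rw [hcoef]
    exact Complex.ofRealCLM.summable (hsumD.mul_left _)
  have hP := poisson f hloc hint hsum (WithLp.ofLp x)
  have h1 := Complex.reCLM.hasSum hP
  have h2 : Complex.reCLM (∑' m : Fin n → ℤ, f (WithLp.ofLp x + zr m)) =
      ∑' m : Fin n → ℤ, Real.exp (-Real.pi * ‖B (x + ze m)‖ ^ 2) := by
    simp_rw [hf, ← Complex.ofReal_tsum]
    simp [htolp]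
  rw [h2] at h1
  have h3 : (fun w : Fin n → ℤ => |(LinearMap.det (B : E n →ₗ[ℝ] E n))|⁻¹ *
      (Real.exp (-Real.pi * ‖D (ze w)‖ ^ 2) * Real.cos (2 * Real.pi * inner ℝ (ze w) x)))
      = fun w => Complex.reCLM ((∫ x, UnitAddTorus.mFourier (-w) (tq x) * f x) *
      UnitAddTorus.mFourier w (tq (WithLp.ofLp x))) := by
    funext w
    rw [hcoef, mFourier_tq, Complex.reCLM_apply, Complex.re_ofReal_mul, ← mul_assoc]
    congr 1
    have h4 : (2 * (Real.pi : ℂ) * Complex.I * ((inner ℝ (ze w) (WithLp.toLp 2 (WithLp.ofLp x) : E n) : ℝ) : ℂ))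
      = ((2 * Real.pi * inner ℝ (ze w) x : ℝ) : ℂ) * Complex.I := by
      rw [WithLp.toLp_ofLp]
      push_cast
      ring
    rw [h4, Complex.exp_ofReal_mul_I_re]
  rw [h3]
  exact h1


end Pool.Agent.Helper30.Cov
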