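import Mathlib
import Pool.Agent.Helper30.CovPoisson
open MeasureTheory Filter Topology Set TopologicalSpace
open scoped FourierTransform RealInnerProductSpace

namespace Pool.Agent.Helper30.Cov

/-- scaling by `α` on `U` and by `β` on the orthogonal complement -/
noncomputable def sc {n : ℕ} (U : Submodule ℝ (E n)) (α β : ℝ) : E n →ₗ[ℝ] E n :=
  α • (U.starProjection : E n →ₗ[ℝ] E n) +
    β • (LinearMap.id - (U.starProjection : E n →ₗ[ℝ] E n))

lemma sc_apply {n : ℕ} (U : Submodule ℝ (E n)) (α β : ℝ) (v : E n) :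
    sc U α β v = α • U.starProjection v + β • (v - U.starProjection v) := by
  simp [sc]

lemma sproj_sub {n : ℕ} (U : Submodule ℝ (E n)) (v : E n) :
    U.starProjection (v - U.starProjection v) = 0 := by
  rw [map_sub, Submodule.starProjection_eq_self_iff.2 (Submodule.starProjection_apply_mem U v),
    sub_self]

lemma sproj_idem {n : ℕ} (U : Submodule ℝ (E n)) (v : E n) :
    U.starProjection (U.starProjection v) = U.starProjection v :=
  Submodule.starProjection_eq_self_iff.2 (Submodule.starProjection_apply_mem U v)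

lemma proj_sc {n : ℕ} (U : Submodule ℝ (E n)) (α β : ℝ) (v : E n) :
    U.starProjection (sc U α β v) = α • U.starProjection v := by
  rw [sc_apply, map_add, map_smul, map_smul, sproj_sub, sproj_idem, smul_zero, add_zero]

lemma sc_sc {n : ℕ} (U : Submodule ℝ (E n)) (α β α' β' : ℝ) (v : E n) :
    sc U α β (sc U α' β' v) = sc U (α * α') (β * β') v := by
  rw [sc_apply U α β, proj_sc, sc_apply U α' β', sc_apply U (α * α')]
  rw [add_sub_cancel_left, smul_smul, smul_smul]

lemma sc_one {n : ℕ} (U : Submodule ℝ (E n)) (v : E n) : sc U 1 1 v = v := by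
  rw [sc_apply]; simp

/-- `sc` as an equivalence -/
noncomputable def scE {n : ℕ} (U : Submodule ℝ (E n)) (α β : ℝ) (hα : α ≠ 0) (hβ : β ≠ 0) :
    E n ≃ₗ[ℝ] E n :=
  LinearEquiv.ofLinearMap (sc U α β) (sc U α⁻¹ β⁻¹)
    (by ext1 v; rw [LinearMap.comp_apply, sc_sc, mul_inv_cancel₀ hα, mul_inv_cancel₀ hβ, sc_one]; rfl)
    (by ext1 v; rw [LinearMap.comp_apply, sc_sc, inv_mul_cancel₀ hα, inv_mul_cancel₀ hβ, sc_one]; rfl)

@[simp] lemma scE_apply {n : ℕ} (U : Submodule ℝ (E n)) (α β : ℝ) (hα : α ≠ 0) (hβ : β ≠ 0)
    (v : E n) : scE U α β hα hβ v = sc U α β v := rfl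

lemma inner_proj_sub {n : ℕ} (U : Submodule ℝ (E n)) (v w : E n) :
    inner ℝ (U.starProjection v) (w - U.starProjection w) = 0 := by
  rw [Submodule.inner_starProjection_left_eq_right, sproj_sub, inner_zero_right]

lemma inner_sub_proj {n : ℕ} (U : Submodule ℝ (E n)) (v w : E n) :
    inner ℝ (v - U.starProjection v) (U.starProjection w) = 0 := by
  rw [real_inner_comm, inner_proj_sub]

lemma inner_split {n : ℕ} (U : Submodule ℝ (E n)) (v w : E n) :
    inner ℝ v w = inner ℝ (U.starProjection v) (U.starProjection w) +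
      inner ℝ (v - U.starProjection v) (w - U.starProjection w) := by
  have h1 : v = U.starProjection v + (v - U.starProjection v) := by abel
  have h2 : w = U.starProjection w + (w - U.starProjection w) := by abel
  conv_lhs => rw [h1, h2]
  rw [inner_add_left, inner_add_right, inner_add_right, inner_proj_sub, inner_sub_proj]
  ring

lemma inner_sc_sc {n : ℕ} (U : Submodule ℝ (E n)) (α β α' β' : ℝ) (v w : E n) :
    inner ℝ (sc U α β v) (sc U α' β' w) =
      α * α' * inner ℝ (U.starProjection v) (U.starProjection w) +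
      β * β' * inner ℝ (v - U.starProjection v) (w - U.starProjection w) := by
  rw [sc_apply, sc_apply, inner_add_left, inner_add_right, inner_add_right]
  simp only [inner_smul_left, inner_smul_right, inner_proj_sub, inner_sub_proj]
  simp
  ring

lemma norm_sc_sq {n : ℕ} (U : Submodule ℝ (E n)) (α β : ℝ) (v : E n) :
    ‖sc U α β v‖ ^ 2 = α ^ 2 * ‖U.starProjection v‖ ^ 2 +
      β ^ 2 * ‖v - U.starProjection v‖ ^ 2 := by
  rw [← real_inner_self_eq_norm_sq, inner_sc_sc, real_inner_self_eq_norm_sq,
    real_inner_self_eq_norm_sq]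
  ring

lemma norm_split {n : ℕ} (U : Submodule ℝ (E n)) (v : E n) :
    ‖v‖ ^ 2 = ‖U.starProjection v‖ ^ 2 + ‖v - U.starProjection v‖ ^ 2 := by
  have := norm_sc_sq U 1 1 v
  rw [sc_one] at this
  simpa using this

lemma det_sc {n : ℕ} (U : Submodule ℝ (E n)) (α β : ℝ) :
    LinearMap.det (sc U α β) = α ^ (Module.finrank ℝ U) * β ^ (n - Module.finrank ℝ U) := by
  have he : U ≤ U.comap (sc U α β) := by
    intro v hv
    rw [Submodule.mem_comap, sc_apply, Submodule.starProjection_eq_self_iff.2 hv, sub_self,
      smul_zero, add_zero]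
    exact U.smul_mem _ hv
  rw [LinearMap.det_eq_det_mul_det U (sc U α β) he]
  have h1 : (sc U α β).restrict he = α • LinearMap.id := by
    ext1 v
    apply Subtype.ext
    rw [LinearMap.coe_restrict_apply, sc_apply, Submodule.starProjection_eq_self_iff.2 v.2,
      sub_self, smul_zero, add_zero]
    rfl
  have h2 : U.mapQ U (sc U α β) he = β • LinearMap.id := by
    apply Submodule.linearMap_qext
    ext1 v
    rw [LinearMap.comp_apply, LinearMap.comp_apply, Submodule.mkQ_apply, Submodule.mapQ_apply,
      LinearMap.smul_apply, LinearMap.id_apply, ← Submodule.Quotient.mk_smul,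
      Submodule.Quotient.eq, sc_apply]
    have : α • U.starProjection v + β • (v - U.starProjection v) - β • v =
      (α - β) • U.starProjection v := by
      rw [smul_sub, sub_smul]; abel
    rw [this]
    exact U.smul_mem _ (Submodule.starProjection_apply_mem U v)
  rw [h1, h2, LinearMap.det_smul, LinearMap.det_smul, LinearMap.det_id, LinearMap.det_id,
    Submodule.finrank_quotient]
  simp

end Pool.Agent.Helper30.Cov
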