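import Mathlib
import Pool.Agent.Helper30.CovScale
open MeasureTheory Filter Topology Set TopologicalSpace
open scoped FourierTransform RealInnerProductSpace

namespace Pool.Agent.Helper30.Cov

/-- theta sum of the nonzero dual vectors lying in `W` -/
noncomputable def thW {n : ℕ} (D : E n → E n) (W : Submodule ℝ (E n)) (s : ℝ) : ℝ := by
  classical
  exact ∑' w : Fin n → ℤ, if (w ≠ 0 ∧ D (ze w) ∈ W) then
    Real.exp (-Real.pi * s ^ 2 * ‖D (ze w)‖ ^ 2) else 0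

/-- theta sum of all nonzero dual vectors for the deformed form -/
noncomputable def thK {n : ℕ} (D : E n → E n) (W : Submodule ℝ (E n)) (s : ℝ) (k : ℝ) : ℝ :=
  ∑' w : Fin n → ℤ, if w = 0 then 0 else
    Real.exp (-Real.pi * s ^ 2 * (‖W.starProjection (D (ze w))‖ ^ 2 +
      k ^ 2 * ‖D (ze w) - W.starProjection (D (ze w))‖ ^ 2))

lemma summable_D {n : ℕ} {D : E n → E n} {c : ℝ} (hc : 0 < c) (hD : ∀ v, c * ‖v‖ ≤ ‖D v‖)
    {s : ℝ} (hs : 0 < s) :
    Summable (fun w : Fin n → ℤ => Real.exp (-Real.pi * s ^ 2 * ‖D (ze w)‖ ^ 2)) := by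
  have h := summable_gauss_shift (n := n) (B := fun v => s • D v) (c := s * c) (by positivity)
    (by
      intro v
      rw [norm_smul, Real.norm_of_nonneg hs.le, mul_assoc]
      exact mul_le_mul_of_nonneg_left (hD v) hs.le) 0
  refine h.congr (fun w => ?_)
  rw [zero_add, norm_smul, Real.norm_of_nonneg hs.le, mul_pow]
  ring_nf

lemma term_le {n : ℕ} (W : Submodule ℝ (E n)) (s : ℝ) {k : ℝ} (hk : 1 ≤ k) (v : E n) :
    Real.exp (-Real.pi * s ^ 2 * (‖W.starProjection v‖ ^ 2 +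
      k ^ 2 * ‖v - W.starProjection v‖ ^ 2)) ≤ Real.exp (-Real.pi * s ^ 2 * ‖v‖ ^ 2) := by
  rw [Real.exp_le_exp, norm_split W v]
  have h1 : (1:ℝ) ≤ k ^ 2 := by nlinarith
  have h2 : 0 ≤ ‖v - W.starProjection v‖ ^ 2 := sq_nonneg _
  have h3 : 0 ≤ Real.pi * s ^ 2 := by positivity
  nlinarith [mul_le_mul_of_nonneg_left (mul_le_mul_of_nonneg_right h1 h2) h3]

lemma tendsto_thK {n : ℕ} {D : E n → E n} {c : ℝ} (hc : 0 < c) (hD : ∀ v, c * ‖v‖ ≤ ‖D v‖)
    (W : Submodule ℝ (E n)) {s : ℝ} (hs : 0 < s) :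
    Tendsto (fun k : ℕ => thK D W s (k + 1)) atTop (𝓝 (thW D W s)) := by
  classical
  unfold thK thW
  refine tendsto_tsum_of_dominated_convergence (summable_D hc hD hs) ?_ ?_
  · intro w
    by_cases hw : w = 0
    · simp [hw]
    · simp only [hw, if_false, ne_eq, not_false_eq_true, true_and]
      by_cases hW : D (ze w) ∈ W
      · rw [if_pos hW, Submodule.starProjection_eq_self_iff.2 hW]
        simp
      · rw [if_neg hW]
        have hpos : 0 < ‖D (ze w) - W.starProjection (D (ze w))‖ ^ 2 := by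
          apply pow_pos
          rw [norm_pos_iff, sub_ne_zero]
          intro h
          exact hW (Submodule.starProjection_eq_self_iff.1 h.symm)
        set b := ‖D (ze w) - W.starProjection (D (ze w))‖ ^ 2
        set a := ‖W.starProjection (D (ze w))‖ ^ 2
        have hs2 : 0 < Real.pi * s ^ 2 := by positivity
        apply Real.tendsto_exp_atBot.comp
        have h1 : Tendsto (fun k : ℕ => ((k : ℝ) + 1)) atTop atTop :=
          tendsto_atTop_add_const_right _ _ tendsto_natCast_atTop_atTop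
        have h2 : Tendsto (fun k : ℕ => ((k : ℝ) + 1) ^ 2) atTop atTop :=
          (tendsto_pow_atTop two_ne_zero).comp h1
        have h3 : Tendsto (fun k : ℕ => (Real.pi * s ^ 2 * b) * ((k : ℝ) + 1) ^ 2 +
          Real.pi * s ^ 2 * a) atTop atTop :=
          tendsto_atTop_add_const_right _ _ (h2.const_mul_atTop (by positivity))
        have h4 := tendsto_neg_atTop_atBot.comp h3
        refine h4.congr (fun k => ?_)
        simp only [Function.comp_apply]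
        ring
  · filter_upwards with k w
    by_cases hw : w = 0
    · simp [hw, Real.exp_nonneg]
    · rw [if_neg hw, Real.norm_of_nonneg (Real.exp_pos _).le]
      exact term_le W s (by simp) _

lemma D_zero {n : ℕ} (B : E n ≃ₗ[ℝ] E n) (D : E n → E n)
    (hD : ∀ v u, inner ℝ (D v) (B u) = inner ℝ v u) : D 0 = 0 := by
  have h := hD 0 (B.symm (D 0))
  rw [LinearEquiv.apply_symm_apply, inner_zero_left] at h
  exact inner_self_eq_zero.1 h

/-- nonzero part of the dual theta sum -/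
noncomputable def thN {n : ℕ} (D : E n → E n) : ℝ :=
  ∑' w : Fin n → ℤ, if w = 0 then 0 else Real.exp (-Real.pi * ‖D (ze w)‖ ^ 2)

lemma summable_thN {n : ℕ} (B : E n ≃ₗ[ℝ] E n) (D : E n → E n)
    (hD : ∀ v u, inner ℝ (D v) (B u) = inner ℝ v u) :
    Summable (fun w : Fin n → ℤ => if w = 0 then 0 else
      Real.exp (-Real.pi * ‖D (ze w)‖ ^ 2)) := by
  obtain ⟨c', hc', hD'⟩ := dual_lower B D hD
  have hsumD := summable_gauss_shift (B := D) hc' hD' 0
  simp only [zero_add] at hsumD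
  refine Summable.of_nonneg_of_le (fun w => ?_) (fun w => ?_) hsumD
  · split_ifs
    · exact le_rfl
    · exact (Real.exp_pos _).le
  · split_ifs
    · exact (Real.exp_pos _).le
    · exact le_rfl

lemma pg_upper {n : ℕ} (B : E n ≃ₗ[ℝ] E n) (D : E n → E n)
    (hD : ∀ v u, inner ℝ (D v) (B u) = inner ℝ v u) (x : E n) :
    ∑' m : Fin n → ℤ, Real.exp (-Real.pi * ‖B (x + ze m)‖ ^ 2) ≤
      |(LinearMap.det (B : E n →ₗ[ℝ] E n))|⁻¹ * (1 + thN D) := by
  classical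
  have hP := poisson_gauss B D hD x
  have hN := (summable_thN B D hD).hasSum
  have h1 : HasSum (fun w : Fin n → ℤ => if w = 0 then (1:ℝ) else 0) 1 := hasSum_ite_eq 0 1
  have h2 := (h1.add hN).mul_left |(LinearMap.det (B : E n →ₗ[ℝ] E n))|⁻¹
  refine hasSum_le (fun w => ?_) hP h2
  refine mul_le_mul_of_nonneg_left ?_ (by positivity)
  split_ifs with hw
  · rw [hw, ze_zero, D_zero B D hD]; simp
  · rw [zero_add]
    exact mul_le_of_le_one_right (Real.exp_pos _).le (Real.cos_le_one _)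

lemma pg_lower {n : ℕ} (B : E n ≃ₗ[ℝ] E n) (D : E n → E n)
    (hD : ∀ v u, inner ℝ (D v) (B u) = inner ℝ v u) (x : E n) :
    |(LinearMap.det (B : E n →ₗ[ℝ] E n))|⁻¹ * (1 - thN D) ≤
    ∑' m : Fin n → ℤ, Real.exp (-Real.pi * ‖B (x + ze m)‖ ^ 2) := by
  classical
  have hP := poisson_gauss B D hD x
  have hN := (summable_thN B D hD).hasSum
  have h1 : HasSum (fun w : Fin n → ℤ => if w = 0 then (1:ℝ) else 0) 1 := hasSum_ite_eq 0 1
  have h2 := (h1.sub hN).mul_left |(LinearMap.det (B : E n →ₗ[ℝ] E n))|⁻¹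
  refine hasSum_le (fun w => ?_) h2 hP
  refine mul_le_mul_of_nonneg_left ?_ (by positivity)
  split_ifs with hw
  · rw [hw, ze_zero, D_zero B D hD]; simp
  · have h3 := Real.neg_one_le_cos (2 * Real.pi * inner ℝ (ze w) x)
    have h4 := Real.exp_pos (-Real.pi * ‖D (ze w)‖ ^ 2)
    nlinarith

lemma thN_mono {n : ℕ} (B1 B2 : E n ≃ₗ[ℝ] E n) (D1 D2 : E n → E n)
    (hD1 : ∀ v u, inner ℝ (D1 v) (B1 u) = inner ℝ v u)
    (hD2 : ∀ v u, inner ℝ (D2 v) (B2 u) = inner ℝ v u)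
    (h : ∀ v, ‖D2 v‖ ^ 2 ≤ ‖D1 v‖ ^ 2) : thN D1 ≤ thN D2 := by
  unfold thN
  have h1 := summable_thN B1 D1 hD1
  have h2 := summable_thN B2 D2 hD2
  refine hasSum_le ?_ h1.hasSum h2.hasSum
  intro w
  by_cases hw : w = 0
  · rw [if_pos hw, if_pos hw]
  · rw [if_neg hw, if_neg hw, Real.exp_le_exp]
    have := h (ze w)
    have hpi := Real.pi_pos
    nlinarith

lemma primal_mono {n : ℕ} (B1 B2 : E n ≃ₗ[ℝ] E n) (x : E n) (C : ℝ)
    (h : ∀ m : Fin n → ℤ, Real.exp (-Real.pi * ‖B1 (x + ze m)‖ ^ 2) ≤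
      C * Real.exp (-Real.pi * ‖B2 (x + ze m)‖ ^ 2)) :
    ∑' m : Fin n → ℤ, Real.exp (-Real.pi * ‖B1 (x + ze m)‖ ^ 2) ≤
      C * ∑' m : Fin n → ℤ, Real.exp (-Real.pi * ‖B2 (x + ze m)‖ ^ 2) := by
  obtain ⟨c1, hc1, hB1c⟩ := exists_lower B1
  obtain ⟨c2, hc2, hB2c⟩ := exists_lower B2
  have h1 := (summable_gauss_shift hc1 hB1c x).hasSum
  have h2 := (summable_gauss_shift hc2 hB2c x).hasSum.mul_left C
  exact hasSum_le h h1 h2

/-- the pair (B, D) composed with a scaling -/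
lemma dual_sc {n : ℕ} (B : E n ≃ₗ[ℝ] E n) (D : E n → E n)
    (hD : ∀ v u, inner ℝ (D v) (B u) = inner ℝ v u) (W : Submodule ℝ (E n)) {α β : ℝ}
    (hα : α ≠ 0) (hβ : β ≠ 0) : ∀ v u, inner ℝ (sc W α⁻¹ β⁻¹ (D v))
      ((B.trans (scE W α β hα hβ)) u) = inner ℝ v u := by
  intro v u
  rw [LinearEquiv.trans_apply, scE_apply, inner_sc_sc, inv_mul_cancel₀ hα, inv_mul_cancel₀ hβ,
    one_mul, one_mul, ← inner_split, hD]

lemma det_trans_sc {n : ℕ} (B : E n ≃ₗ[ℝ] E n) (W : Submodule ℝ (E n)) {α β : ℝ}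
    (hα : 0 < α) (hβ : 0 < β) :
    |LinearMap.det ((B.trans (scE W α β hα.ne' hβ.ne') : E n ≃ₗ[ℝ] E n) : E n →ₗ[ℝ] E n)|⁻¹ =
      (α⁻¹ ^ (Module.finrank ℝ W) * β⁻¹ ^ (n - Module.finrank ℝ W)) *
        |LinearMap.det (B : E n →ₗ[ℝ] E n)|⁻¹ := by
  have h1 : ((B.trans (scE W α β hα.ne' hβ.ne') : E n ≃ₗ[ℝ] E n) : E n →ₗ[ℝ] E n) =
    (sc W α β) ∘ₗ (B : E n →ₗ[ℝ] E n) := rfl
  rw [h1, LinearMap.det_comp, det_sc, abs_mul, abs_of_pos (by positivity), mul_inv, mul_inv]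
  simp

lemma exp_half_pi : Real.exp (-Real.pi / 2) * Real.sqrt 2 ≤ 1 / 2 := by
  have h1 : Real.exp (-Real.pi / 2) ≤ 1 / 3 := by
    have h2 : Real.exp (-Real.pi / 2) ≤ Real.exp (-(3 / 2)) := by
      rw [Real.exp_le_exp]; linarith [Real.pi_gt_three]
    refine h2.trans ?_
    rw [Real.exp_neg, inv_le_comm₀ (by positivity) (by norm_num)]
    have h3 := Real.quadratic_le_exp_of_nonneg (show (0:ℝ) ≤ 3 / 2 by norm_num)
    norm_num at h3 ⊢
    linarith
  have h4 : Real.sqrt 2 ≤ 3 / 2 := by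
    rw [Real.sqrt_le_left (by norm_num)]; norm_num
  have h5 := Real.exp_pos (-Real.pi / 2)
  have h6 := Real.sqrt_nonneg 2
  nlinarith

/-- **Transference**: a small theta sum of the dual lattice in `W` gives a small covering
radius of the projection to `W`. -/
theorem transference {n : ℕ} (B : E n ≃ₗ[ℝ] E n) (D : E n → E n)
    (hD : ∀ v u, inner ℝ (D v) (B u) = inner ℝ v u) (W : Submodule ℝ (E n))
    (hW : 1 ≤ Module.finrank ℝ W) {s : ℝ} (hs : 0 < s) (hth : thW D W s ≤ 1 / 4) (y : E n) :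
    ∃ m : Fin n → ℤ, ‖W.starProjection (y + B (ze m))‖ ≤ s * Real.sqrt (Module.finrank ℝ W) := by
  by_contra hcon
  push Not at hcon
  obtain ⟨c, hc, hDc⟩ := dual_lower B D hD
  obtain ⟨cB, hcB, hBc⟩ := exists_lower B
  have hlim := tendsto_thK hc hDc W hs
  obtain ⟨k, hk⟩ := (hlim.eventually (gt_mem_nhds (show thW D W s < 1 / 3 by linarith))).exists
  set K : ℝ := (k : ℝ) + 1 with hK
  have hK1 : 1 ≤ K := by rw [hK]; simp
  have hKpos : 0 < K := by linarith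
  set i := Module.finrank ℝ W with hi
  set x := B.symm y with hx
  have hr2 : (0:ℝ) < Real.sqrt 2 := by positivity
  -- the two forms
  set τ : ℝ := (s * K)⁻¹ with hτ
  have hτpos : 0 < τ := by positivity
  have hα1 : 0 < s⁻¹ := by positivity
  have hα2 : 0 < (Real.sqrt 2 * s)⁻¹ := by positivity
  set B1 := B.trans (scE W s⁻¹ τ hα1.ne' hτpos.ne') with hB1
  set B2 := B.trans (scE W (Real.sqrt 2 * s)⁻¹ τ hα2.ne' hτpos.ne') with hB2
  have hL := pg_lower B1 _ (dual_sc B D hD W hα1.ne' hτpos.ne') x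
  have hU := pg_upper B2 _ (dual_sc B D hD W hα2.ne' hτpos.ne') x
  rw [hB1, det_trans_sc B W hα1 hτpos] at hL
  rw [hB2, det_trans_sc B W hα2 hτpos] at hU
  rw [← hB1] at hL
  rw [← hB2] at hU
  -- dual theta sums
  have hN1 : thN (fun v => sc W s⁻¹⁻¹ τ⁻¹ (D v)) = thK D W s K := by
    unfold thN thK
    refine tsum_congr (fun w => ?_)
    congr 1
    congr 1
    rw [norm_sc_sq, inv_inv, hτ, inv_inv]
    ring
  have hN2 : thN (fun v => sc W (Real.sqrt 2 * s)⁻¹⁻¹ τ⁻¹ (D v)) ≤ thK D W s K := by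
    rw [← hN1]
    refine thN_mono _ _ _ _ (dual_sc B D hD W hα2.ne' hτpos.ne')
      (dual_sc B D hD W hα1.ne' hτpos.ne') (fun v => ?_)
    rw [norm_sc_sq, norm_sc_sq]
    simp only [inv_inv]
    rw [mul_pow, Real.sq_sqrt (by norm_num : (0:ℝ) ≤ 2)]
    have h1 : 0 ≤ s ^ 2 * ‖W.starProjection (D v)‖ ^ 2 := by positivity
    nlinarith
  rw [hN1] at hL
  -- compare the primal sums
  have hcomp : ∑' m : Fin n → ℤ, Real.exp (-Real.pi * ‖B1 (x + ze m)‖ ^ 2) ≤
      Real.exp (-Real.pi / 2) ^ i *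
        ∑' m : Fin n → ℤ, Real.exp (-Real.pi * ‖B2 (x + ze m)‖ ^ 2) := by
    refine primal_mono B1 B2 x _ (fun m => ?_)
    rw [← Real.exp_nat_mul, ← Real.exp_add, Real.exp_le_exp]
    have e1 : B1 (x + ze m) = sc W s⁻¹ τ (B (x + ze m)) := rfl
    have e2 : B2 (x + ze m) = sc W (Real.sqrt 2 * s)⁻¹ τ (B (x + ze m)) := rfl
    have e3 : B (x + ze m) = y + B (ze m) := by
      rw [map_add, hx, LinearEquiv.apply_symm_apply]
    rw [e1, e2, norm_sc_sq, norm_sc_sq, e3]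
    have h1 := hcon m
    have h2 : s ^ 2 * i < ‖W.starProjection (y + B (ze m))‖ ^ 2 := by
      have h3 := pow_lt_pow_left₀ h1 (by positivity) two_ne_zero
      rw [mul_pow, Real.sq_sqrt (by positivity)] at h3
      exact h3
    have h4 : (i : ℝ) ≤ s⁻¹ ^ 2 * ‖W.starProjection (y + B (ze m))‖ ^ 2 := by
      have h5 : s⁻¹ ^ 2 * (s ^ 2 * i) ≤ s⁻¹ ^ 2 * ‖W.starProjection (y + B (ze m))‖ ^ 2 :=
        mul_le_mul_of_nonneg_left h2.le (by positivity)
      have h6 : s⁻¹ ^ 2 * (s ^ 2 * i) = i := by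
        field_simp
      linarith
    have h7 : (Real.sqrt 2 * s)⁻¹ ^ 2 = s⁻¹ ^ 2 / 2 := by
      rw [mul_inv, mul_pow, inv_pow, Real.sq_sqrt (by norm_num)]; ring
    rw [h7]
    have hpi := Real.pi_pos
    nlinarith [mul_le_mul_of_nonneg_left h4 hpi.le]
  -- combine
  set κ := (s⁻¹⁻¹ ^ i * τ⁻¹ ^ (n - i)) * |LinearMap.det (B : E n →ₗ[ℝ] E n)|⁻¹ with hκ
  have hκpos : 0 < κ := by
    have : LinearMap.det (B : E n →ₗ[ℝ] E n) ≠ 0 := (LinearEquiv.isUnit_det' B).ne_zero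
    positivity
  have hκ2 : ((Real.sqrt 2 * s)⁻¹⁻¹ ^ i * τ⁻¹ ^ (n - i)) * |LinearMap.det (B : E n →ₗ[ℝ] E n)|⁻¹
      = Real.sqrt 2 ^ i * κ := by
    rw [hκ]; simp only [inv_inv, mul_pow]; ring
  rw [hκ2] at hU
  have hθ0 : 0 ≤ thN (fun v => sc W (Real.sqrt 2 * s)⁻¹⁻¹ τ⁻¹ (D v)) := by
    unfold thN
    refine tsum_nonneg (fun w => ?_)
    split_ifs
    · exact le_rfl
    · exact (Real.exp_pos _).le
  set θ := thK D W s K with hθ
  have hfin : κ * (1 - θ) ≤ (Real.exp (-Real.pi / 2) * Real.sqrt 2) ^ i * (κ * (1 + θ)) := by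
    refine hL.trans (hcomp.trans ?_)
    rw [mul_pow, mul_assoc]
    refine mul_le_mul_of_nonneg_left ?_ (by positivity)
    refine hU.trans ?_
    have h11 : 0 ≤ Real.sqrt 2 ^ i * κ := by positivity
    have h12 := mul_le_mul_of_nonneg_left (add_le_add (le_refl (1:ℝ)) hN2) h11
    refine h12.trans (le_of_eq ?_)
    rw [mul_assoc]
  have hθn : 0 ≤ θ := by linarith
  have hpow : (Real.exp (-Real.pi / 2) * Real.sqrt 2) ^ i ≤ 1 / 2 := by
    calc (Real.exp (-Real.pi / 2) * Real.sqrt 2) ^ i ≤ (1 / 2 : ℝ) ^ i :=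
          pow_le_pow_left₀ (by positivity) exp_half_pi i
      _ ≤ (1 / 2 : ℝ) ^ 1 := pow_le_pow_of_le_one (by norm_num) (by norm_num) hW
      _ = 1 / 2 := by norm_num
  have h8 : κ * (1 - θ) ≤ 1 / 2 * (κ * (1 + θ)) := by
    refine hfin.trans ?_
    exact mul_le_mul_of_nonneg_right hpow (by positivity)
  have h9 : κ * (1 - θ) ≤ κ * (1 / 2 * (1 + θ)) := by linarith
  have h10 := le_of_mul_le_mul_left h9 hκpos
  linarith

end Pool.Agent.Helper30.Cov
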