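import Mathlib
import Pool.Agent.Helper30.CovTrans
open MeasureTheory Filter Topology Set TopologicalSpace
open scoped FourierTransform RealInnerProductSpace

namespace Pool.Agent.Helper30.Cov

lemma one_add_thN_le {n : ℕ} (B : E n ≃ₗ[ℝ] E n) (D : E n → E n)
    (hD : ∀ v u, inner ℝ (D v) (B u) = inner ℝ v u) (h1 : ∀ v, ‖v‖ ≤ ‖D v‖) :
    1 + thN D ≤ 2 ^ n := by
  have hN := (summable_thN B D hD).hasSum
  have h2 : HasSum (fun w : Fin n → ℤ => if w = 0 then (1:ℝ) else 0) 1 := hasSum_ite_eq 0 1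
  have h3 := h2.add hN
  have h4 := hasSum_gauss_ze (n := n) (α := 1) one_pos
  have h5 : 1 + thN D ≤ Th 1 ^ n := by
    refine hasSum_le ?_ h3 h4
    intro w
    by_cases hw : w = 0
    · rw [if_pos hw, if_pos hw, hw, ze_zero]; simp
    · rw [if_neg hw, if_neg hw, zero_add, Real.exp_le_exp]
      have h6 := pow_le_pow_left₀ (norm_nonneg _) (h1 (ze w)) 2
      have hpi := Real.pi_pos
      nlinarith
  exact h5.trans (pow_le_pow_left₀ (Th_pos one_pos).le (Th_le_two le_rfl) n)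

lemma thN_nonneg {n : ℕ} (D : E n → E n) : 0 ≤ thN D := by
  unfold thN
  refine tsum_nonneg (fun w => ?_)
  split_ifs
  · exact le_rfl
  · exact (Real.exp_pos _).le

/-- counting constant -/
noncomputable def KC : ℝ := 2 * Real.exp (2 * Real.pi)

lemma KC_pos : 0 < KC := by unfold KC; positivity

lemma count_near {n : ℕ} (U : Submodule ℝ (E n)) (m : ℕ) (hU : Module.finrank ℝ U ≤ m)
    (hm : m ≤ n) {σ τ : ℝ} (hτ : 1 ≤ τ) (hστ : τ ≤ σ) (v : E n) (S : Finset (Fin n → ℤ))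
    (hS1 : ∀ u ∈ S, ‖v + ze u‖ ≤ Real.sqrt n * σ)
    (hS2 : ∀ u ∈ S, ‖(v + ze u) - U.starProjection (v + ze u)‖ ≤ Real.sqrt n * τ) :
    (S.card : ℝ) ≤ KC ^ n * (σ ^ m * τ ^ (n - m)) := by
  have hτ0 : 0 < τ := by linarith
  have hσ0 : 0 < σ := by linarith
  have hσi : (0:ℝ) < σ⁻¹ := by positivity
  have hτi : (0:ℝ) < τ⁻¹ := by positivity
  set B := scE U σ⁻¹ τ⁻¹ hσi.ne' hτi.ne' with hB
  have hD : ∀ v u, inner ℝ (sc U σ τ v) (B u) = inner ℝ v u := by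
    intro v u
    rw [hB, scE_apply, inner_sc_sc, mul_inv_cancel₀ hσ0.ne', mul_inv_cancel₀ hτ0.ne', one_mul,
      one_mul, ← inner_split]
  have hge : ∀ v, ‖v‖ ≤ ‖sc U σ τ v‖ := by
    intro v
    apply le_of_sq_le_sq _ (norm_nonneg _)
    rw [norm_sc_sq, norm_split U v]
    have h1 : (1:ℝ) ≤ σ ^ 2 := by nlinarith
    have h2 : (1:ℝ) ≤ τ ^ 2 := by nlinarith
    have h3 : 0 ≤ ‖U.starProjection v‖ ^ 2 := sq_nonneg _
    have h4 : 0 ≤ ‖v - U.starProjection v‖ ^ 2 := sq_nonneg _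
    nlinarith
  have h1 := pg_upper B _ hD v
  have h2 := one_add_thN_le B _ hD hge
  have hdet : |LinearMap.det (B : E n →ₗ[ℝ] E n)|⁻¹ =
      σ ^ (Module.finrank ℝ U) * τ ^ (n - Module.finrank ℝ U) := by
    have : (B : E n →ₗ[ℝ] E n) = sc U σ⁻¹ τ⁻¹ := rfl
    rw [this, det_sc, abs_of_pos (by positivity), mul_inv]
    simp
  rw [hdet] at h1
  have h3 : σ ^ (Module.finrank ℝ U) * τ ^ (n - Module.finrank ℝ U) ≤ σ ^ m * τ ^ (n - m) := by
    have e1 : n - Module.finrank ℝ U = (n - m) + (m - Module.finrank ℝ U) := by omega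
    have e2 : m = Module.finrank ℝ U + (m - Module.finrank ℝ U) := by omega
    rw [e1, pow_add]
    conv_rhs => rw [e2, pow_add]
    rw [← e2]
    have h5 : τ ^ (m - Module.finrank ℝ U) ≤ σ ^ (m - Module.finrank ℝ U) :=
      pow_le_pow_left₀ hτ0.le hστ _
    calc σ ^ (Module.finrank ℝ U) * (τ ^ (n - m) * τ ^ (m - Module.finrank ℝ U))
        ≤ σ ^ (Module.finrank ℝ U) * (τ ^ (n - m) * σ ^ (m - Module.finrank ℝ U)) := by gcongr
      _ = _ := by ring
  obtain ⟨c1, hc1, hBc⟩ := exists_lower B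
  have hsum := summable_gauss_shift hc1 hBc v
  have h4 : ∑ u ∈ S, Real.exp (-Real.pi * ‖B (v + ze u)‖ ^ 2) ≤
      ∑' u : Fin n → ℤ, Real.exp (-Real.pi * ‖B (v + ze u)‖ ^ 2) :=
    hsum.sum_le_tsum S (fun u _ => (Real.exp_pos _).le)
  have h5 : (S.card : ℝ) * Real.exp (-(2 * Real.pi * n)) ≤
      ∑ u ∈ S, Real.exp (-Real.pi * ‖B (v + ze u)‖ ^ 2) := by
    rw [← nsmul_eq_mul]
    refine Finset.card_nsmul_le_sum _ _ _ (fun u hu => ?_)
    rw [Real.exp_le_exp, hB, scE_apply, norm_sc_sq]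
    have a1 := hS1 u hu
    have a2 := hS2 u hu
    have a3 : ‖U.starProjection (v + ze u)‖ ≤ Real.sqrt n * σ :=
      (Submodule.norm_starProjection_apply_le U _).trans a1
    have a4 := pow_le_pow_left₀ (norm_nonneg _) a3 2
    have a5 := pow_le_pow_left₀ (norm_nonneg _) a2 2
    rw [mul_pow, Real.sq_sqrt (Nat.cast_nonneg n)] at a4 a5
    have b1 : σ⁻¹ ^ 2 * ‖U.starProjection (v + ze u)‖ ^ 2 ≤ n := by
      rw [inv_pow, inv_mul_le_iff₀ (by positivity)]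
      linarith
    have b2 : τ⁻¹ ^ 2 * ‖(v + ze u) - U.starProjection (v + ze u)‖ ^ 2 ≤ n := by
      rw [inv_pow, inv_mul_le_iff₀ (by positivity)]
      linarith
    have hpi := Real.pi_pos
    nlinarith
  have h6 : (S.card : ℝ) * Real.exp (-(2 * Real.pi * n)) ≤ (σ ^ m * τ ^ (n - m)) * 2 ^ n := by
    refine h5.trans (h4.trans (h1.trans ?_))
    exact mul_le_mul h3 h2 (by linarith [thN_nonneg (sc U σ τ)]) (by positivity)
  have h7 : KC ^ n = 2 ^ n * Real.exp (2 * Real.pi * n) := by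
    unfold KC
    rw [mul_pow, ← Real.exp_nat_mul]
    ring_nf
  rw [h7]
  rw [Real.exp_neg, ← div_eq_mul_inv, div_le_iff₀ (Real.exp_pos _)] at h6
  linarith

end Pool.Agent.Helper30.Cov
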