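import Mathlib
import Pool.Agent.Helper30.CovNear
open MeasureTheory Filter Topology Set TopologicalSpace
open scoped FourierTransform RealInnerProductSpace

namespace Pool.Agent.Helper30.Cov

/-- the span of the first `b` vectors -/
def Us {n : ℕ} (T : ℕ → Fin n → ℤ) (b : ℕ) : Submodule ℝ (E n) :=
  Submodule.span ℝ ((fun a => ze (T a)) '' (Set.Iio b))

/-- the height of the `b`-th vector over the span of the previous ones -/
noncomputable def ht {n : ℕ} (T : ℕ → Fin n → ℤ) (b : ℕ) : ℝ :=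
  ‖ze (T b) - (Us T b).starProjection (ze (T b))‖

lemma Us_zero {n : ℕ} (T : ℕ → Fin n → ℤ) : Us T 0 = ⊥ := by
  unfold Us
  have : (Set.Iio 0 : Set ℕ) = ∅ := by ext x; simp
  rw [this]; simp

lemma Us_succ {n : ℕ} (T : ℕ → Fin n → ℤ) (b : ℕ) :
    Us T (b + 1) = Us T b ⊔ Submodule.span ℝ {ze (T b)} := by
  unfold Us
  have : (Set.Iio (b + 1) : Set ℕ) = Set.Iio b ∪ {b} := by
    ext x; simp
  rw [this, Set.image_union, Submodule.span_union, Set.image_singleton]

lemma Us_congr {n : ℕ} {T T' : ℕ → Fin n → ℤ} {b : ℕ} (h : ∀ a < b, T a = T' a) :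
    Us T b = Us T' b := by
  unfold Us
  congr 1
  ext x
  constructor
  · rintro ⟨a, ha, rfl⟩
    exact ⟨a, ha, by simp only [h a ha]⟩
  · rintro ⟨a, ha, rfl⟩
    exact ⟨a, ha, by simp only [h a ha]⟩

lemma mem_Us_of_lt {n : ℕ} (T : ℕ → Fin n → ℤ) {a b : ℕ} (h : a < b) : ze (T a) ∈ Us T b :=
  Submodule.subset_span ⟨a, h, rfl⟩

lemma Us_mono {n : ℕ} (T : ℕ → Fin n → ℤ) {a b : ℕ} (h : a ≤ b) : Us T a ≤ Us T b :=
  Submodule.span_mono (Set.image_mono (Set.Iio_subset_Iio h))

lemma mem_Us_iff {n : ℕ} (T : ℕ → Fin n → ℤ) (j : ℕ) (v : E n) :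
    v ∈ Us T j ↔ ∃ x : ℕ → ℝ, v = ∑ a ∈ Finset.range j, x a • ze (T a) := by
  induction j generalizing v with
  | zero => simp [Us_zero]
  | succ j ih =>
    rw [Us_succ, Submodule.mem_sup]
    constructor
    · rintro ⟨y, hy, z, hz, rfl⟩
      obtain ⟨x, rfl⟩ := (ih y).1 hy
      obtain ⟨c, rfl⟩ := Submodule.mem_span_singleton.1 hz
      refine ⟨Function.update x j c, ?_⟩
      rw [Finset.sum_range_succ, Function.update_self]
      congr 1
      refine Finset.sum_congr rfl (fun a ha => ?_)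
      rw [Function.update_of_ne (Finset.mem_range.1 ha).ne]
    · rintro ⟨x, rfl⟩
      rw [Finset.sum_range_succ]
      exact ⟨_, (ih _).2 ⟨x, rfl⟩, _, Submodule.mem_span_singleton.2 ⟨x j, rfl⟩, rfl⟩

lemma ze_sum {n : ℕ} (s : Finset ℕ) (c : ℕ → ℤ) (u : ℕ → Fin n → ℤ) :
    (ze (∑ a ∈ s, c a • u a) : E n) = ∑ a ∈ s, (c a : ℝ) • ze (u a) := by
  classical
  induction s using Finset.induction_on with
  | empty => simp [ze_zero]
  | insert a s ha ih => rw [Finset.sum_insert ha, Finset.sum_insert ha, ze_add, ih, ze_smul]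

/-- one-dimensional shifted Gaussian sums -/
lemma one_dim_shift {α : ℝ} (hα : 0 < α) (c : ℝ) :
    Summable (fun k : ℤ => Real.exp (-Real.pi * α * ((k : ℝ) + c) ^ 2)) ∧
    ∑' k : ℤ, Real.exp (-Real.pi * α * ((k : ℝ) + c) ^ 2) ≤ Th (α / 4) := by
  set k0 : ℤ := round c with hk0
  have hδ : |c - k0| ≤ 1 / 2 := abs_sub_round c
  have hle : ∀ k : ℤ, Real.exp (-Real.pi * α * (((k - k0 : ℤ) : ℝ) + c) ^ 2) ≤
      Real.exp (-Real.pi * (α / 4) * (k : ℝ) ^ 2) := by
    intro k
    rw [Real.exp_le_exp]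
    have h1 : (k : ℝ) ^ 2 / 4 ≤ (((k - k0 : ℤ) : ℝ) + c) ^ 2 := by
      push_cast
      have h2 : (k : ℝ) - k0 + c = k + (c - k0) := by ring
      rw [h2]
      rcases eq_or_ne k 0 with rfl | hk
      · simp; positivity
      · have h3 : (1 : ℝ) ≤ |(k : ℝ)| := by
          have := Int.one_le_abs hk
          exact_mod_cast this
        have h4 : |(k : ℝ)| / 2 ≤ |(k : ℝ) + (c - k0)| := by
          have h5 : |(k : ℝ)| ≤ |(k : ℝ) + (c - k0)| + |c - k0| := by
            have : (k : ℝ) = (k + (c - k0)) - (c - k0) := by ring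
            calc |(k : ℝ)| = |(k + (c - k0)) - (c - k0)| := by rw [← this]
              _ ≤ _ := abs_sub _ _
          linarith
        have h6 := pow_le_pow_left₀ (by positivity) h4 2
        rw [sq_abs, div_pow, sq_abs] at h6
        linarith
    have hpi : 0 < Real.pi * α := mul_pos Real.pi_pos hα
    nlinarith [mul_le_mul_of_nonneg_left h1 hpi.le]
  have hS := summable_Th (show 0 < α / 4 by positivity)
  have hS2 : Summable (fun k : ℤ => Real.exp (-Real.pi * α * (((k - k0 : ℤ) : ℝ) + c) ^ 2)) :=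
    Summable.of_nonneg_of_le (fun k => (Real.exp_pos _).le) hle hS
  have e := (Equiv.subRight k0)
  have h7 : (fun k : ℤ => Real.exp (-Real.pi * α * (((k - k0 : ℤ) : ℝ) + c) ^ 2)) =
    (fun k : ℤ => Real.exp (-Real.pi * α * ((k : ℝ) + c) ^ 2)) ∘ (Equiv.subRight k0) := rfl
  constructor
  · rw [h7] at hS2
    exact (Equiv.summable_iff _).1 hS2
  · have h8 : ∑' k : ℤ, Real.exp (-Real.pi * α * ((k : ℝ) + c) ^ 2) =
      ∑' k : ℤ, Real.exp (-Real.pi * α * (((k - k0 : ℤ) : ℝ) + c) ^ 2) :=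
      ((Equiv.subRight k0).tsum_eq _).symm
    rw [h8]
    exact hS2.tsum_le_tsum hle hS

lemma one_dim_bound {σ h : ℝ} (hσ : 0 < σ) (hh : 0 < h) (a : ℝ) (F : Finset ℤ) :
    ∑ k ∈ F, Real.exp (-Real.pi * (a + k * h) ^ 2 / σ ^ 2) ≤ 4 * max 1 (σ / h) := by
  have hα : 0 < h ^ 2 / σ ^ 2 := by positivity
  obtain ⟨hS, hle⟩ := one_dim_shift hα (a / h)
  have h1 : ∀ k : ℤ, Real.exp (-Real.pi * (a + k * h) ^ 2 / σ ^ 2) =
      Real.exp (-Real.pi * (h ^ 2 / σ ^ 2) * ((k : ℝ) + a / h) ^ 2) := by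
    intro k
    congr 1
    field_simp
    ring
  simp_rw [h1]
  refine (hS.sum_le_tsum F (fun k _ => (Real.exp_pos _).le)).trans (hle.trans ?_)
  by_cases h4 : 1 ≤ h ^ 2 / σ ^ 2 / 4
  · refine (Th_le_two h4).trans ?_
    have := le_max_left 1 (σ / h)
    linarith
  · push Not at h4
    refine (Th_le_small (by positivity) h4.le).trans ?_
    have h5 : h ^ 2 / σ ^ 2 / 4 = (h / σ / 2) ^ 2 := by ring
    rw [h5, Real.sqrt_sq (by positivity)]
    have h6 : 2 * (h / σ / 2)⁻¹ = 4 * (σ / h) := by field_simp; ring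
    rw [h6]
    have := le_max_right 1 (σ / h)
    linarith

/-- **Gaussian sums over lattices given by a flag**. -/
lemma lattice_gauss {n : ℕ} (u : ℕ → Fin n → ℤ) {σ : ℝ} (hσ : 0 < σ) (j : ℕ)
    (hpos : ∀ b < j, 0 < ht u b) (y : E n) (S : Finset (E n))
    (hS : ∀ z ∈ S, ∃ c : ℕ → ℤ, z = y + ∑ b ∈ Finset.range j, (c b : ℝ) • ze (u b)) :
    ∑ z ∈ S, Real.exp (-Real.pi * ‖z‖ ^ 2 / σ ^ 2) ≤
      ∏ b ∈ Finset.range j, (4 * max 1 (σ / ht u b)) := by
  classical
  induction j generalizing y S with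
  | zero =>
    simp only [Finset.range_zero, Finset.sum_empty, Finset.prod_empty, add_zero] at hS ⊢
    have h1 : S ⊆ {y} := by
      intro z hz
      obtain ⟨c, hc⟩ := hS z hz
      rw [Finset.mem_singleton]; exact hc
    calc ∑ z ∈ S, Real.exp (-Real.pi * ‖z‖ ^ 2 / σ ^ 2)
        ≤ ∑ z ∈ ({y} : Finset (E n)), Real.exp (-Real.pi * ‖z‖ ^ 2 / σ ^ 2) :=
          Finset.sum_le_sum_of_subset_of_nonneg h1 (fun _ _ _ => (Real.exp_pos _).le)
      _ = Real.exp (-Real.pi * ‖y‖ ^ 2 / σ ^ 2) := Finset.sum_singleton _ _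
      _ ≤ 1 := by
          rw [Real.exp_le_one_iff]
          have : 0 ≤ Real.pi * ‖y‖ ^ 2 / σ ^ 2 := by positivity
          have h2 : -Real.pi * ‖y‖ ^ 2 / σ ^ 2 = -(Real.pi * ‖y‖ ^ 2 / σ ^ 2) := by ring
          linarith
  | succ j ih =>
    have ih' := ih (fun b hb => hpos b (by omega))
    have hj := hpos j (by omega)
    set h := ht u j with hh
    set U := Us u j with hU
    set w : E n := h⁻¹ • (ze (u j) - U.starProjection (ze (u j))) with hw
    have hnw : ‖w‖ = 1 := by
      rw [hw, norm_smul, norm_inv, Real.norm_of_nonneg hj.le]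
      exact inv_mul_cancel₀ hj.ne'
    have hwU : ∀ x ∈ U, inner ℝ x w = 0 := by
      intro x hx
      rw [hw, inner_smul_right, ← Submodule.starProjection_eq_self_iff.2 hx, inner_proj_sub,
        mul_zero]
    have hwu : inner ℝ (ze (u j)) w = h := by
      rw [hw, inner_smul_right]
      have h1 : inner ℝ (ze (u j)) (ze (u j) - U.starProjection (ze (u j))) =
        inner ℝ (ze (u j) - U.starProjection (ze (u j)))
          (ze (u j) - U.starProjection (ze (u j))) := by
        rw [inner_sub_left (ze (u j)), inner_proj_sub, sub_zero]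
      rw [h1, real_inner_self_eq_norm_sq]
      have h2 : ‖ze (u j) - U.starProjection (ze (u j))‖ = h := rfl
      rw [h2]
      field_simp
    -- the coefficient of the last vector
    have hS' : ∀ z, ∃ c : ℕ → ℤ, z ∈ S →
        z = y + ∑ b ∈ Finset.range (j + 1), (c b : ℝ) • ze (u b) := by
      intro z
      by_cases hz : z ∈ S
      · obtain ⟨c, hc⟩ := hS z hz
        exact ⟨c, fun _ => hc⟩
      · exact ⟨0, fun h => absurd h hz⟩
    choose c hc using hS'
    set F := S.image (fun z => c z j) with hF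
    rw [← Finset.sum_fiberwise_of_maps_to (s := S) (t := F) (g := fun z => c z j)
      (fun z hz => Finset.mem_image_of_mem _ hz), Finset.prod_range_succ, mul_comm]
    have key : ∀ k ∈ F, ∑ z ∈ S with c z j = k, Real.exp (-Real.pi * ‖z‖ ^ 2 / σ ^ 2) ≤
        Real.exp (-Real.pi * (inner ℝ y w + k * h) ^ 2 / σ ^ 2) *
          ∏ b ∈ Finset.range j, (4 * max 1 (σ / ht u b)) := by
      intro k _
      set tt : ℝ := inner ℝ y w + k * h with htt
      have hin : ∀ z ∈ S.filter (fun z => c z j = k), inner ℝ z w = tt := by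
        intro z hz
        rw [Finset.mem_filter] at hz
        have h1 := hc z hz.1
        rw [Finset.sum_range_succ, hz.2] at h1
        conv_lhs => rw [h1]
        rw [inner_add_left, inner_add_left, inner_smul_left, hwu]
        rw [hwU _ (Submodule.sum_mem _ (fun b hb => U.smul_mem _
          (mem_Us_of_lt u (Finset.mem_range.1 hb))))]
        rw [htt]; simp
      have h2 : ∀ z ∈ S.filter (fun z => c z j = k),
          Real.exp (-Real.pi * ‖z‖ ^ 2 / σ ^ 2) =
          Real.exp (-Real.pi * tt ^ 2 / σ ^ 2) *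
            Real.exp (-Real.pi * ‖z - tt • w‖ ^ 2 / σ ^ 2) := by
        intro z hz
        rw [← Real.exp_add]
        congr 1
        have h3 : ‖z - tt • w‖ ^ 2 = ‖z‖ ^ 2 - tt ^ 2 := by
          rw [norm_sub_sq_real, inner_smul_right, hin z hz, norm_smul, hnw, mul_one,
            Real.norm_eq_abs, sq_abs]
          ring
        rw [h3]; ring
      rw [Finset.sum_congr rfl h2, ← Finset.mul_sum]
      refine mul_le_mul_of_nonneg_left ?_ (Real.exp_pos _).le
      have hinj : Set.InjOn (fun z : E n => z - tt • w) (S.filter (fun z => c z j = k)) := by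
        intro z _ z' _ hzz'
        exact sub_left_injective hzz'
      have h4 := ih' (y + (k : ℝ) • ze (u j) - tt • w)
        ((S.filter (fun z => c z j = k)).image (fun z => z - tt • w)) (by
          intro z' hz'
          obtain ⟨z, hz, rfl⟩ := Finset.mem_image.1 hz'
          rw [Finset.mem_filter] at hz
          refine ⟨c z, ?_⟩
          have h1 := hc z hz.1
          rw [Finset.sum_range_succ, hz.2] at h1
          conv_lhs => rw [h1]
          abel)
      rw [Finset.sum_image hinj] at h4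
      exact h4
    refine (Finset.sum_le_sum key).trans ?_
    rw [← Finset.sum_mul]
    refine mul_le_mul_of_nonneg_right ?_ (Finset.prod_nonneg (fun b _ => by positivity))
    exact one_dim_bound hσ hj _ F

end Pool.Agent.Helper30.Cov
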