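import Mathlib
import Pool.Agent.Helper30.CovLattice
open MeasureTheory Filter Topology Set TopologicalSpace
open scoped FourierTransform RealInnerProductSpace

namespace Pool.Agent.Helper30.Cov

/-- reduce a vector modulo the first `j` vectors -/
lemma reduce {n : ℕ} (T : ℕ → Fin n → ℤ) (j : ℕ) (z : Fin n → ℤ) :
    ∃ m : ℕ → ℤ, ‖(ze (z - ∑ a ∈ Finset.range j, m a • T a) : E n)‖ ≤
      ‖ze z - (Us T j).starProjection (ze z)‖ + ∑ a ∈ Finset.range j, ‖(ze (T a) : E n)‖ := by
  obtain ⟨x, hx⟩ := (mem_Us_iff T j _).1 (Submodule.starProjection_apply_mem (Us T j) (ze z))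
  refine ⟨fun a => ⌊x a⌋, ?_⟩
  rw [ze_sub, ze_sum]
  have h1 : (ze z : E n) - ∑ a ∈ Finset.range j, ((⌊x a⌋ : ℤ) : ℝ) • (ze (T a) : E n) =
      (ze z - (Us T j).starProjection (ze z)) +
        ∑ a ∈ Finset.range j, (x a - ⌊x a⌋) • (ze (T a) : E n) := by
    simp_rw [sub_smul]
    rw [Finset.sum_sub_distrib, ← hx]
    abel
  rw [h1]
  refine (norm_add_le _ _).trans (add_le_add le_rfl ?_)
  refine (norm_sum_le _ _).trans (Finset.sum_le_sum (fun a _ => ?_))
  rw [norm_smul, Real.norm_eq_abs, abs_of_nonneg (by linarith [Int.floor_le (x a)])]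
  have h2 := Int.lt_floor_add_one (x a)
  exact mul_le_of_le_one_left (norm_nonneg _) (by linarith)

/-- integer points in a ball form a finite set -/
lemma finite_ball {n : ℕ} (R : ℝ) : {z : Fin n → ℤ | ‖(ze z : E n)‖ ≤ R}.Finite := by
  have h : {z : Fin n → ℤ | ‖(ze z : E n)‖ ≤ R} ⊆
      Set.pi Set.univ (fun _ => Set.Icc (-⌈R⌉) ⌈R⌉) := by
    intro z hz i _
    have h1 : |(z i : ℝ)| ≤ ‖(ze z : E n)‖ := by
      have := PiLp.norm_apply_le (ze z : E n) i
      simpa [ze, zr] using this
    have h2 : |(z i : ℝ)| ≤ R := h1.trans hz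
    have h3 : |(z i : ℝ)| ≤ (⌈R⌉ : ℤ) := h2.trans (Int.le_ceil R)
    have h4 : |z i| ≤ ⌈R⌉ := by exact_mod_cast h3
    exact abs_le.1 h4
  exact Set.Finite.subset (Set.Finite.pi' (fun _ => Set.finite_Icc _ _)) (by
    intro z hz i
    exact h hz i (Set.mem_univ i))

/-- the linear functional measuring height over the first `j` vectors -/
noncomputable def vj {n : ℕ} (T : ℕ → Fin n → ℤ) (j : ℕ) (v : E n) : ℝ :=
  inner ℝ v (ze (T j) - (Us T j).starProjection (ze (T j)))

lemma vj_add {n : ℕ} (T : ℕ → Fin n → ℤ) (j : ℕ) (v w : E n) :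
    vj T j (v + w) = vj T j v + vj T j w := inner_add_left _ _ _

lemma vj_sub {n : ℕ} (T : ℕ → Fin n → ℤ) (j : ℕ) (v w : E n) :
    vj T j (v - w) = vj T j v - vj T j w := inner_sub_left _ _ _

lemma vj_smul {n : ℕ} (T : ℕ → Fin n → ℤ) (j : ℕ) (c : ℝ) (v : E n) :
    vj T j (c • v) = c * vj T j v := by
  unfold vj; rw [inner_smul_left]; simp

lemma vj_mem {n : ℕ} (T : ℕ → Fin n → ℤ) (j : ℕ) {v : E n} (hv : v ∈ Us T j) :
    vj T j v = 0 := by
  unfold vj
  rw [← Submodule.starProjection_eq_self_iff.2 hv, inner_proj_sub]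

lemma vj_self {n : ℕ} (T : ℕ → Fin n → ℤ) (j : ℕ) : vj T j (ze (T j)) = ht T j ^ 2 := by
  unfold vj ht
  rw [inner_sub_right, inner_split (Us T j) (ze (T j)) (ze (T j)),
    inner_split (Us T j) (ze (T j)) ((Us T j).starProjection (ze (T j)))]
  rw [sproj_idem, sub_self, inner_zero_right, ← real_inner_self_eq_norm_sq]
  ring

lemma ht_pos_iff {n : ℕ} (T : ℕ → Fin n → ℤ) (j : ℕ) : 0 < ht T j ↔ ze (T j) ∉ Us T j := by
  unfold ht
  rw [norm_pos_iff, sub_ne_zero]
  constructor
  · intro h h'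
    exact h (Submodule.starProjection_eq_self_iff.2 h').symm
  · intro h h'
    exact h (Submodule.starProjection_eq_self_iff.1 h'.symm)

lemma ht_nonneg {n : ℕ} (T : ℕ → Fin n → ℤ) (j : ℕ) : 0 ≤ ht T j := norm_nonneg _

/-- decomposition of a vector of `Us T (j+1)` -/
lemma decomp {n : ℕ} (T : ℕ → Fin n → ℤ) (j : ℕ) (hj : 0 < ht T j) {v : E n}
    (hv : v ∈ Us T (j + 1)) :
    ∃ x ∈ Us T j, v = x + (vj T j v / ht T j ^ 2) • ze (T j) := by
  rw [Us_succ, Submodule.mem_sup] at hv
  obtain ⟨x, hx, y, hy, rfl⟩ := hv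
  obtain ⟨c, rfl⟩ := Submodule.mem_span_singleton.1 hy
  refine ⟨x, hx, ?_⟩
  rw [vj_add, vj_mem T j hx, vj_smul, vj_self, zero_add, mul_div_assoc, div_self (by positivity),
    mul_one]

lemma sub_proj_of_decomp {n : ℕ} (T : ℕ → Fin n → ℤ) (j : ℕ) (hj : 0 < ht T j) {v : E n}
    (hv : v ∈ Us T (j + 1)) :
    ‖v - (Us T j).starProjection v‖ = |vj T j v| / ht T j := by
  obtain ⟨x, hx, h⟩ := decomp T j hj hv
  set c := vj T j v / ht T j ^ 2 with hc
  have h1 : v - (Us T j).starProjection v =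
      c • (ze (T j) - (Us T j).starProjection (ze (T j))) := by
    rw [h, map_add, map_smul, Submodule.starProjection_eq_self_iff.2 hx, smul_sub]
    abel
  rw [h1, norm_smul]
  have h2 : ‖ze (T j) - (Us T j).starProjection (ze (T j))‖ = ht T j := rfl
  rw [h2, hc, norm_div, Real.norm_eq_abs, norm_pow, Real.norm_of_nonneg hj.le]
  field_simp

/-- data of a flag basis -/
structure IsHNF {n : ℕ} (Λ : AddSubgroup (Fin n → ℤ)) (T u : ℕ → Fin n → ℤ) (g : ℕ → ℕ)
    (A : ℕ → ℕ → ℕ) (j : ℕ) : Prop where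
  mem : ∀ b < j, u b ∈ Λ
  gpos : ∀ b < j, 0 < g b
  Alt : ∀ b < j, ∀ a < b, A b a < g b
  eq : ∀ b < j, T b = (g b : ℤ) • u b + ∑ a ∈ Finset.range b, (A b a : ℤ) • u a
  span : ∀ b ≤ j, Us u b = Us T b
  rep : ∀ z ∈ Λ, ze z ∈ Us T j → ∃ c : ℕ → ℤ, z = ∑ b ∈ Finset.range j, c b • u b

lemma ze_sum_mem {n : ℕ} (u : ℕ → Fin n → ℤ) (j : ℕ) (c : ℕ → ℤ) :
    (ze (∑ b ∈ Finset.range j, c b • u b) : E n) ∈ Us u j := by
  rw [ze_sum]
  exact Submodule.sum_mem _ (fun b hb => Submodule.smul_mem _ _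
    (mem_Us_of_lt u (Finset.mem_range.1 hb)))

theorem exists_hnf {n : ℕ} (Λ : AddSubgroup (Fin n → ℤ)) (T : ℕ → Fin n → ℤ) (j : ℕ)
    (hT : ∀ b < j, T b ∈ Λ) (hpos : ∀ b < j, 0 < ht T b) :
    ∃ u g A, IsHNF Λ T u g A j := by
  classical
  induction j with
  | zero =>
    refine ⟨fun _ => 0, fun _ => 0, fun _ _ => 0, ⟨by simp, by simp, by simp, by simp, ?_, ?_⟩⟩
    · intro b hb
      have : b = 0 := by omega
      rw [this, Us_zero, Us_zero]
    · intro z _ hz
      rw [Us_zero, Submodule.mem_bot] at hz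
      refine ⟨0, ?_⟩
      rw [Finset.range_zero, Finset.sum_empty]
      exact ze_inj (hz.trans ze_zero.symm)
  | succ j ih =>
    obtain ⟨u, g, A, hH⟩ := ih (fun b hb => hT b (by omega)) (fun b hb => hpos b (by omega))
    have hj := hpos j (by omega)
    have hTj := hT j (by omega)
    set R : ℝ := ht T j + ∑ a ∈ Finset.range j, ‖(ze (T a) : E n)‖ with hR
    set S : Set (Fin n → ℤ) := {z | z ∈ Λ ∧ ze z ∈ Us T (j + 1) ∧ 0 < vj T j (ze z) ∧
      vj T j (ze z) ≤ ht T j ^ 2 ∧ ‖(ze z : E n)‖ ≤ R} with hS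
    have hSfin : S.Finite := (finite_ball R).subset (fun z hz => hz.2.2.2.2)
    -- reduction keeps membership
    have hred : ∀ z ∈ Λ, ze z ∈ Us T (j + 1) → 0 < vj T j (ze z) →
        vj T j (ze z) ≤ ht T j ^ 2 → ∃ z' ∈ S, vj T j (ze z') = vj T j (ze z) := by
      intro z hz hzU hz0 hz1
      obtain ⟨m, hm⟩ := reduce T j z
      have hmem : (ze (∑ a ∈ Finset.range j, m a • T a) : E n) ∈ Us T j := ze_sum_mem T j m
      have hv : vj T j (ze (z - ∑ a ∈ Finset.range j, m a • T a)) = vj T j (ze z) := by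
        rw [ze_sub, vj_sub, vj_mem T j hmem, sub_zero]
      refine ⟨z - ∑ a ∈ Finset.range j, m a • T a, ⟨?_, ?_, ?_, ?_, ?_⟩, hv⟩
      · exact Λ.sub_mem hz (Λ.sum_mem (fun a ha => Λ.zsmul_mem
          (hT a (by have := Finset.mem_range.1 ha; omega)) _))
      · rw [ze_sub]
        exact Submodule.sub_mem _ hzU (Us_mono T (by omega) hmem)
      · rw [hv]; exact hz0
      · rw [hv]; exact hz1
      · refine hm.trans ?_
        rw [hR, sub_proj_of_decomp T j hj hzU, abs_of_pos hz0]
        refine add_le_add ?_ le_rfl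
        rw [div_le_iff₀ hj]
        nlinarith
    have hTjU : (ze (T j) : E n) ∈ Us T (j + 1) := mem_Us_of_lt T (by omega)
    have hvT : vj T j (ze (T j)) = ht T j ^ 2 := vj_self T j
    obtain ⟨z0, hz0, _⟩ := hred (T j) hTj hTjU (by rw [hvT]; positivity) (by rw [hvT])
    obtain ⟨zs, hzs, hmin⟩ := Set.exists_min_image S (fun z => vj T j (ze z)) hSfin ⟨z0, hz0⟩
    set μ := vj T j (ze zs) with hμ
    have hμ0 : 0 < μ := hzs.2.2.1
    have hminall : ∀ z ∈ Λ, ze z ∈ Us T (j + 1) → 0 < vj T j (ze z) → μ ≤ vj T j (ze z) := by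
      intro z hz hzU hz0
      by_cases h1 : vj T j (ze z) ≤ ht T j ^ 2
      · obtain ⟨z', hz', he⟩ := hred z hz hzU hz0 h1
        rw [← he]
        exact hmin z' hz'
      · push Not at h1
        exact hzs.2.2.2.1.trans h1.le
    have hrep : ∀ u' ∈ Λ, ze u' ∈ Us T (j + 1) → vj T j (ze u') = μ →
        ∀ z ∈ Λ, ze z ∈ Us T (j + 1) → ∃ k : ℤ, ∃ c : ℕ → ℤ,
          z = k • u' + ∑ b ∈ Finset.range j, c b • u b := by
      intro u' hu' hu'U hu'v z hz hzU
      set k : ℤ := ⌊vj T j (ze z) / μ⌋ with hk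
      have h1 : (k : ℝ) * μ ≤ vj T j (ze z) := by
        rw [← le_div_iff₀ hμ0]; exact Int.floor_le _
      have h2 : vj T j (ze z) < (k + 1 : ℝ) * μ := by
        rw [← div_lt_iff₀ hμ0]; exact Int.lt_floor_add_one _
      have hv : vj T j (ze (z - k • u')) = vj T j (ze z) - k * μ := by
        rw [ze_sub, vj_sub, ze_smul, vj_smul, hu'v]
      have hzL : z - k • u' ∈ Λ := Λ.sub_mem hz (Λ.zsmul_mem hu' _)
      have hzUU : ze (z - k • u') ∈ Us T (j + 1) := by
        rw [ze_sub, ze_smul]
        exact Submodule.sub_mem _ hzU (Submodule.smul_mem _ _ hu'U)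
      have h3 : vj T j (ze (z - k • u')) = 0 := by
        by_contra hne
        have h4 : 0 < vj T j (ze (z - k • u')) := by
          rcases lt_or_eq_of_le (show 0 ≤ vj T j (ze (z - k • u')) by rw [hv]; linarith) with h | h
          · exact h
          · exact absurd h.symm hne
        have h5 := hminall _ hzL hzUU h4
        rw [hv] at h5
        linarith
      obtain ⟨x, hx, hxe⟩ := decomp T j hj hzUU
      rw [h3, zero_div, zero_smul, add_zero] at hxe
      obtain ⟨c, hc⟩ := hH.rep _ hzL (by rw [hxe]; exact hx)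
      refine ⟨k, c, ?_⟩
      rw [← hc]; abel
    obtain ⟨k, c, hkc⟩ := hrep zs hzs.1 hzs.2.1 rfl (T j) hTj hTjU
    have hsumU : ∀ c : ℕ → ℤ, (ze (∑ b ∈ Finset.range j, c b • u b) : E n) ∈ Us T j := by
      intro c
      rw [← hH.span j le_rfl]
      exact ze_sum_mem u j c
    have hkpos : 0 < k := by
      have h1 : ht T j ^ 2 = k * μ := by
        rw [← hvT]
        conv_lhs => rw [hkc]
        rw [ze_add, vj_add, vj_mem T j (hsumU c), ze_smul, vj_smul, add_zero]
      have h2 : (0 : ℝ) < k := by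
        by_contra hneg
        push Not at hneg
        have : ht T j ^ 2 ≤ 0 := by rw [h1]; nlinarith
        have h3 : 0 < ht T j ^ 2 := by positivity
        linarith
      exact_mod_cast h2
    set u' : Fin n → ℤ := zs + ∑ b ∈ Finset.range j, (c b / k) • u b with hu'
    have hu'L : u' ∈ Λ := Λ.add_mem hzs.1 (Λ.sum_mem (fun b hb => Λ.zsmul_mem
      (hH.mem b (Finset.mem_range.1 hb)) _))
    have hu'U : ze u' ∈ Us T (j + 1) := by
      rw [hu', ze_add]
      exact Submodule.add_mem _ hzs.2.1 (Us_mono T (by omega) (hsumU _))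
    have hu'v : vj T j (ze u') = μ := by
      rw [hu', ze_add, vj_add, vj_mem T j (hsumU _), add_zero]
    have hTu' : T j = k • u' + ∑ b ∈ Finset.range j, (c b % k) • u b := by
      rw [hkc, hu', smul_add, Finset.smul_sum, add_assoc, ← Finset.sum_add_distrib]
      congr 1
      refine Finset.sum_congr rfl (fun b _ => ?_)
      rw [smul_smul, ← add_smul, Int.mul_ediv_add_emod]
    clear_value u'
    -- new data
    have hup : ∀ b < j, Function.update u j u' b = u b := fun b hb =>
      Function.update_of_ne hb.ne _ _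
    have hUs : ∀ b ≤ j, Us (Function.update u j u') b = Us T b := by
      intro b hb
      rw [← hH.span b hb]
      exact Us_congr (fun a ha => hup a (by omega))
    refine ⟨Function.update u j u', Function.update g j k.toNat,
      Function.update A j (fun b => (c b % k).toNat), ⟨?_, ?_, ?_, ?_, ?_, ?_⟩⟩
    · intro b hb
      rcases Nat.lt_succ_iff_lt_or_eq.1 hb with hb | rfl
      · rw [hup b hb]; exact hH.mem b hb
      · rw [Function.update_self]; exact hu'L
    · intro b hb
      rcases Nat.lt_succ_iff_lt_or_eq.1 hb with hb | rfl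
      · rw [Function.update_of_ne hb.ne]; exact hH.gpos b hb
      · rw [Function.update_self]; omega
    · intro b hb a ha
      rcases Nat.lt_succ_iff_lt_or_eq.1 hb with hb | rfl
      · rw [Function.update_of_ne hb.ne, Function.update_of_ne hb.ne]; exact hH.Alt b hb a ha
      · rw [Function.update_self, Function.update_self]
        have h1 := Int.emod_lt_of_pos (c a) hkpos
        have h2 := Int.emod_nonneg (c a) hkpos.ne'
        omega
    · intro b hb
      rcases Nat.lt_succ_iff_lt_or_eq.1 hb with hb | rfl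
      · have e1 : Function.update g j k.toNat b = g b := Function.update_of_ne hb.ne _ _
        have e2 : Function.update A j (fun b => (c b % k).toNat) b = A b :=
          Function.update_of_ne hb.ne _ _
        rw [e1, e2, hup b hb]
        conv_lhs => rw [hH.eq b hb]
        congr 1
        refine Finset.sum_congr rfl (fun a ha => ?_)
        rw [hup a (by have := Finset.mem_range.1 ha; omega)]
      · rw [Function.update_self, Function.update_self, Function.update_self]
        conv_lhs => rw [hTu']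
        congr 1
        · rw [Int.toNat_of_nonneg hkpos.le]
        · refine Finset.sum_congr rfl (fun a ha => ?_)
          rw [hup a (Finset.mem_range.1 ha), Int.toNat_of_nonneg (Int.emod_nonneg (c a) hkpos.ne')]
    · intro b hb
      rcases Nat.lt_or_ge b (j + 1) with hb' | hb'
      · exact hUs b (by omega)
      · have : b = j + 1 := by omega
        subst this
        rw [Us_succ, hUs j le_rfl, Function.update_self]
        apply le_antisymm
        · refine sup_le (Us_mono T (by omega)) ?_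
          rw [Submodule.span_singleton_le_iff_mem]
          exact hu'U
        · rw [Us_succ]
          refine sup_le le_sup_left ?_
          rw [Submodule.span_singleton_le_iff_mem]
          rw [hTu', ze_add, ze_smul]
          refine Submodule.add_mem _ (Submodule.smul_mem _ _ ?_) ?_
          · exact Submodule.mem_sup_right (Submodule.mem_span_singleton_self _)
          · exact Submodule.mem_sup_left (hsumU _)
    · intro z hz hzU
      obtain ⟨k', c', h⟩ := hrep u' hu'L hu'U hu'v z hz hzU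
      refine ⟨Function.update c' j k', ?_⟩
      rw [Finset.sum_range_succ, Function.update_self, Function.update_self, h, add_comm]
      congr 1
      refine Finset.sum_congr rfl (fun a ha => ?_)
      have := Finset.mem_range.1 ha
      rw [hup a this, Function.update_of_ne this.ne]

lemma proj_congr {n : ℕ} {U V : Submodule ℝ (E n)} (h : U = V) (v : E n) :
    U.starProjection v = V.starProjection v := by
  subst h; rfl

/-- heights of `T` and of the flag basis -/
lemma IsHNF.ht_eq {n : ℕ} {Λ : AddSubgroup (Fin n → ℤ)} {T u : ℕ → Fin n → ℤ} {g : ℕ → ℕ}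
    {A : ℕ → ℕ → ℕ} {j : ℕ} (h : IsHNF Λ T u g A j) {b : ℕ} (hb : b < j) :
    ht T b = g b * ht u b := by
  unfold ht
  rw [proj_congr (h.span b hb.le).symm]
  have h1 : (ze (∑ a ∈ Finset.range b, (A b a : ℤ) • u a) : E n) ∈ Us u b :=
    ze_sum_mem u b (fun a => (A b a : ℤ))
  have h2 : (ze (T b) : E n) = (g b : ℝ) • ze (u b) +
      ze (∑ a ∈ Finset.range b, (A b a : ℤ) • u a) := by
    rw [h.eq b hb, ze_add, ze_smul]; simp
  rw [h2, map_add, map_smul, Submodule.starProjection_eq_self_iff.2 h1]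
  have h3 : (g b : ℝ) • (ze (u b) : E n) + ze (∑ a ∈ Finset.range b, (A b a : ℤ) • u a) -
      ((g b : ℝ) • (Us u b).starProjection (ze (u b)) +
        ze (∑ a ∈ Finset.range b, (A b a : ℤ) • u a)) =
      (g b : ℝ) • ((ze (u b) : E n) - (Us u b).starProjection (ze (u b))) := by
    rw [smul_sub]; abel
  rw [h3, norm_smul]
  simp

end Pool.Agent.Helper30.Cov
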