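import Mathlib
import Pool.Agent.Helper30.CovHNF
open MeasureTheory Filter Topology Set TopologicalSpace
open scoped FourierTransform RealInnerProductSpace

namespace Pool.Agent.Helper30.Cov

lemma IsHNF.htu_pos {n : ℕ} {Λ : AddSubgroup (Fin n → ℤ)} {T u : ℕ → Fin n → ℤ} {g : ℕ → ℕ}
    {A : ℕ → ℕ → ℕ} {j : ℕ} (h : IsHNF Λ T u g A j) (hpos : ∀ b < j, 0 < ht T b) :
    ∀ b < j, 0 < ht u b := by
  intro b hb
  have h1 := hpos b hb
  rw [h.ht_eq hb] at h1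
  rcases (ht_nonneg u b).lt_or_eq with h2 | h2
  · exact h2
  · rw [← h2, mul_zero] at h1
    exact absurd h1 (lt_irrefl _)

/-- counting lattice points in a ball through Gaussian sums -/
lemma IsHNF.count {n : ℕ} {Λ : AddSubgroup (Fin n → ℤ)} {T u : ℕ → Fin n → ℤ} {g : ℕ → ℕ}
    {A : ℕ → ℕ → ℕ} {j : ℕ} (h : IsHNF Λ T u g A j) (hpos : ∀ b < j, 0 < ht T b)
    {σ B : ℝ} (hσ : 0 < σ) (S : Finset (Fin n → ℤ))
    (hS : ∀ z ∈ S, z ∈ Λ ∧ ze z ∈ Us T j ∧ ‖(ze z : E n)‖ ≤ B * σ) :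
    (S.card : ℝ) ≤ Real.exp (Real.pi * B ^ 2) *
      ∏ b ∈ Finset.range j, (4 * max 1 (σ / ht u b)) := by
  classical
  have hu := h.htu_pos hpos
  have h1 := lattice_gauss u hσ j hu 0 (S.image ze) (by
    intro z hz
    obtain ⟨w, hw, rfl⟩ := Finset.mem_image.1 hz
    obtain ⟨hw1, hw2, _⟩ := hS w hw
    obtain ⟨c, hc⟩ := h.rep w hw1 hw2
    refine ⟨c, ?_⟩
    rw [zero_add, ← ze_sum, ← hc])
  rw [Finset.sum_image (fun a _ b _ hab => ze_inj hab)] at h1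
  have h2 : (S.card : ℝ) * Real.exp (-(Real.pi * B ^ 2)) ≤
      ∑ z ∈ S, Real.exp (-Real.pi * ‖(ze z : E n)‖ ^ 2 / σ ^ 2) := by
    rw [← nsmul_eq_mul]
    refine Finset.card_nsmul_le_sum _ _ _ (fun z hz => ?_)
    rw [Real.exp_le_exp]
    have h3 := pow_le_pow_left₀ (norm_nonneg _) (hS z hz).2.2 2
    have h4 : ‖(ze z : E n)‖ ^ 2 / σ ^ 2 ≤ B ^ 2 := by
      rw [div_le_iff₀ (by positivity)]; rw [mul_pow] at h3; exact h3
    have hpi := Real.pi_pos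
    have h5 : -Real.pi * ‖(ze z : E n)‖ ^ 2 / σ ^ 2 =
      -(Real.pi * (‖(ze z : E n)‖ ^ 2 / σ ^ 2)) := by ring
    rw [h5]
    nlinarith
  have h3 := h2.trans h1
  rw [Real.exp_neg, ← div_eq_mul_inv, div_le_iff₀ (Real.exp_pos _)] at h3
  linarith

/-- the diagonal entries are bounded by a lattice point count -/
lemma IsHNF.g_le {n : ℕ} {Λ : AddSubgroup (Fin n → ℤ)} {T u : ℕ → Fin n → ℤ} {g : ℕ → ℕ}
    {A : ℕ → ℕ → ℕ} {j : ℕ} (h : IsHNF Λ T u g A j) (hT : ∀ b < j, T b ∈ Λ)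
    (hpos : ∀ b < j, 0 < ht T b)
    {b : ℕ} (hb : b < j) {R : ℝ} (hR : ∑ a ∈ Finset.range (b + 1), ‖(ze (T a) : E n)‖ ≤ R)
    {G : ℕ} (hG : ∀ S : Finset (Fin n → ℤ), (∀ z ∈ S, z ∈ Λ ∧ ‖(ze z : E n)‖ ≤ R) → S.card ≤ G) :
    g b ≤ G := by
  classical
  have hu := h.htu_pos hpos b hb
  have hex : ∀ m : ℕ, ∃ z : Fin n → ℤ, z ∈ Λ ∧
      ‖(ze z : E n)‖ ≤ m * ht u b + ∑ a ∈ Finset.range b, ‖(ze (T a) : E n)‖ ∧
      ‖ze z - (Us T b).starProjection (ze z)‖ = m * ht u b := by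
    intro m
    obtain ⟨c, hc⟩ := reduce T b ((m : ℤ) • u b)
    have h1 : ‖(ze ((m : ℤ) • u b) : E n) - (Us T b).starProjection (ze ((m : ℤ) • u b))‖ =
        m * ht u b := by
      rw [ze_smul, map_smul, ← smul_sub, norm_smul, proj_congr (h.span b hb.le).symm]
      simp [ht]
    refine ⟨_, ?_, (h1 ▸ hc), ?_⟩
    · exact Λ.sub_mem (Λ.zsmul_mem (h.mem b hb) _) (Λ.sum_mem (fun a ha => Λ.zsmul_mem
        (hT a (by have := Finset.mem_range.1 ha; omega)) _))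
    · rw [← h1]
      congr 1
      have hm := ze_sum_mem T b c
      rw [ze_sub, map_sub, Submodule.starProjection_eq_self_iff.2 hm]
      abel
  choose f hf1 hf2 hf3 using hex
  have hinj : Set.InjOn f (Finset.range (g b)) := by
    intro m _ m' _ hmm
    have h1 := hf3 m
    rw [hmm, hf3 m'] at h1
    have h2 := mul_right_cancel₀ hu.ne' h1
    exact_mod_cast h2.symm
  have h1 := hG ((Finset.range (g b)).image f) (by
    intro z hz
    obtain ⟨m, hm, rfl⟩ := Finset.mem_image.1 hz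
    refine ⟨hf1 m, (hf2 m).trans (le_trans ?_ hR)⟩
    rw [Finset.sum_range_succ, add_comm]
    refine add_le_add le_rfl ?_
    have h2 : (m : ℝ) ≤ g b := by exact_mod_cast (Finset.mem_range.1 hm).le
    have h3 : (m : ℝ) * ht u b ≤ ht T b := by
      rw [h.ht_eq hb]; exact mul_le_mul_of_nonneg_right h2 hu.le
    refine h3.trans ?_
    -- `ht T b ≤ ‖T b‖`
    have h4 := norm_split (Us T b) (ze (T b))
    unfold ht
    apply le_of_sq_le_sq _ (norm_nonneg _)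
    rw [h4]
    nlinarith [sq_nonneg ‖(Us T b).starProjection (ze (T b))‖])
  rw [Finset.card_image_of_injOn hinj, Finset.card_range] at h1
  exact h1

lemma ht_le_norm {n : ℕ} (T : ℕ → Fin n → ℤ) (b : ℕ) : ht T b ≤ ‖(ze (T b) : E n)‖ := by
  have h4 := norm_split (Us T b) (ze (T b))
  unfold ht
  apply le_of_sq_le_sq _ (norm_nonneg _)
  rw [h4]
  nlinarith [sq_nonneg ‖(Us T b).starProjection (ze (T b))‖]

end Pool.Agent.Helper30.Cov
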