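import Mathlib
import Pool.Agent.Helper30.CovCount
open MeasureTheory Filter Topology Set TopologicalSpace
open scoped FourierTransform RealInnerProductSpace

namespace Pool.Agent.Helper30.Cov

/-- the `j × n` integer matrix with rows `u 0, …, u (j-1)` -/
def rowsM {n : ℕ} (u : ℕ → Fin n → ℤ) (j : ℕ) : Matrix (Fin j) (Fin n) ℤ :=
  Matrix.of (fun a i => u a i)

/-- number of linear forms killing independent vectors -/
lemma card_forms {n j p : ℕ} [Fact p.Prime] (M : Matrix (Fin j) (Fin n) (ZMod p))
    (hM : ∀ c : Fin j → ZMod p, Matrix.vecMul c M = 0 → c = 0) (i0 : Fin n)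
    (S : Finset (Fin n → ZMod p)) (hS : ∀ a ∈ S, a i0 = 1 ∧ M.mulVec a = 0) :
    S.card * p ^ j ≤ 2 * p ^ (n - 1) := by
  classical
  have hp : p.Prime := Fact.out
  have hLI : LinearIndependent (ZMod p) M.row := by
    rw [← Matrix.vecMul_injective_iff]
    intro c c' hcc
    have h1 := hM (c - c') (by rw [Matrix.sub_vecMul]; exact sub_eq_zero.2 hcc)
    exact sub_eq_zero.1 h1
  have hrank : M.rank = j := by
    rw [hLI.rank_matrix, Fintype.card_fin]
  have hker : Module.finrank (ZMod p) (LinearMap.ker M.mulVecLin) + j = n := by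
    have h1 := LinearMap.finrank_range_add_finrank_ker M.mulVecLin
    have h2 : Module.finrank (ZMod p) (LinearMap.range M.mulVecLin) = j := hrank
    rw [h2, Module.finrank_fin_fun] at h1
    omega
  have hcard : Fintype.card (LinearMap.ker M.mulVecLin) = p ^ (n - j) := by
    rw [Module.card_eq_pow_finrank (K := ZMod p), ZMod.card]
    congr 1
    omega
  -- the injection
  have hinj : Fintype.card (ZMod p)ˣ * S.card ≤ Fintype.card (LinearMap.ker M.mulVecLin) := by
    rw [← Fintype.card_coe S, ← Fintype.card_prod]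
    refine Fintype.card_le_of_injective
      (fun x : (ZMod p)ˣ × S => (⟨(x.1 : ZMod p) • (x.2 : Fin n → ZMod p), by
        rw [LinearMap.mem_ker, map_smul]
        have := (hS x.2 x.2.2).2
        rw [Matrix.mulVecLin_apply, this, smul_zero]⟩ : LinearMap.ker M.mulVecLin)) ?_
    rintro ⟨l, a⟩ ⟨l', a'⟩ h
    have h1 : (l : ZMod p) • (a : Fin n → ZMod p) = (l' : ZMod p) • (a' : Fin n → ZMod p) :=
      congrArg Subtype.val h
    have h2 : (l : ZMod p) = l' := by
      have h3 := congrFun h1 i0
      simp only [Pi.smul_apply, smul_eq_mul, (hS a a.2).1, (hS a' a'.2).1, mul_one] at h3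
      exact h3
    have h4 : l = l' := Units.ext h2
    subst h4
    have h5 : (a : Fin n → ZMod p) = a' := by
      funext i
      have h6 := congrFun h1 i
      simp only [Pi.smul_apply, smul_eq_mul] at h6
      exact (Units.mul_right_inj l).1 h6
    rw [Prod.mk.injEq]
    exact ⟨rfl, Subtype.ext h5⟩
  rw [hcard, ZMod.card_units_eq_totient, Nat.totient_prime hp] at hinj
  have hjn : j ≤ n := by omega
  have hn : 0 < n := i0.pos
  have h1 : (p - 1) * S.card * p ^ j ≤ p ^ n := by
    calc (p - 1) * S.card * p ^ j ≤ p ^ (n - j) * p ^ j := Nat.mul_le_mul_right _ hinj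
      _ = p ^ n := by rw [← pow_add]; congr 1; omega
  have h2 : p ≤ 2 * (p - 1) := by have := hp.two_le; omega
  have h3 : p * (S.card * p ^ j) ≤ p * (2 * p ^ (n - 1)) := by
    calc p * (S.card * p ^ j) ≤ 2 * (p - 1) * (S.card * p ^ j) := Nat.mul_le_mul_right _ h2
      _ = 2 * ((p - 1) * S.card * p ^ j) := by ring
      _ ≤ 2 * p ^ n := Nat.mul_le_mul_left _ h1
      _ = p * (2 * p ^ (n - 1)) := by
          have : p ^ n = p ^ (n - 1) * p := by rw [← pow_succ]; congr 1; omega
          rw [this]; ring
  exact Nat.le_of_mul_le_mul_left h3 hp.pos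

/-- a nonzero Gram-type determinant modulo `p` gives independence modulo `p` -/
lemma indep_modp {n j p : ℕ} [Fact p.Prime] (MT Mu : Matrix (Fin j) (Fin n) ℤ)
    (C : Matrix (Fin j) (Fin j) ℤ) (hC : MT = C * Mu)
    (hdet : (((MT * MT.transpose).det : ℤ) : ZMod p) ≠ 0) (c : Fin j → ZMod p)
    (hc : Matrix.vecMul c (Mu.map (Int.castRingHom (ZMod p))) = 0) : c = 0 := by
  have h1 : (MT * MT.transpose).det = C.det * (Mu * MT.transpose).det := by
    conv_lhs => rw [hC, Matrix.mul_assoc, ← hC]
    rw [Matrix.det_mul]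
  rw [h1, Int.cast_mul] at hdet
  have h2 : (((Mu * MT.transpose).det : ℤ) : ZMod p) ≠ 0 := right_ne_zero_of_mul hdet
  have h3 : (((Mu * MT.transpose).det : ℤ) : ZMod p) =
      ((Mu.map (Int.castRingHom (ZMod p))) *
        (MT.transpose.map (Int.castRingHom (ZMod p)))).det := by
    rw [← Matrix.map_mul]
    exact RingHom.map_det (Int.castRingHom (ZMod p)) _
  rw [h3] at h2
  apply Matrix.eq_zero_of_vecMul_eq_zero h2
  rw [← Matrix.vecMul_vecMul, hc, Matrix.zero_vecMul]

lemma gram_entry {n : ℕ} (a b : Fin n → ℤ) :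
    ((∑ i, a i * b i : ℤ) : ℝ) = inner ℝ (ze a : E n) (ze b : E n) := by
  simp [ze, zr, PiLp.inner_apply, mul_comm]

/-- the Gram determinant of short independent integer vectors is a nonzero integer smaller
than `p` -/
lemma gram_det_ne {n : ℕ} (T : ℕ → Fin n → ℤ) (j : ℕ) (hpos : ∀ b < j, 0 < ht T b) {r : ℝ}
    (hr : ∀ b < j, ‖(ze (T b) : E n)‖ ≤ r) {p : ℕ} (hp : (j.factorial : ℝ) * (r ^ 2) ^ j < p) :
    (((rowsM T j * (rowsM T j).transpose).det : ℤ) : ZMod p) ≠ 0 := by
  classical
  set G := rowsM T j * (rowsM T j).transpose with hG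
  have hGe : ∀ a b, (G a b : ℝ) = inner ℝ (ze (T a) : E n) (ze (T b) : E n) := by
    intro a b
    rw [← gram_entry]
    rfl
  -- nonvanishing
  have hne : G.det ≠ 0 := by
    intro h0
    have h1 : (G.map (Int.castRingHom ℝ)).det = 0 := by
      have := RingHom.map_det (Int.castRingHom ℝ) G
      rw [h0, map_zero] at this
      exact this.symm
    obtain ⟨x, hx, hx0⟩ := Matrix.exists_vecMul_eq_zero_iff.2 h1
    have h2 : ∑ a : Fin j, x a • (ze (T a) : E n) = 0 := by
      rw [← inner_self_eq_zero (𝕜 := ℝ)]
      have h3 : ∀ b : Fin j, inner ℝ (∑ a : Fin j, x a • (ze (T a) : E n)) (ze (T b) : E n) = 0 := by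
        intro b
        have h4 := congrFun hx0 b
        rw [sum_inner]
        simp only [inner_smul_left]
        simp only [Matrix.vecMul, dotProduct, Matrix.map_apply, Pi.zero_apply] at h4
        rw [← h4]
        refine Finset.sum_congr rfl (fun a _ => ?_)
        rw [← hGe]; simp
      rw [inner_sum]
      refine Finset.sum_eq_zero (fun b _ => ?_)
      rw [inner_smul_right, h3 b, mul_zero]
    -- sequential independence
    have h5 : ∀ k ≤ j, ∀ y : ℕ → ℝ, ∑ a ∈ Finset.range k, y a • (ze (T a) : E n) = 0 →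
        ∀ a < k, y a = 0 := by
      intro k
      induction k with
      | zero => intro _ y _ a ha; omega
      | succ k ih =>
        intro hk y hy a ha
        rw [Finset.sum_range_succ] at hy
        have hyk : y k = 0 := by
          by_contra hne
          have h6 := (ht_pos_iff T k).1 (hpos k (by omega))
          apply h6
          rw [mem_Us_iff]
          refine ⟨fun a => -(y k)⁻¹ * y a, ?_⟩
          simp_rw [mul_smul]
          rw [← Finset.smul_sum]
          have h7 : ∑ a ∈ Finset.range k, y a • (ze (T a) : E n) = - (y k • ze (T k)) :=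
            eq_neg_of_add_eq_zero_left hy
          rw [h7, smul_neg, neg_smul, neg_neg, smul_smul, inv_mul_cancel₀ hne, one_smul]
        rcases Nat.lt_succ_iff_lt_or_eq.1 ha with ha | rfl
        · rw [hyk, zero_smul, add_zero] at hy
          exact ih (by omega) y hy a ha
        · exact hyk
    apply hx
    funext a
    set y : ℕ → ℝ := fun b => if hb : b < j then x ⟨b, hb⟩ else 0 with hy
    have h8 : ∑ b ∈ Finset.range j, y b • (ze (T b) : E n) = 0 := by
      rw [← h2, Finset.sum_range (fun b => y b • (ze (T b) : E n))]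
      refine Finset.sum_congr rfl (fun b _ => ?_)
      simp [hy]
    have h9 := h5 j le_rfl y h8 a a.2
    simpa [hy] using h9
  -- size
  have hsize : (|G.det| : ℝ) < p := by
    have h1 := Matrix.det_le (A := G.map (Int.castRingHom ℝ)) (abv := AbsoluteValue.abs (S := ℝ))
      (x := r ^ 2) (by
        intro a b
        rw [Matrix.map_apply]
        have h2 : AbsoluteValue.abs (Int.castRingHom ℝ (G a b)) =
          |inner ℝ (ze (T a) : E n) (ze (T b) : E n)| := by
          rw [← hGe]; rfl
        rw [h2]
        refine (abs_real_inner_le_norm _ _).trans ?_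
        have ha := hr a a.2
        have hb := hr b b.2
        have := norm_nonneg (ze (T a) : E n)
        have := norm_nonneg (ze (T b) : E n)
        nlinarith)
    have h3 : (G.map (Int.castRingHom ℝ)).det = (G.det : ℝ) :=
      (RingHom.map_det (Int.castRingHom ℝ) G).symm
    rw [h3, Fintype.card_fin, nsmul_eq_mul] at h1
    exact lt_of_le_of_lt h1 hp
  intro h0
  rw [ZMod.intCast_zmod_eq_zero_iff_dvd] at h0
  have h1 : |G.det| < p := by exact_mod_cast hsize
  exact hne (Int.eq_zero_of_abs_lt_dvd h0 h1)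

end Pool.Agent.Helper30.Cov
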