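import Mathlib
import Pool.Agent.Helper30.CovModp
open MeasureTheory Filter Topology Set TopologicalSpace
open scoped FourierTransform RealInnerProductSpace

namespace Pool.Agent.Helper30.Cov

lemma finrank_Us_le {n : ℕ} (u : ℕ → Fin n → ℤ) (j : ℕ) : Module.finrank ℝ (Us u j) ≤ j := by
  classical
  have h : Us u j = Submodule.span ℝ (((Finset.range j).image (fun a => (ze (u a) : E n)) :
      Finset (E n)) : Set (E n)) := by
    unfold Us
    congr 1
    ext x; simp
  rw [h]
  refine (finrank_span_finset_le_card _).trans (Finset.card_image_le.trans ?_)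
  rw [Finset.card_range]

/-- candidates for the next basis vector -/
def Yset {n : ℕ} (R : ℝ) (N : ℕ) (u : ℕ → Fin n → ℤ) (j g : ℕ) (A : Fin N → ℕ) (k : ℕ) :
    Set (Fin n → ℤ) :=
  {y | ‖(ze ((g : ℤ) • y + ∑ a : Fin N, (A a : ℤ) • u a) : E n)‖ ≤ R ∧
    ‖(ze y : E n) - (Us u j).starProjection (ze y)‖ ≤ R / (g * 2 ^ k)}

lemma Yset_finite {n : ℕ} (R : ℝ) (N : ℕ) (u : ℕ → Fin n → ℤ) (j : ℕ) {g : ℕ} (hg : 1 ≤ g)
    (A : Fin N → ℕ) (k : ℕ) : (Yset R N u j g A k).Finite := by
  refine Set.Finite.of_finite_image (f := fun y : Fin n → ℤ =>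
    (g : ℤ) • y + ∑ a : Fin N, (A a : ℤ) • u a) ((finite_ball R).subset ?_) ?_
  · rintro _ ⟨y, hy, rfl⟩
    exact hy.1
  · intro y _ y' _ h
    have h1 : (g : ℤ) • y = (g : ℤ) • y' := add_right_cancel h
    have hg' : (g : ℤ) ≠ 0 := by positivity
    funext i
    have h2 := congrFun h1 i
    simp only [Pi.smul_apply, smul_eq_mul] at h2
    exact mul_left_cancel₀ hg' h2

open Classical in
/-- candidates as a finset -/
noncomputable def Yfin {n : ℕ} (R : ℝ) (N : ℕ) (u : ℕ → Fin n → ℤ) (j g : ℕ) (A : Fin N → ℕ)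
    (k : ℕ) : Finset (Fin n → ℤ) :=
  if h : (Yset R N u j g A k).Finite then h.toFinset else ∅

lemma mem_Yfin {n : ℕ} {R : ℝ} {N : ℕ} {u : ℕ → Fin n → ℤ} {j g : ℕ} (hg : 1 ≤ g)
    {A : Fin N → ℕ} {k : ℕ} {y : Fin n → ℤ} :
    y ∈ Yfin R N u j g A k ↔ y ∈ Yset R N u j g A k := by
  unfold Yfin
  rw [dif_pos (Yset_finite R N u j hg A k), Set.Finite.mem_toFinset]

lemma Yfin_card {N : ℕ} (u : ℕ → Fin (4 * N) → ℤ) {j : ℕ} (hj : j ≤ N)
    (hu : ∀ a, j ≤ a → u a = 0) {r : ℝ} {g k : ℕ} (hg : 1 ≤ g) (hr : (g : ℝ) * 2 ^ k ≤ r)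
    (A : Fin N → ℕ) :
    ((Yfin (Real.sqrt (4 * N : ℕ) * r) N u j g A k).card : ℝ) ≤
      (KC * r) ^ (4 * N) / ((g : ℝ) ^ (4 * N) * (2 ^ k) ^ (3 * N)) := by
  have hg0 : (0 : ℝ) < g := by exact_mod_cast hg
  have h2k : (0 : ℝ) < 2 ^ k := by positivity
  have hr0 : 0 < r := lt_of_lt_of_le (by positivity) hr
  set c : Fin (4 * N) → ℤ := ∑ a : Fin N, (A a : ℤ) • u a with hc
  have hcU : (ze c : E (4 * N)) ∈ Us u j := by
    have : ∀ s : Finset (Fin N), (ze (∑ a ∈ s, (A a : ℤ) • u a) : E (4 * N)) ∈ Us u j := by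
      classical
      intro s
      induction s using Finset.induction_on with
      | empty => rw [Finset.sum_empty, ze_zero]; exact Submodule.zero_mem _
      | insert a s ha ih =>
        rw [Finset.sum_insert ha, ze_add, ze_smul]
        refine Submodule.add_mem _ (Submodule.smul_mem _ _ ?_) ih
        rcases Nat.lt_or_ge (a : ℕ) j with h | h
        · exact mem_Us_of_lt u h
        · rw [hu a h, ze_zero]; exact Submodule.zero_mem _
    exact this _
  set v : E (4 * N) := (g : ℝ)⁻¹ • ze c with hv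
  have hvU : v ∈ Us u j := Submodule.smul_mem _ _ hcU
  have hτ : 1 ≤ r / (g * 2 ^ k) := by
    rw [le_div_iff₀ (by positivity)]; linarith
  have hστ : r / (g * 2 ^ k) ≤ r / g := by
    apply div_le_div_of_nonneg_left hr0.le hg0
    have : (1 : ℝ) ≤ 2 ^ k := one_le_pow₀ (by norm_num)
    nlinarith
  have h1 := count_near (Us u j) N ((finrank_Us_le u j).trans hj) (by omega) hτ hστ v
    (Yfin (Real.sqrt (4 * N : ℕ) * r) N u j g A k) (by
      intro y hy
      rw [mem_Yfin hg] at hy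
      have h2 := hy.1
      rw [ze_add, ze_smul] at h2
      have h3 : v + ze y = (g : ℝ)⁻¹ • ((g : ℝ) • ze y + ze c) := by
        rw [smul_add, smul_smul, inv_mul_cancel₀ hg0.ne', one_smul, add_comm]
      rw [h3, norm_smul, norm_inv, Real.norm_of_nonneg hg0.le, inv_mul_le_iff₀ hg0]
      have h4 : (g : ℝ) * (Real.sqrt (4 * N : ℕ) * (r / g)) = Real.sqrt (4 * N : ℕ) * r := by
        field_simp
      rw [h4]
      exact_mod_cast h2) (by
      intro y hy
      rw [mem_Yfin hg] at hy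
      have h2 := hy.2
      rw [map_add, Submodule.starProjection_eq_self_iff.2 hvU]
      have h3 : v + ze y - (v + (Us u j).starProjection (ze y)) =
        ze y - (Us u j).starProjection (ze y) := by abel
      rw [h3, ← mul_div_assoc]
      exact h2)
  refine h1.trans (le_of_eq ?_)
  have e1 : 4 * N - N = 3 * N := by omega
  rw [e1, mul_pow, div_pow, div_pow, mul_pow]
  have e2 : (r : ℝ) ^ (4 * N) = r ^ N * r ^ (3 * N) := by rw [← pow_add]; congr 1; ring
  have e3 : (g : ℝ) ^ (4 * N) = g ^ N * g ^ (3 * N) := by rw [← pow_add]; congr 1; ring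
  rw [e2, e3]
  field_simp

lemma sum_biUnion_le' {α ι : Type*} [DecidableEq α] (s : Finset ι) (t : ι → Finset α)
    (f : α → ℝ) (hf : ∀ a, 0 ≤ f a) :
    ∑ x ∈ s.biUnion t, f x ≤ ∑ i ∈ s, ∑ x ∈ t i, f x := by
  classical
  induction s using Finset.induction_on with
  | empty => simp
  | insert i s hi ih =>
    rw [Finset.biUnion_insert, Finset.sum_insert hi]
    have h := Finset.sum_union_inter (s₁ := t i) (s₂ := s.biUnion t) (f := f)
    have h2 : 0 ≤ ∑ x ∈ t i ∩ s.biUnion t, f x := Finset.sum_nonneg (fun x _ => hf x)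
    linarith

lemma sum_image_le' {α β : Type*} [DecidableEq β] (s : Finset α) (φ : α → β)
    (f : β → ℝ) (hf : ∀ a, 0 ≤ f a) :
    ∑ x ∈ s.image φ, f x ≤ ∑ i ∈ s, f (φ i) := by
  classical
  induction s using Finset.induction_on with
  | empty => simp
  | insert i s hi ih =>
    rw [Finset.image_insert, Finset.sum_insert hi]
    by_cases h : φ i ∈ s.image φ
    · rw [Finset.insert_eq_of_mem h]
      have := hf (φ i)
      linarith
    · rw [Finset.sum_insert h]
      linarith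

open Classical in
/-- the states reachable after `j` steps: the flag basis so far and the accumulated product -/
noncomputable def Z {n : ℕ} (N G K : ℕ) (R : ℝ) : ℕ → Finset ((ℕ → Fin n → ℤ) × ℕ)
  | 0 => {(fun _ => 0, 1)}
  | j + 1 => (Z N G K R j).biUnion fun s => (Finset.Icc 1 G).biUnion fun g =>
      (Fintype.piFinset fun _ : Fin N => Finset.range g).biUnion fun A =>
        (Finset.range (K + 1)).biUnion fun k =>
          (Yfin R N s.1 j g A k).image fun y => (Function.update s.1 j y, s.2 * (g * 2 ^ k))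

lemma Z_zero_beyond {n : ℕ} {N G K : ℕ} {R : ℝ} (j : ℕ) :
    ∀ s ∈ (Z N G K R j : Finset ((ℕ → Fin n → ℤ) × ℕ)), ∀ a, j ≤ a → s.1 a = 0 := by
  induction j with
  | zero =>
    intro s hs a _
    rw [Z, Finset.mem_singleton] at hs
    rw [hs]
  | succ j ih =>
    intro s hs a ha
    rw [Z] at hs
    simp only [Finset.mem_biUnion, Finset.mem_image] at hs
    obtain ⟨s', hs', g, hg, A, hA, k, hk, y, hy, rfl⟩ := hs
    simp only
    rw [Function.update_of_ne (by omega)]
    exact ih s' hs' a (by omega)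

lemma sum_inv_sq_le (G : ℕ) : ∑ g ∈ Finset.Icc 1 G, ((g : ℝ) ^ 2)⁻¹ ≤ 2 := by
  have h : ∀ G : ℕ, 1 ≤ G → ∑ g ∈ Finset.Icc 1 G, ((g : ℝ) ^ 2)⁻¹ ≤ 2 - (G : ℝ)⁻¹ := by
    intro G hG
    induction G, hG using Nat.le_induction with
    | base => norm_num
    | succ G hG ih =>
      rw [Finset.sum_Icc_succ_top (by omega)]
      have hG' : (0 : ℝ) < G := by exact_mod_cast hG
      have h1 : (((G + 1 : ℕ) : ℝ) ^ 2)⁻¹ ≤ (G : ℝ)⁻¹ - ((G + 1 : ℕ) : ℝ)⁻¹ := by
        push_cast
        rw [inv_sub_inv hG'.ne' (by positivity), add_sub_cancel_left, one_div]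
        apply inv_anti₀ (by positivity)
        nlinarith
      linarith
  rcases Nat.eq_zero_or_pos G with rfl | hG
  · simp
  · refine (h G hG).trans ?_
    have : (0 : ℝ) ≤ (G : ℝ)⁻¹ := by positivity
    linarith

lemma sum_half_le (K : ℕ) : ∑ k ∈ Finset.range (K + 1), ((2 : ℝ) ^ k)⁻¹ ≤ 2 := by
  have h := summable_geometric_two.sum_le_tsum (Finset.range (K + 1)) (fun k _ => by positivity)
  rw [tsum_geometric_two] at h
  refine le_trans (le_of_eq ?_) h
  refine Finset.sum_congr rfl (fun k _ => ?_)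
  rw [one_div, inv_pow]

/-- the potential of the states -/
noncomputable def Phi {n : ℕ} (N : ℕ) (S : Finset ((ℕ → Fin n → ℤ) × ℕ)) : ℝ :=
  ∑ s ∈ S, (s.2 : ℝ) ^ (2 * N)

lemma Phi_Z_le {N G K : ℕ} (hN : 2 ≤ N) {r : ℝ} (hr : (G : ℝ) * 2 ^ K ≤ r) (j : ℕ)
    (hj : j ≤ N) :
    Phi N (Z N G K (Real.sqrt (4 * N : ℕ) * r) j : Finset ((ℕ → Fin (4 * N) → ℤ) × ℕ)) ≤
      (4 * (KC * r) ^ (4 * N)) ^ j := by
  classical
  induction j with
  | zero => simp [Phi, Z]
  | succ j ih =>
    have ih := ih (by omega)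
    set R := Real.sqrt (4 * N : ℕ) * r with hR
    set C := (KC * r) ^ (4 * N) with hC
    have hr0 : 0 ≤ r := le_trans (by positivity) hr
    have hC0 : 0 ≤ C := by
      have := KC_pos
      positivity
    unfold Phi
    rw [Z]
    have hnn : ∀ s : (ℕ → Fin (4 * N) → ℤ) × ℕ, (0 : ℝ) ≤ (s.2 : ℝ) ^ (2 * N) := by
      intro s; positivity
    refine (sum_biUnion_le' _ _ _ hnn).trans ?_
    have key : ∀ s ∈ (Z N G K R j : Finset ((ℕ → Fin (4 * N) → ℤ) × ℕ)),
        ∑ x ∈ ((Finset.Icc 1 G).biUnion fun g =>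
          (Fintype.piFinset fun _ : Fin N => Finset.range g).biUnion fun A =>
          (Finset.range (K + 1)).biUnion fun k =>
          (Yfin R N s.1 j g A k).image fun y => (Function.update s.1 j y, s.2 * (g * 2 ^ k))),
          (x.2 : ℝ) ^ (2 * N) ≤ (s.2 : ℝ) ^ (2 * N) * (4 * C) := by
      intro s hs
      have hs0 := Z_zero_beyond j s hs
      refine (sum_biUnion_le' _ _ _ hnn).trans ?_
      have hg : ∀ g ∈ Finset.Icc 1 G,
          ∑ x ∈ ((Fintype.piFinset fun _ : Fin N => Finset.range g).biUnion fun A =>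
          (Finset.range (K + 1)).biUnion fun k =>
          (Yfin R N s.1 j g A k).image fun y => (Function.update s.1 j y, s.2 * (g * 2 ^ k))),
          (x.2 : ℝ) ^ (2 * N) ≤ (s.2 : ℝ) ^ (2 * N) * (2 * C) * ((g : ℝ) ^ 2)⁻¹ := by
        intro g hg
        rw [Finset.mem_Icc] at hg
        have hg1 : (1 : ℝ) ≤ g := by exact_mod_cast hg.1
        have hg0 : (0 : ℝ) < g := by linarith
        refine (sum_biUnion_le' _ _ _ hnn).trans ?_
        have hA : ∀ A ∈ (Fintype.piFinset fun _ : Fin N => Finset.range g),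
            ∑ x ∈ ((Finset.range (K + 1)).biUnion fun k =>
            (Yfin R N s.1 j g A k).image fun y => (Function.update s.1 j y, s.2 * (g * 2 ^ k))),
            (x.2 : ℝ) ^ (2 * N) ≤ (s.2 : ℝ) ^ (2 * N) * (2 * C) * ((g : ℝ) ^ (2 * N))⁻¹ := by
          intro A _
          refine (sum_biUnion_le' _ _ _ hnn).trans ?_
          have hk : ∀ k ∈ Finset.range (K + 1),
              ∑ x ∈ ((Yfin R N s.1 j g A k).image fun y =>
                (Function.update s.1 j y, s.2 * (g * 2 ^ k))),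
              (x.2 : ℝ) ^ (2 * N) ≤
                (s.2 : ℝ) ^ (2 * N) * C * ((g : ℝ) ^ (2 * N))⁻¹ * ((2 : ℝ) ^ k)⁻¹ := by
            intro k hk
            rw [Finset.mem_range] at hk
            refine (sum_image_le' _ _ _ hnn).trans ?_
            simp only
            rw [Finset.sum_const, nsmul_eq_mul]
            have hrk : (g : ℝ) * 2 ^ k ≤ r := by
              refine le_trans ?_ hr
              have h1 : (g : ℝ) ≤ G := by exact_mod_cast hg.2
              have h2 : (2 : ℝ) ^ k ≤ 2 ^ K := pow_le_pow_right₀ (by norm_num) (by omega)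
              gcongr
            have hcard := Yfin_card s.1 (j := j) (by omega) hs0 hg.1 hrk A
            rw [← hR, ← hC] at hcard
            have h2k1 : (1 : ℝ) ≤ 2 ^ k := one_le_pow₀ (by norm_num)
            have h2k : (0 : ℝ) < 2 ^ k := by linarith
            have e1 : (((s.2 * (g * 2 ^ k) : ℕ) : ℝ)) ^ (2 * N) =
                (s.2 : ℝ) ^ (2 * N) * ((g : ℝ) ^ (2 * N) * ((2 : ℝ) ^ k) ^ (2 * N)) := by
              push_cast
              rw [mul_pow, mul_pow]
            rw [e1]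
            have e2 : (g : ℝ) ^ (4 * N) = g ^ (2 * N) * g ^ (2 * N) := by
              rw [← pow_add]; congr 1; ring
            have e3 : ((2 : ℝ) ^ k) ^ (3 * N) = (2 ^ k) ^ (2 * N) * (2 ^ k) ^ N := by
              rw [← pow_add]; congr 1; ring
            have h3 : ((Yfin R N s.1 j g A k).card : ℝ) *
                ((s.2 : ℝ) ^ (2 * N) * ((g : ℝ) ^ (2 * N) * ((2 : ℝ) ^ k) ^ (2 * N))) ≤
                C / ((g : ℝ) ^ (4 * N) * (2 ^ k) ^ (3 * N)) *
                ((s.2 : ℝ) ^ (2 * N) * ((g : ℝ) ^ (2 * N) * ((2 : ℝ) ^ k) ^ (2 * N))) :=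
              mul_le_mul_of_nonneg_right hcard (by positivity)
            refine h3.trans ?_
            rw [e2, e3]
            have h4 : C / ((g : ℝ) ^ (2 * N) * g ^ (2 * N) * ((2 ^ k) ^ (2 * N) * (2 ^ k) ^ N)) *
                ((s.2 : ℝ) ^ (2 * N) * ((g : ℝ) ^ (2 * N) * ((2 : ℝ) ^ k) ^ (2 * N))) =
                (s.2 : ℝ) ^ (2 * N) * C * ((g : ℝ) ^ (2 * N))⁻¹ * (((2 : ℝ) ^ k) ^ N)⁻¹ := by
              field_simp
            rw [h4]
            have h5 : (2 : ℝ) ^ k ≤ (2 ^ k) ^ N := by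
              calc (2 : ℝ) ^ k = (2 ^ k) ^ 1 := (pow_one _).symm
                _ ≤ (2 ^ k) ^ N := pow_le_pow_right₀ h2k1 (by omega)
            have h6 : (((2 : ℝ) ^ k) ^ N)⁻¹ ≤ ((2 : ℝ) ^ k)⁻¹ := inv_anti₀ h2k h5
            exact mul_le_mul_of_nonneg_left h6 (by positivity)
          refine (Finset.sum_le_sum hk).trans ?_
          rw [← Finset.mul_sum]
          have h7 := sum_half_le K
          have h8 : 0 ≤ (s.2 : ℝ) ^ (2 * N) * C * ((g : ℝ) ^ (2 * N))⁻¹ := by positivity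
          calc (s.2 : ℝ) ^ (2 * N) * C * ((g : ℝ) ^ (2 * N))⁻¹ *
                ∑ k ∈ Finset.range (K + 1), ((2 : ℝ) ^ k)⁻¹
              ≤ (s.2 : ℝ) ^ (2 * N) * C * ((g : ℝ) ^ (2 * N))⁻¹ * 2 :=
                mul_le_mul_of_nonneg_left h7 h8
            _ = _ := by ring
        refine (Finset.sum_le_sum hA).trans ?_
        rw [Finset.sum_const, nsmul_eq_mul, Fintype.card_piFinset]
        simp only [Finset.card_range, Finset.prod_const, Finset.card_univ, Fintype.card_fin]
        push_cast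
        have e2 : (g : ℝ) ^ (2 * N) = g ^ N * g ^ N := by
          rw [← pow_add]; congr 1; ring
        have h4 : (g : ℝ) ^ N * ((s.2 : ℝ) ^ (2 * N) * (2 * C) * ((g : ℝ) ^ (2 * N))⁻¹) =
            (s.2 : ℝ) ^ (2 * N) * (2 * C) * ((g : ℝ) ^ N)⁻¹ := by
          rw [e2]; field_simp
        rw [h4]
        have h5 : (g : ℝ) ^ 2 ≤ g ^ N := pow_le_pow_right₀ hg1 hN
        have h6 : ((g : ℝ) ^ N)⁻¹ ≤ ((g : ℝ) ^ 2)⁻¹ := inv_anti₀ (by positivity) h5
        exact mul_le_mul_of_nonneg_left h6 (by positivity)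
      refine (Finset.sum_le_sum hg).trans ?_
      rw [← Finset.mul_sum]
      have h7 := sum_inv_sq_le G
      calc (s.2 : ℝ) ^ (2 * N) * (2 * C) * ∑ g ∈ Finset.Icc 1 G, ((g : ℝ) ^ 2)⁻¹
          ≤ (s.2 : ℝ) ^ (2 * N) * (2 * C) * 2 :=
            mul_le_mul_of_nonneg_left h7 (by positivity)
        _ = _ := by ring
    refine (Finset.sum_le_sum key).trans ?_
    rw [← Finset.sum_mul, pow_succ]
    exact mul_le_mul_of_nonneg_right ih (by positivity)

end Pool.Agent.Helper30.Cov
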