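import Mathlib
import Pool.Agent.Helper30.CovUnion
open MeasureTheory Filter Topology Set TopologicalSpace
open scoped FourierTransform RealInnerProductSpace

namespace Pool.Agent.Helper30.Cov

/-- truncation of a sequence -/
def tr {n : ℕ} (u : ℕ → Fin n → ℤ) (j : ℕ) : ℕ → Fin n → ℤ := fun b => if b < j then u b else 0

lemma tr_succ {n : ℕ} (u : ℕ → Fin n → ℤ) (j : ℕ) :
    Function.update (tr u j) j (u j) = tr u (j + 1) := by
  funext b
  by_cases h : b = j
  · subst h; rw [Function.update_self]; simp [tr]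
  · rw [Function.update_of_ne h]
    unfold tr
    by_cases h2 : b < j
    · rw [if_pos h2, if_pos (by omega)]
    · rw [if_neg h2, if_neg (by omega)]

lemma Us_tr {n : ℕ} (u : ℕ → Fin n → ℤ) (j : ℕ) : Us (tr u j) j = Us u j :=
  Us_congr (fun a ha => by unfold tr; rw [if_pos ha])

lemma mem_Z {n N G K : ℕ} {R : ℝ} (u : ℕ → Fin n → ℤ) (g : ℕ → ℕ) (A : ℕ → ℕ → ℕ) (k : ℕ → ℕ)
    (j : ℕ) (hj : j ≤ N) (h1 : ∀ b < j, 1 ≤ g b ∧ g b ≤ G) (h2 : ∀ b < j, ∀ a < b, A b a < g b)
    (h3 : ∀ b < j, k b ≤ K)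
    (h4 : ∀ b < j, ‖(ze ((g b : ℤ) • u b + ∑ a ∈ Finset.range b, (A b a : ℤ) • u a) : E n)‖ ≤ R)
    (h5 : ∀ b < j, ht u b ≤ R / (g b * 2 ^ k b)) :
    (tr u j, ∏ b ∈ Finset.range j, (g b * 2 ^ k b)) ∈ Z N G K R j := by
  classical
  induction j with
  | zero =>
    rw [Z, Finset.mem_singleton]
    simp only [Finset.range_zero, Finset.prod_empty, Prod.mk.injEq, and_true]
    funext b; simp [tr]
  | succ j ih =>
    have ih := ih (by omega) (fun b hb => h1 b (by omega)) (fun b hb => h2 b (by omega))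
      (fun b hb => h3 b (by omega)) (fun b hb => h4 b (by omega)) (fun b hb => h5 b (by omega))
    rw [Z]
    simp only [Finset.mem_biUnion, Finset.mem_image]
    have hgj := h1 j (by omega)
    refine ⟨_, ih, g j, Finset.mem_Icc.2 hgj, fun a : Fin N => if (a : ℕ) < j then A j a else 0,
      ?_, k j, ?_, u j, ?_, ?_⟩
    · rw [Fintype.mem_piFinset]
      intro a
      rw [Finset.mem_range]
      split_ifs with h
      · exact h2 j (by omega) a h
      · omega
    · rw [Finset.mem_range]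
      have := h3 j (by omega)
      omega
    · rw [mem_Yfin hgj.1]
      constructor
      · have e : ∑ a : Fin N, (((if (a : ℕ) < j then A j a else 0 : ℕ)) : ℤ) • tr u j a =
            ∑ a ∈ Finset.range j, (A j a : ℤ) • u a := by
          have e1 : ∀ a : Fin N, (((if (a : ℕ) < j then A j a else 0 : ℕ)) : ℤ) • tr u j a =
            (fun a : ℕ => if a < j then (A j a : ℤ) • u a else 0) a := by
            intro a
            simp only [tr]
            split_ifs <;> simp
          rw [Finset.sum_congr rfl (fun a _ => e1 a)]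
          rw [← Finset.sum_range (fun a : ℕ => if a < j then (A j a : ℤ) • u a else 0)]
          rw [← Finset.sum_filter]
          congr 1
          ext a
          simp only [Finset.mem_filter, Finset.mem_range]
          omega
        simp only
        rw [e]
        exact h4 j (by omega)
      · simp only
        rw [proj_congr (Us_tr u j)]
        exact h5 j (by omega)
    · rw [tr_succ, Finset.prod_range_succ]

/-- every heavy state inside `Λ` is dependent modulo `p` -/
def NoBad {n : ℕ} (Λ : AddSubgroup (Fin n → ℤ)) (N G K : ℕ) (R Θ : ℝ) (p : ℕ) : Prop :=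
  ∀ j, 1 ≤ j → j ≤ N → ∀ s ∈ (Z N G K R j : Finset ((ℕ → Fin n → ℤ) × ℕ)), Θ ^ j ≤ (s.2 : ℝ) →
    (∀ b < j, s.1 b ∈ Λ) → ∃ c : Fin j → ZMod p, c ≠ 0 ∧
      Matrix.vecMul c ((rowsM s.1 j).map (Int.castRingHom (ZMod p))) = 0

/-- choice of the dyadic layer -/
lemma exists_layer {h R : ℝ} (hhR : h ≤ R) (K : ℕ) :
    ∃ k ≤ K, h ≤ R / 2 ^ k ∧ (k < K → R / 2 ^ (k + 1) < h) := by
  induction K with
  | zero => exact ⟨0, le_rfl, by simpa using hhR, by simp⟩
  | succ K ih =>
    obtain ⟨k, hk, h1, h2⟩ := ih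
    by_cases hkK : k < K
    · exact ⟨k, by omega, h1, fun _ => h2 hkK⟩
    · have : k = K := by omega
      subst this
      by_cases h3 : h ≤ R / 2 ^ (k + 1)
      · exact ⟨k + 1, le_rfl, h3, by simp⟩
      · push Not at h3
        exact ⟨k, by omega, h1, fun _ => h3⟩

/-- **Counting points of `Λ` in the span of short independent vectors.** -/
lemma count_span {n N G K p : ℕ} [Fact p.Prime] {Λ : AddSubgroup (Fin n → ℤ)} {R Θ σ t : ℝ}
    (hσ : 0 < σ) (ht1 : 1 ≤ t) (hRσ : R = t * σ) (hΘ : 1 ≤ Θ) (hK : Θ ^ N ≤ 2 ^ K)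
    (hbad : NoBad Λ N G K R Θ p)
    (hG : ∀ S : Finset (Fin n → ℤ), (∀ z ∈ S, z ∈ Λ ∧ ‖(ze z : E n)‖ ≤ N * R) → S.card ≤ G)
    (hp : (N.factorial : ℝ) * (R ^ 2) ^ N < p)
    (T : ℕ → Fin n → ℤ) (j : ℕ) (hj : j ≤ N) (hT : ∀ b < j, T b ∈ Λ)
    (hpos : ∀ b < j, 0 < ht T b) (hTR : ∀ b < j, ‖(ze (T b) : E n)‖ ≤ R) (hR1 : 1 ≤ R)
    {B : ℝ} (S : Finset (Fin n → ℤ))
    (hS : ∀ z ∈ S, z ∈ Λ ∧ ze z ∈ Us T j ∧ ‖(ze z : E n)‖ ≤ B * σ) :
    (S.card : ℝ) ≤ Real.exp (Real.pi * B ^ 2) * (8 * Θ) ^ j := by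
  classical
  obtain ⟨u, g, A, h⟩ := exists_hnf Λ T j hT hpos
  have hR0 : 0 < R := by linarith
  have hcnt := h.count hpos hσ S hS
  refine hcnt.trans (mul_le_mul_of_nonneg_left ?_ (Real.exp_pos _).le)
  have hu := h.htu_pos hpos
  have hgle : ∀ b < j, g b ≤ G := by
    intro b hb
    refine h.g_le hT hpos hb (R := N * R) ?_ hG
    calc ∑ a ∈ Finset.range (b + 1), ‖(ze (T a) : E n)‖
        ≤ ∑ a ∈ Finset.range (b + 1), R := Finset.sum_le_sum (fun a ha => hTR a (by
          have := Finset.mem_range.1 ha; omega))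
      _ = (b + 1) * R := by rw [Finset.sum_const, Finset.card_range, nsmul_eq_mul]; push_cast; ring
      _ ≤ N * R := by
          have : ((b : ℝ) + 1) ≤ N := by exact_mod_cast (by omega : b + 1 ≤ N)
          gcongr
  have hlay : ∀ b, ∃ k ≤ K, b < j → (ht T b ≤ R / 2 ^ k ∧ (k < K → R / 2 ^ (k + 1) < ht T b)) := by
    intro b
    by_cases hb : b < j
    · obtain ⟨k, hk, h1⟩ := exists_layer ((ht_le_norm T b).trans (hTR b hb)) K
      exact ⟨k, hk, fun _ => h1⟩
    · exact ⟨0, by omega, fun h => absurd h hb⟩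
  choose k hkK hk using hlay
  have hmem := mem_Z (N := N) (G := G) (K := K) (R := R) u g A k j hj
    (fun b hb => ⟨h.gpos b hb, hgle b hb⟩) h.Alt (fun b _ => hkK b)
    (fun b hb => by rw [← h.eq b hb]; exact hTR b hb)
    (fun b hb => by
      have hg0 : (0 : ℝ) < g b := by exact_mod_cast h.gpos b hb
      have h1 := (hk b hb).1
      rw [h.ht_eq hb] at h1
      rw [le_div_iff₀ (by positivity)]
      rw [le_div_iff₀ (by positivity)] at h1
      calc ht u b * (g b * 2 ^ k b) = g b * ht u b * 2 ^ k b := by ring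
        _ ≤ R := h1)
  set q := ∏ b ∈ Finset.range j, (g b * 2 ^ k b) with hq
  -- the heavy case is impossible
  have hqlt : j = 0 ∨ (q : ℝ) < Θ ^ j := by
    by_cases hj0 : j = 0
    · exact Or.inl hj0
    right
    by_contra hcon
    push Not at hcon
    obtain ⟨c, hc0, hc⟩ := hbad j (by omega) hj _ hmem hcon (fun b hb => by
      simp only [tr]
      rw [if_pos hb]
      exact h.mem b hb)
    apply hc0
    set C : Matrix (Fin j) (Fin j) ℤ := Matrix.of (fun b a =>
      if (a : ℕ) < b then (A b a : ℤ) else if (a : ℕ) = b then (g b : ℤ) else 0) with hC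
    have hdet := gram_det_ne T j hpos hTR (p := p) (by
      refine lt_of_le_of_lt ?_ hp
      have h1 : (j.factorial : ℝ) ≤ N.factorial := by exact_mod_cast Nat.factorial_le hj
      have h2 : (R ^ 2) ^ j ≤ (R ^ 2) ^ N := pow_le_pow_right₀ (by nlinarith) hj
      gcongr)
    refine indep_modp (rowsM T j) (rowsM u j) C ?_ hdet c ?_
    · ext b i
      rw [Matrix.mul_apply]
      simp only [rowsM, Matrix.of_apply, hC]
      have e0 : (b : ℕ) < j := b.2
      have e1 := congrFun (h.eq b e0) i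
      simp only [Pi.add_apply, Pi.smul_apply, smul_eq_mul, Finset.sum_apply] at e1
      rw [e1]
      rw [← Finset.sum_range (fun a : ℕ => (if a < (b : ℕ) then (A b a : ℤ) else
        if a = (b : ℕ) then (g b : ℤ) else 0) * u a i)]
      have e2 : Finset.range ((b : ℕ) + 1) ⊆ Finset.range j := by
        intro x hx; rw [Finset.mem_range] at *; omega
      rw [← Finset.sum_subset e2 (by
        intro x _ hx2
        rw [Finset.mem_range] at hx2
        rw [if_neg (by omega), if_neg (by omega), zero_mul])]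
      rw [Finset.sum_range_succ, if_neg (lt_irrefl _), if_pos rfl, add_comm]
      congr 1
      refine Finset.sum_congr rfl (fun a ha => ?_)
      rw [if_pos (Finset.mem_range.1 ha)]
    · have e3 : rowsM (tr u j) j = rowsM u j := by
        ext b i
        simp only [rowsM, Matrix.of_apply, tr]
        rw [if_pos b.2]
      rw [← e3]
      exact hc
  -- conclusion
  rcases hqlt with hj0 | hqlt
  · subst hj0; simp
  have hk_lt : ∀ b < j, k b < K := by
    intro b hb
    have h1 : 2 ^ k b ≤ q := by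
      have h2 : g b * 2 ^ k b ∣ q := Finset.dvd_prod_of_mem _ (Finset.mem_range.2 hb)
      have h3 : 0 < q := Finset.prod_pos (fun a ha => Nat.mul_pos
        (h.gpos a (Finset.mem_range.1 ha)) (by positivity))
      exact (Nat.le_mul_of_pos_left _ (h.gpos b hb)).trans (Nat.le_of_dvd h3 h2)
    have h2 : ((2 : ℝ) ^ k b) < 2 ^ K := by
      calc (2 : ℝ) ^ k b ≤ q := by exact_mod_cast h1
        _ < Θ ^ j := hqlt
        _ ≤ Θ ^ N := pow_le_pow_right₀ hΘ hj
        _ ≤ 2 ^ K := hK
    exact (pow_lt_pow_iff_right₀ (by norm_num : (1:ℝ) < 2)).1 h2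
  calc ∏ b ∈ Finset.range j, (4 * max 1 (σ / ht u b))
      ≤ ∏ b ∈ Finset.range j, (8 * ((g b : ℝ) * 2 ^ k b)) := by
        refine Finset.prod_le_prod (fun b _ => by positivity) (fun b hb => ?_)
        have hb' := Finset.mem_range.1 hb
        have hub := hu b hb'
        have hg0 : (0 : ℝ) < g b := by exact_mod_cast h.gpos b hb'
        have hg1 : (1 : ℝ) ≤ g b := by exact_mod_cast h.gpos b hb'
        have hTb := (hk b hb').2 (hk_lt b hb')
        have hTle : ht T b ≤ R := (ht_le_norm T b).trans (hTR b hb')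
        rw [h.ht_eq hb'] at hTb hTle
        have h1 : max 1 (σ / ht u b) ≤ R / ht u b := by
          apply max_le
          · rw [one_le_div hub]; nlinarith
          · gcongr; rw [hRσ]; nlinarith
        have h2 : R / ht u b ≤ 2 * ((g b : ℝ) * 2 ^ k b) := by
          rw [div_le_iff₀ hub]
          rw [div_lt_iff₀ (by positivity), pow_succ] at hTb
          nlinarith
        linarith
    _ = 8 ^ j * (q : ℝ) := by
        rw [Finset.prod_mul_distrib, Finset.prod_const, Finset.card_range, hq]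
        push_cast
        rfl
    _ ≤ 8 ^ j * Θ ^ j := by gcongr
    _ = (8 * Θ) ^ j := by rw [mul_pow]

end Pool.Agent.Helper30.Cov
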