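import Mathlib
import Pool.Agent.Helper30.CovSpan
open MeasureTheory Filter Topology Set TopologicalSpace
open scoped FourierTransform RealInnerProductSpace

namespace Pool.Agent.Helper30.Cov

lemma le_finrank_Us {n : ℕ} (T : ℕ → Fin n → ℤ) (j : ℕ) (hpos : ∀ b < j, 0 < ht T b) :
    j ≤ Module.finrank ℝ (Us T j) := by
  induction j with
  | zero => exact Nat.zero_le _
  | succ j ih =>
    have ih := ih (fun b hb => hpos b (by omega))
    have hlt : Us T j < Us T (j + 1) := by
      refine lt_of_le_of_ne (Us_mono T (by omega)) (fun h => ?_)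
      have h1 := (ht_pos_iff T j).1 (hpos j (by omega))
      rw [h] at h1
      exact h1 (mem_Us_of_lt T (by omega))
    have := Submodule.finrank_lt_finrank_of_lt hlt
    omega

/-- a maximal sequentially independent sequence inside a set of integer points -/
lemma exists_seq {n N : ℕ} (W : Submodule ℝ (E n)) (hW : Module.finrank ℝ W ≤ N)
    (P : Set (Fin n → ℤ)) (hP : ∀ z ∈ P, (ze z : E n) ∈ W) :
    ∃ j ≤ N, ∃ T : ℕ → Fin n → ℤ, (∀ b < j, T b ∈ P ∧ 0 < ht T b) ∧
      ∀ z ∈ P, (ze z : E n) ∈ Us T j := by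
  classical
  by_contra hcon
  push Not at hcon
  have hle : ∀ j (T : ℕ → Fin n → ℤ), (∀ b < j, T b ∈ P ∧ 0 < ht T b) → j ≤ N := by
    intro j T hT
    have h1 := le_finrank_Us T j (fun b hb => (hT b hb).2)
    have h2 : Us T j ≤ W := by
      unfold Us
      rw [Submodule.span_le]
      rintro _ ⟨a, ha, rfl⟩
      exact hP _ (hT a ha).1
    exact h1.trans ((Submodule.finrank_mono h2).trans hW)
  have hQ : ∀ j, ∃ T : ℕ → Fin n → ℤ, ∀ b < j, T b ∈ P ∧ 0 < ht T b := by
    intro j
    induction j with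
    | zero => exact ⟨fun _ => 0, fun b hb => by omega⟩
    | succ j ih =>
      obtain ⟨T, hT⟩ := ih
      obtain ⟨z, hz, hzU⟩ := hcon j (hle j T hT) T hT
      refine ⟨Function.update T j z, fun b hb => ?_⟩
      have hne : ∀ a < j, Function.update T j z a = T a := fun a ha =>
        Function.update_of_ne ha.ne _ _
      rcases Nat.lt_succ_iff_lt_or_eq.1 hb with hb | rfl
      · refine ⟨by rw [hne b hb]; exact (hT b hb).1, ?_⟩
        rw [ht_pos_iff, hne b hb, Us_congr (T' := T) (fun a ha => hne a (by omega)),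
          ← ht_pos_iff]
        exact (hT b hb).2
      · refine ⟨by rw [Function.update_self]; exact hz, ?_⟩
        rw [ht_pos_iff, Function.update_self, Us_congr (T' := T) (fun a ha => hne a ha)]
        exact hzU
  obtain ⟨T, hT⟩ := hQ (N + 1)
  have := hle (N + 1) T hT
  omega

/-- the power trick -/
lemma power_sets {n : ℕ} (Λ : AddSubgroup (Fin n → ℤ)) (U : Submodule ℝ (E n)) {σ t c : ℝ}
    (hσ : 0 < σ) (ht0 : 0 ≤ t) {b : ℕ} (hb : 2 ≤ b) (hbc : 2 * t < b * c)
    (hmin : ∀ z ∈ Λ, z ≠ 0 → c * σ ≤ ‖(ze z : E n)‖) (S : Finset (Fin n → ℤ))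
    (hS : ∀ z ∈ S, z ∈ Λ ∧ ze z ∈ U ∧ ‖(ze z : E n)‖ ≤ t * σ) (k : ℕ) :
    ∃ Sk : Finset (Fin n → ℤ), Sk.card = S.card ^ k ∧
      ∀ z ∈ Sk, z ∈ Λ ∧ ze z ∈ U ∧ ‖(ze z : E n)‖ ≤ t * (b ^ k - 1) * σ := by
  classical
  induction k with
  | zero =>
    refine ⟨{0}, by simp, ?_⟩
    intro z hz
    rw [Finset.mem_singleton] at hz
    subst hz
    refine ⟨Λ.zero_mem, by rw [ze_zero]; exact Submodule.zero_mem _, ?_⟩
    rw [ze_zero]; simp
  | succ k ih =>
    obtain ⟨Sk, hcard, hSk⟩ := ih
    refine ⟨(S ×ˢ Sk).image (fun x => x.1 + (b : ℤ) • x.2), ?_, ?_⟩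
    · rw [Finset.card_image_of_injOn, Finset.card_product, hcard, pow_succ, mul_comm]
      rintro ⟨x, y⟩ hxy ⟨x', y'⟩ hxy' heq
      rw [Finset.mem_coe, Finset.mem_product] at hxy hxy'
      simp only at hxy hxy' heq
      have hyy : y = y' := by
        by_contra hne
        have h1 : y - y' ∈ Λ := Λ.sub_mem (hSk y hxy.2).1 (hSk y' hxy'.2).1
        have h2 := hmin _ h1 (sub_ne_zero.2 hne)
        have h3 : (b : ℤ) • (y - y') = x' - x := by
          rw [smul_sub]
          have : x + (b : ℤ) • y - (x + (b : ℤ) • y') = x' + (b : ℤ) • y' - (x + (b : ℤ) • y') := by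
            rw [heq]
          rw [add_sub_add_left_eq_sub, add_sub_add_right_eq_sub] at this
          exact this
        have h4 : (b : ℝ) * ‖(ze (y - y') : E n)‖ = ‖(ze (x' - x) : E n)‖ := by
          rw [← h3, ze_smul, norm_smul]; simp
        have h5 : ‖(ze (x' - x) : E n)‖ ≤ 2 * t * σ := by
          rw [ze_sub]
          refine (norm_sub_le _ _).trans ?_
          have a1 := (hS x' hxy'.1).2.2
          have a2 := (hS x hxy.1).2.2
          linarith
        have hb0 : (0 : ℝ) < b := by positivity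
        have h6 : (b : ℝ) * (c * σ) ≤ 2 * t * σ := by
          calc (b : ℝ) * (c * σ) ≤ b * ‖(ze (y - y') : E n)‖ :=
                mul_le_mul_of_nonneg_left h2 hb0.le
            _ ≤ 2 * t * σ := by rw [h4]; exact h5
        nlinarith
      subst hyy
      have hxx : x = x' := add_right_cancel heq
      rw [hxx]
    · intro z hz
      obtain ⟨⟨x, y⟩, hxy, rfl⟩ := Finset.mem_image.1 hz
      rw [Finset.mem_product] at hxy
      simp only at hxy ⊢
      obtain ⟨hx1, hx2, hx3⟩ := hS x hxy.1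
      obtain ⟨hy1, hy2, hy3⟩ := hSk y hxy.2
      refine ⟨Λ.add_mem hx1 (Λ.zsmul_mem hy1 _), ?_, ?_⟩
      · rw [ze_add, ze_smul]
        exact Submodule.add_mem _ hx2 (Submodule.smul_mem _ _ hy2)
      · rw [ze_add, ze_smul]
        refine (norm_add_le _ _).trans ?_
        rw [norm_smul]
        have h7 : ‖((b : ℤ) : ℝ)‖ = b := by simp
        rw [h7]
        have hb0 : (0 : ℝ) ≤ b := by positivity
        have hb2 : (2 : ℝ) ≤ b := by exact_mod_cast hb
        have h8 := mul_le_mul_of_nonneg_left hy3 hb0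
        have h9 : t * σ + b * (t * (b ^ k - 1) * σ) ≤ t * (b ^ (k + 1) - 1) * σ := by
          rw [pow_succ]
          have : 0 ≤ t * σ * (b - 2) := by
            have := mul_nonneg ht0 hσ.le
            nlinarith
          nlinarith
        linarith

end Pool.Agent.Helper30.Cov
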