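import Mathlib
import Pool.Agent.Helper30.CovPower
open MeasureTheory Filter Topology Set TopologicalSpace
open scoped FourierTransform RealInnerProductSpace

namespace Pool.Agent.Helper30.Cov

/-- few short lattice vectors in a low-dimensional subspace -/
lemma few_points {n N G K p : ℕ} [Fact p.Prime] {Λ : AddSubgroup (Fin n → ℤ)} {R Θ σ t c : ℝ}
    (hσ : 0 < σ) (ht1 : 1 ≤ t) (hRσ : R = t * σ) (hΘ : 1 ≤ Θ) (hK : Θ ^ N ≤ 2 ^ K)
    (hbad : NoBad Λ N G K R Θ p)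
    (hG : ∀ S : Finset (Fin n → ℤ), (∀ z ∈ S, z ∈ Λ ∧ ‖(ze z : E n)‖ ≤ N * R) → S.card ≤ G)
    (hp : (N.factorial : ℝ) * (R ^ 2) ^ N < p) (hR1 : 1 ≤ R)
    (hmin : ∀ z ∈ Λ, z ≠ 0 → c * σ ≤ ‖(ze z : E n)‖)
    {b : ℕ} (hb : 2 ≤ b) (hbc : 2 * t < b * c) (k : ℕ)
    (W : Submodule ℝ (E n)) (hW : Module.finrank ℝ W ≤ N) (S : Finset (Fin n → ℤ))
    (hS : ∀ z ∈ S, z ∈ Λ ∧ ze z ∈ W ∧ ‖(ze z : E n)‖ ≤ R) :
    (S.card : ℝ) ^ k ≤ Real.exp (Real.pi * (t * b ^ k) ^ 2) * (8 * Θ) ^ N := by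
  obtain ⟨j, hj, T, hT, hTall⟩ := exists_seq W hW
    {z | z ∈ Λ ∧ ze z ∈ W ∧ ‖(ze z : E n)‖ ≤ R} (fun z hz => hz.2.1)
  obtain ⟨Sk, hcard, hSk⟩ := power_sets Λ (Us T j) hσ (by linarith) hb hbc hmin S
    (fun z hz => ⟨(hS z hz).1, hTall z (hS z hz), by rw [← hRσ]; exact (hS z hz).2.2⟩) k
  have h1 := count_span hσ ht1 hRσ hΘ hK hbad hG hp T j hj (fun b hb => (hT b hb).1.1)
    (fun b hb => (hT b hb).2) (fun b hb => (hT b hb).1.2.2) hR1 (B := t * b ^ k) Sk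
    (fun z hz => ⟨(hSk z hz).1, (hSk z hz).2.1, by
      refine (hSk z hz).2.2.trans ?_
      have h2 : (0:ℝ) ≤ t * σ := by positivity
      nlinarith⟩)
  rw [hcard] at h1
  push_cast at h1
  refine h1.trans (mul_le_mul_of_nonneg_left ?_ (Real.exp_pos _).le)
  exact pow_le_pow_right₀ (by linarith) hj

open Classical in
/-- theta sum over the nonzero vectors of `Λ` in `W` -/
noncomputable def thL {n : ℕ} (Λ : AddSubgroup (Fin n → ℤ)) (W : Submodule ℝ (E n)) (s : ℝ) : ℝ :=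
  ∑' z : Fin n → ℤ, if (z ≠ 0 ∧ z ∈ Λ ∧ (ze z : E n) ∈ W) then
    Real.exp (-Real.pi * s ^ 2 * ‖(ze z : E n)‖ ^ 2) else 0

lemma summable_exp_ze {n : ℕ} {s : ℝ} (hs : 0 < s) :
    Summable (fun z : Fin n → ℤ => Real.exp (-Real.pi * s ^ 2 * ‖(ze z : E n)‖ ^ 2)) :=
  (hasSum_gauss_ze (show 0 < s ^ 2 by positivity)).summable

lemma summable_ite_exp {n : ℕ} {s : ℝ} (hs : 0 < s) (P : (Fin n → ℤ) → Prop) [DecidablePred P] :
    Summable (fun z : Fin n → ℤ => if P z then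
      Real.exp (-Real.pi * s ^ 2 * ‖(ze z : E n)‖ ^ 2) else 0) := by
  refine Summable.of_nonneg_of_le (fun z => ?_) (fun z => ?_) (summable_exp_ze hs)
  · split_ifs
    · exact (Real.exp_pos _).le
    · exact le_rfl
  · split_ifs
    · exact le_rfl
    · exact (Real.exp_pos _).le

lemma thL_nonneg {n : ℕ} (Λ : AddSubgroup (Fin n → ℤ)) (W : Submodule ℝ (E n)) (s : ℝ) :
    0 ≤ thL Λ W s := by
  unfold thL
  refine tsum_nonneg (fun z => ?_)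
  split_ifs
  · exact (Real.exp_pos _).le
  · exact le_rfl

lemma thL_mono {n : ℕ} (Λ : AddSubgroup (Fin n → ℤ)) {W W' : Submodule ℝ (E n)} (h : W ≤ W')
    {s : ℝ} (hs : 0 < s) : thL Λ W s ≤ thL Λ W' s := by
  classical
  unfold thL
  have h1 := summable_ite_exp (n := n) hs (fun z => z ≠ 0 ∧ z ∈ Λ ∧ (ze z : E n) ∈ W)
  have h2 := summable_ite_exp (n := n) hs (fun z => z ≠ 0 ∧ z ∈ Λ ∧ (ze z : E n) ∈ W')
  refine hasSum_le ?_ h1.hasSum h2.hasSum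
  intro z
  by_cases hz : z ≠ 0 ∧ z ∈ Λ ∧ (ze z : E n) ∈ W
  · rw [if_pos hz, if_pos ⟨hz.1, hz.2.1, h hz.2.2⟩]
  · rw [if_neg hz]
    split_ifs
    · exact (Real.exp_pos _).le
    · exact le_rfl

/-- the theta sum over `W` split into short and long vectors -/
lemma theta_split {n : ℕ} (Λ : AddSubgroup (Fin n → ℤ)) (W : Submodule ℝ (E n)) {s R m : ℝ}
    (hs : 0 < s) (hR : 0 ≤ R) (hm : 0 ≤ m)
    (hmin : ∀ z ∈ Λ, z ≠ 0 → m ≤ ‖(ze z : E n)‖) (M : ℝ)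
    (hM : ∀ S : Finset (Fin n → ℤ), (∀ z ∈ S, z ∈ Λ ∧ ze z ∈ W ∧ ‖(ze z : E n)‖ ≤ R) →
      (S.card : ℝ) ≤ M) :
    thL Λ W s ≤ M * Real.exp (-Real.pi * s ^ 2 * m ^ 2) +
      Real.exp (-(3 / 4) * Real.pi * s ^ 2 * R ^ 2) * thL Λ ⊤ (s / 2) := by
  classical
  have hfin : {z : Fin n → ℤ | z ∈ Λ ∧ (ze z : E n) ∈ W ∧ ‖(ze z : E n)‖ ≤ R}.Finite :=
    (finite_ball R).subset (fun z hz => hz.2.2)
  set S := hfin.toFinset with hS
  have hSm : ∀ z, z ∈ S ↔ z ∈ Λ ∧ (ze z : E n) ∈ W ∧ ‖(ze z : E n)‖ ≤ R := by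
    intro z; rw [hS, Set.Finite.mem_toFinset]; rfl
  have hcard := hM S (fun z hz => (hSm z).1 hz)
  have h1 := (summable_ite_exp (n := n) hs (fun z => z ≠ 0 ∧ z ∈ Λ ∧ (ze z : E n) ∈ W)).hasSum
  have h2 := (summable_ite_exp (n := n) (show 0 < s / 2 by positivity)
    (fun z => z ≠ 0 ∧ z ∈ Λ ∧ (ze z : E n) ∈ (⊤ : Submodule ℝ (E n)))).hasSum
  have h3 := h2.mul_left (Real.exp (-(3 / 4) * Real.pi * s ^ 2 * R ^ 2))
  have h4 : HasSum (fun z : Fin n → ℤ => if z ∈ S then Real.exp (-Real.pi * s ^ 2 * m ^ 2) else 0)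
      (∑ z ∈ S, Real.exp (-Real.pi * s ^ 2 * m ^ 2)) := by
    have h5 : HasSum (fun z : Fin n → ℤ =>
      if z ∈ S then Real.exp (-Real.pi * s ^ 2 * m ^ 2) else 0)
      (∑ z ∈ S, if z ∈ S then Real.exp (-Real.pi * s ^ 2 * m ^ 2) else 0) :=
      hasSum_sum_of_ne_finset_zero (fun z hz => if_neg hz)
    rw [Finset.sum_congr rfl (fun z hz => if_pos hz)] at h5
    exact h5
  rw [Finset.sum_const, nsmul_eq_mul] at h4
  have h6 := h4.add h3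
  have hle : thL Λ W s ≤ (S.card : ℝ) * Real.exp (-Real.pi * s ^ 2 * m ^ 2) +
      Real.exp (-(3 / 4) * Real.pi * s ^ 2 * R ^ 2) * thL Λ ⊤ (s / 2) := by
    refine hasSum_le ?_ h1 h6
    intro z
    by_cases hz : z ≠ 0 ∧ z ∈ Λ ∧ (ze z : E n) ∈ W
    · have e1 : (if (z ≠ 0 ∧ z ∈ Λ ∧ (ze z : E n) ∈ (⊤ : Submodule ℝ (E n))) then
            Real.exp (-Real.pi * (s / 2) ^ 2 * ‖(ze z : E n)‖ ^ 2) else 0) =
          Real.exp (-Real.pi * (s / 2) ^ 2 * ‖(ze z : E n)‖ ^ 2) :=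
        if_pos ⟨hz.1, hz.2.1, Submodule.mem_top⟩
      rw [if_pos hz, e1]
      by_cases hzR : ‖(ze z : E n)‖ ≤ R
      · rw [if_pos ((hSm z).2 ⟨hz.2.1, hz.2.2, hzR⟩)]
        have h7 : Real.exp (-Real.pi * s ^ 2 * ‖(ze z : E n)‖ ^ 2) ≤
            Real.exp (-Real.pi * s ^ 2 * m ^ 2) := by
          rw [Real.exp_le_exp]
          have h8 := pow_le_pow_left₀ hm (hmin z hz.2.1 hz.1) 2
          have h9 : 0 ≤ Real.pi * s ^ 2 := by positivity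
          nlinarith
        have h10 : 0 ≤ Real.exp (-(3 / 4) * Real.pi * s ^ 2 * R ^ 2) *
          Real.exp (-Real.pi * (s / 2) ^ 2 * ‖(ze z : E n)‖ ^ 2) := by positivity
        linarith
      · push Not at hzR
        have h7 : Real.exp (-Real.pi * s ^ 2 * ‖(ze z : E n)‖ ^ 2) ≤
            Real.exp (-(3 / 4) * Real.pi * s ^ 2 * R ^ 2) *
            Real.exp (-Real.pi * (s / 2) ^ 2 * ‖(ze z : E n)‖ ^ 2) := by
          rw [← Real.exp_add, Real.exp_le_exp]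
          have h8 := pow_le_pow_left₀ hR hzR.le 2
          have h9 : 0 ≤ Real.pi * s ^ 2 := by positivity
          nlinarith [mul_le_mul_of_nonneg_left h8 h9]
        have h11 : 0 ≤ (if z ∈ S then Real.exp (-Real.pi * s ^ 2 * m ^ 2) else 0) := by
          split_ifs
          · exact (Real.exp_pos _).le
          · exact le_rfl
        linarith
    · rw [if_neg hz]
      have h11 : 0 ≤ (if z ∈ S then Real.exp (-Real.pi * s ^ 2 * m ^ 2) else 0) := by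
        split_ifs
        · exact (Real.exp_pos _).le
        · exact le_rfl
      have h12 : 0 ≤ Real.exp (-(3 / 4) * Real.pi * s ^ 2 * R ^ 2) *
          (if (z ≠ 0 ∧ z ∈ Λ ∧ (ze z : E n) ∈ (⊤ : Submodule ℝ (E n))) then
            Real.exp (-Real.pi * (s / 2) ^ 2 * ‖(ze z : E n)‖ ^ 2) else 0) := by
        apply mul_nonneg (Real.exp_pos _).le
        split_ifs
        · exact (Real.exp_pos _).le
        · exact le_rfl
      linarith
  refine hle.trans (add_le_add ?_ le_rfl)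
  exact mul_le_mul_of_nonneg_right hcard (Real.exp_pos _).le

/-- counting points of `Λ` in a ball through the theta sum -/
lemma card_ball_le {n : ℕ} (Λ : AddSubgroup (Fin n → ℤ)) {s R : ℝ} (hs : 0 < s)
    (S : Finset (Fin n → ℤ)) (hS : ∀ z ∈ S, z ∈ Λ ∧ ‖(ze z : E n)‖ ≤ R) :
    (S.card : ℝ) ≤ Real.exp (Real.pi * s ^ 2 * R ^ 2) * (1 + thL Λ ⊤ s) := by
  classical
  have h1 := (summable_ite_exp (n := n) hs
    (fun z => z ≠ 0 ∧ z ∈ Λ ∧ (ze z : E n) ∈ (⊤ : Submodule ℝ (E n)))).hasSum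
  have h0 : HasSum (fun z : Fin n → ℤ => if z = 0 then (1 : ℝ) else 0) 1 := hasSum_ite_eq 0 1
  have h2 := (h0.add h1)
  have hnn : ∀ z : Fin n → ℤ, 0 ≤ (if z = 0 then (1 : ℝ) else 0) +
      (if (z ≠ 0 ∧ z ∈ Λ ∧ (ze z : E n) ∈ (⊤ : Submodule ℝ (E n))) then
        Real.exp (-Real.pi * s ^ 2 * ‖(ze z : E n)‖ ^ 2) else 0) := by
    intro z
    apply add_nonneg
    · split_ifs <;> norm_num
    · split_ifs
      · exact (Real.exp_pos _).le
      · exact le_rfl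
  have h3 := sum_le_hasSum S (fun z _ => hnn z) h2
  have h4 : (S.card : ℝ) * Real.exp (-(Real.pi * s ^ 2 * R ^ 2)) ≤ ∑ z ∈ S,
      ((if z = 0 then (1 : ℝ) else 0) +
      (if (z ≠ 0 ∧ z ∈ Λ ∧ (ze z : E n) ∈ (⊤ : Submodule ℝ (E n))) then
        Real.exp (-Real.pi * s ^ 2 * ‖(ze z : E n)‖ ^ 2) else 0)) := by
    rw [← nsmul_eq_mul]
    refine Finset.card_nsmul_le_sum _ _ _ (fun z hz => ?_)
    by_cases hz0 : z = 0
    · rw [if_pos hz0, if_neg (fun h => h.1 hz0), add_zero, Real.exp_le_one_iff]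
      have : 0 ≤ Real.pi * s ^ 2 * R ^ 2 := by positivity
      linarith
    · rw [if_neg hz0, if_pos ⟨hz0, (hS z hz).1, Submodule.mem_top⟩, zero_add, Real.exp_le_exp]
      have h8 := pow_le_pow_left₀ (norm_nonneg _) (hS z hz).2 2
      have h9 : 0 ≤ Real.pi * s ^ 2 := by positivity
      nlinarith [mul_le_mul_of_nonneg_left h8 h9]
  have h5 := h4.trans h3
  rw [Real.exp_neg, ← div_eq_mul_inv, div_le_iff₀ (Real.exp_pos _)] at h5
  have h6 : thL Λ ⊤ s = ∑' z : Fin n → ℤ,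
    (if (z ≠ 0 ∧ z ∈ Λ ∧ (ze z : E n) ∈ (⊤ : Submodule ℝ (E n))) then
        Real.exp (-Real.pi * s ^ 2 * ‖(ze z : E n)‖ ^ 2) else 0) := rfl
  rw [h6]
  linarith

end Pool.Agent.Helper30.Cov
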