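import Mathlib
import Pool.Agent.Helper30.CovTheta
open MeasureTheory Filter Topology Set TopologicalSpace
open scoped FourierTransform RealInnerProductSpace

namespace Pool.Agent.Helper30.Cov

/-- the lattice of integer points killed by the form `a` modulo `p` -/
def La {n : ℕ} (p : ℕ) (a : Fin n → ZMod p) : AddSubgroup (Fin n → ℤ) where
  carrier := {z | ∑ i, ((z i : ℤ) : ZMod p) * a i = 0}
  zero_mem' := by simp
  add_mem' := by
    intro x y hx hy
    simp only [Set.mem_ofPred_eq, Pi.add_apply, Int.cast_add, add_mul, Finset.sum_add_distrib] at *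
    rw [hx, hy, add_zero]
  neg_mem' := by
    intro x hx
    simp only [Set.mem_ofPred_eq, Pi.neg_apply, Int.cast_neg, neg_mul, Finset.sum_neg_distrib] at *
    rw [hx, neg_zero]

lemma mem_La {n : ℕ} {p : ℕ} {a : Fin n → ZMod p} {z : Fin n → ℤ} :
    z ∈ La p a ↔ ∑ i, ((z i : ℤ) : ZMod p) * a i = 0 := Iff.rfl

open Classical in
/-- the probability space: forms with `a i0 = 1` -/
noncomputable def Om {n : ℕ} (p : ℕ) [Fact p.Prime] (i0 : Fin n) : Finset (Fin n → ZMod p) :=
  Finset.univ.filter (fun a => a i0 = 1)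

lemma mem_Om {n p : ℕ} [Fact p.Prime] {i0 : Fin n} {a : Fin n → ZMod p} :
    a ∈ Om p i0 ↔ a i0 = 1 := by
  unfold Om; simp

lemma card_Om {n p : ℕ} [Fact p.Prime] (i0 : Fin n) : (Om p i0).card = p ^ (n - 1) := by
  classical
  have h : Om p i0 = Fintype.piFinset (fun i => if i = i0 then ({1} : Finset (ZMod p)) else
      Finset.univ) := by
    ext a
    rw [mem_Om, Fintype.mem_piFinset]
    constructor
    · intro ha i
      split_ifs with hi
      · rw [hi, ha]; simp
      · simp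
    · intro ha
      have := ha i0
      simpa using this
  rw [h, Fintype.card_piFinset]
  have h2 : ∀ i, (if i = i0 then ({1} : Finset (ZMod p)) else Finset.univ).card =
      if i = i0 then 1 else p := by
    intro i
    split_ifs
    · simp
    · rw [Finset.card_univ, ZMod.card]
  simp_rw [h2]
  rw [Finset.prod_ite]
  simp only [Finset.prod_const_one, one_mul, Finset.prod_const]
  congr 1
  rw [Finset.filter_ne', Finset.card_erase_of_mem (Finset.mem_univ _), Finset.card_univ,
    Fintype.card_fin]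

/-- number of forms killing independent vectors, real form -/
lemma card_kill {n j p : ℕ} [Fact p.Prime] (i0 : Fin n) (u : ℕ → Fin n → ℤ)
    (hM : ∀ c : Fin j → ZMod p,
      Matrix.vecMul c ((rowsM u j).map (Int.castRingHom (ZMod p))) = 0 → c = 0)
    (S : Finset (Fin n → ZMod p)) (hS : ∀ a ∈ S, a i0 = 1 ∧ ∀ b < j, u b ∈ La p a) :
    (S.card : ℝ) * (p : ℝ) ^ j ≤ 2 * (p : ℝ) ^ (n - 1) := by
  have h := card_forms ((rowsM u j).map (Int.castRingHom (ZMod p))) hM i0
    S (by
      intro a ha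
      refine ⟨(hS a ha).1, ?_⟩
      funext b
      have h1 := mem_La.1 ((hS a ha).2 b b.2)
      simpa [Matrix.mulVec, dotProduct, rowsM] using h1)
  exact_mod_cast h

open Classical in
/-- the average of the theta sum over the random lattices -/
lemma avg_theta {n p : ℕ} [Fact p.Prime] (i0 : Fin n) {s : ℝ} (hs : 0 < s) :
    ∑ a ∈ Om p i0, thL (La p a) ⊤ s ≤ (p : ℝ) ^ (n - 1) * (2 / p * Th (s ^ 2) ^ n +
      Real.exp (-Real.pi * s ^ 2 * p ^ 2 / 2) * Th (s ^ 2 / 2) ^ n) := by
  have hp : p.Prime := Fact.out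
  have hp0 : (0 : ℝ) < p := by exact_mod_cast hp.pos
  have hs1 : ∀ a : Fin n → ZMod p, HasSum (fun z : Fin n → ℤ =>
      if (z ≠ 0 ∧ z ∈ La p a ∧ (ze z : E n) ∈ (⊤ : Submodule ℝ (E n))) then
        Real.exp (-Real.pi * s ^ 2 * ‖(ze z : E n)‖ ^ 2) else 0) (thL (La p a) ⊤ s) := by
    intro a
    exact (summable_ite_exp hs _).hasSum
  have h1 := hasSum_sum (s := Om p i0) (fun a _ => hs1 a)
  have h2 := (hasSum_gauss_ze (n := n) (show 0 < s ^ 2 by positivity)).mul_left
    ((p : ℝ) ^ (n - 1) * (2 / p))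
  have h3 := (hasSum_gauss_ze (n := n) (show 0 < s ^ 2 / 2 by positivity)).mul_left
    ((p : ℝ) ^ (n - 1) * Real.exp (-Real.pi * s ^ 2 * p ^ 2 / 2))
  have h4 := h2.add h3
  have key : ∑ a ∈ Om p i0, thL (La p a) ⊤ s ≤
      (p : ℝ) ^ (n - 1) * (2 / p) * Th (s ^ 2) ^ n +
      (p : ℝ) ^ (n - 1) * Real.exp (-Real.pi * s ^ 2 * p ^ 2 / 2) * Th (s ^ 2 / 2) ^ n := by
    refine hasSum_le ?_ h1 h4
    intro z
    have e1 : ∑ a ∈ Om p i0, (if (z ≠ 0 ∧ z ∈ La p a ∧ (ze z : E n) ∈ (⊤ : Submodule ℝ (E n))) then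
        Real.exp (-Real.pi * s ^ 2 * ‖(ze z : E n)‖ ^ 2) else 0) =
        (((Om p i0).filter (fun a => z ≠ 0 ∧ z ∈ La p a)).card : ℝ) *
          Real.exp (-Real.pi * s ^ 2 * ‖(ze z : E n)‖ ^ 2) := by
      rw [← Finset.sum_filter, Finset.sum_const, nsmul_eq_mul]
      congr 3
      ext a
      simp
    rw [e1]
    by_cases hz : z = 0
    · have e2 : (Om p i0).filter (fun a => z ≠ 0 ∧ z ∈ La p a) = ∅ := by
        ext a; simp [hz]
      rw [e2, Finset.card_empty, Nat.cast_zero, zero_mul]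
      positivity
    by_cases hzp : ∀ i, ((z i : ℤ) : ZMod p) = 0
    · -- `p ∣ z`
      have hcard : (((Om p i0).filter (fun a => z ≠ 0 ∧ z ∈ La p a)).card : ℝ) ≤
          (p : ℝ) ^ (n - 1) := by
        have := Finset.card_filter_le (Om p i0) (fun a => z ≠ 0 ∧ z ∈ La p a)
        rw [card_Om] at this
        exact_mod_cast this
      have hnorm : (p : ℝ) ^ 2 ≤ ‖(ze z : E n)‖ ^ 2 := by
        have hex : ∃ i, z i ≠ 0 := by
          by_contra hcon
          push Not at hcon
          exact hz (funext hcon)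
        obtain ⟨i, hi⟩ := hex
        have hdvd : (p : ℤ) ∣ z i := (ZMod.intCast_zmod_eq_zero_iff_dvd _ _).1 (hzp i)
        have h5 : (p : ℤ) ≤ |z i| := by
          have := Int.le_of_dvd (abs_pos.2 hi) ((dvd_abs _ _).2 hdvd)
          exact this
        have h6 : (p : ℝ) ≤ |(z i : ℝ)| := by exact_mod_cast h5
        rw [norm_ze_sq]
        calc (p : ℝ) ^ 2 ≤ |(z i : ℝ)| ^ 2 := pow_le_pow_left₀ hp0.le h6 2
          _ = (z i : ℝ) ^ 2 := sq_abs _
          _ ≤ ∑ i, (z i : ℝ) ^ 2 :=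
              Finset.single_le_sum (f := fun i => (z i : ℝ) ^ 2) (fun i _ => sq_nonneg _)
                (Finset.mem_univ i)
      have h7 : Real.exp (-Real.pi * s ^ 2 * ‖(ze z : E n)‖ ^ 2) ≤
          Real.exp (-Real.pi * s ^ 2 * p ^ 2 / 2) *
          Real.exp (-Real.pi * (s ^ 2 / 2) * ‖(ze z : E n)‖ ^ 2) := by
        rw [← Real.exp_add, Real.exp_le_exp]
        have h9 : 0 ≤ Real.pi * s ^ 2 := by positivity
        nlinarith [mul_le_mul_of_nonneg_left hnorm h9]
      have h8 : (((Om p i0).filter (fun a => z ≠ 0 ∧ z ∈ La p a)).card : ℝ) *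
          Real.exp (-Real.pi * s ^ 2 * ‖(ze z : E n)‖ ^ 2) ≤
          (p : ℝ) ^ (n - 1) * (Real.exp (-Real.pi * s ^ 2 * p ^ 2 / 2) *
          Real.exp (-Real.pi * (s ^ 2 / 2) * ‖(ze z : E n)‖ ^ 2)) :=
        mul_le_mul hcard h7 (Real.exp_pos _).le (by positivity)
      have h10 : 0 ≤ (p : ℝ) ^ (n - 1) * (2 / p) *
        Real.exp (-Real.pi * s ^ 2 * ‖(ze z : E n)‖ ^ 2) := by positivity
      linarith
    · -- `z` nonzero modulo `p`
      have hk := card_kill (j := 1) i0 (fun _ => z) (p := p) (by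
        intro c hc
        push Not at hzp
        obtain ⟨i, hi⟩ := hzp
        have h5 := congrFun hc i
        simp only [Matrix.vecMul, dotProduct, Matrix.map_apply, rowsM, Matrix.of_apply,
          Fin.sum_univ_one, Pi.zero_apply] at h5
        have h6 : c 0 = 0 := by
          rcases mul_eq_zero.1 h5 with h | h
          · exact h
          · exact absurd h hi
        funext x
        rw [Subsingleton.elim x 0, h6]; rfl)
        ((Om p i0).filter (fun a => z ≠ 0 ∧ z ∈ La p a)) (by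
          intro a ha
          rw [Finset.mem_filter, mem_Om] at ha
          exact ⟨ha.1, fun b _ => ha.2.2⟩)
      have hcard : (((Om p i0).filter (fun a => z ≠ 0 ∧ z ∈ La p a)).card : ℝ) ≤
          (p : ℝ) ^ (n - 1) * (2 / p) := by
        rw [pow_one] at hk
        have h7 : (p : ℝ) ^ (n - 1) * (2 / p) = 2 * (p : ℝ) ^ (n - 1) / p := by ring
        rw [h7, le_div_iff₀ hp0]
        exact hk
      have h8 := mul_le_mul_of_nonneg_right hcard
        (Real.exp_pos (-Real.pi * s ^ 2 * ‖(ze z : E n)‖ ^ 2)).le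
      have h10 : 0 ≤ (p : ℝ) ^ (n - 1) * Real.exp (-Real.pi * s ^ 2 * p ^ 2 / 2) *
        Real.exp (-Real.pi * (s ^ 2 / 2) * ‖(ze z : E n)‖ ^ 2) := by positivity
      linarith
  refine key.trans (le_of_eq ?_)
  ring

end Pool.Agent.Helper30.Cov
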