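import Mathlib
import Pool.Agent.Helper30.CovAvg
open MeasureTheory Filter Topology Set TopologicalSpace
open scoped FourierTransform RealInnerProductSpace

namespace Pool.Agent.Helper30.Cov

lemma avg_theta' {n p : ℕ} [Fact p.Prime] (i0 : Fin n) {ρ c : ℝ} (hρ : 0 < ρ)
    (hρn : ρ ^ n = p) (hc : 0 < c) (hcρ : c ≤ ρ)
    (hE : Real.exp (-Real.pi * (c / ρ) ^ 2 * p ^ 2 / 2) * (3 / c) ^ n * p ≤ (2 / c) ^ n) :
    ∑ a ∈ Om p i0, thL (La p a) ⊤ (c / ρ) ≤ (p : ℝ) ^ (n - 1) * (3 * (2 / c) ^ n) := by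
  have hp : p.Prime := Fact.out
  have hp0 : (0 : ℝ) < p := by exact_mod_cast hp.pos
  have hs : 0 < c / ρ := by positivity
  have hs1 : c / ρ ≤ 1 := by rw [div_le_one hρ]; exact hcρ
  refine (avg_theta i0 hs).trans (mul_le_mul_of_nonneg_left ?_ (by positivity))
  have h1 : Th ((c / ρ) ^ 2) ≤ 2 / c * ρ := by
    have := Th_le_small (show 0 < (c / ρ) ^ 2 by positivity) (by nlinarith)
    rw [Real.sqrt_sq hs.le] at this
    refine this.trans (le_of_eq ?_)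
    field_simp
  have h2 : Th ((c / ρ) ^ 2 / 2) ≤ 3 / c * ρ := by
    have := Th_le_small (show 0 < (c / ρ) ^ 2 / 2 by positivity) (by nlinarith)
    rw [Real.sqrt_div (by positivity), Real.sqrt_sq hs.le, inv_div] at this
    refine this.trans ?_
    have h4 : Real.sqrt 2 ≤ 3 / 2 := by
      rw [Real.sqrt_le_left (by norm_num)]; norm_num
    have h5 : 2 * (Real.sqrt 2 / (c / ρ)) = 2 * Real.sqrt 2 * (ρ / c) := by
      field_simp
    rw [h5]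
    have h6 : 3 / c * ρ = 3 * (ρ / c) := by ring
    rw [h6]
    have h7 : 0 < ρ / c := by positivity
    nlinarith
  have h3 : Th ((c / ρ) ^ 2) ^ n ≤ (2 / c) ^ n * p := by
    refine (pow_le_pow_left₀ (Th_pos (by positivity)).le h1 n).trans (le_of_eq ?_)
    rw [mul_pow, hρn]
  have h4 : Th ((c / ρ) ^ 2 / 2) ^ n ≤ (3 / c) ^ n * p := by
    refine (pow_le_pow_left₀ (Th_pos (by positivity)).le h2 n).trans (le_of_eq ?_)
    rw [mul_pow, hρn]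
  have h5 : 2 / (p : ℝ) * Th ((c / ρ) ^ 2) ^ n ≤ 2 * (2 / c) ^ n := by
    have h6 := mul_le_mul_of_nonneg_left h3 (show 0 ≤ 2 / (p : ℝ) by positivity)
    refine h6.trans (le_of_eq ?_)
    field_simp
  have h7 := mul_le_mul_of_nonneg_left h4
    (Real.exp_pos (-Real.pi * (c / ρ) ^ 2 * p ^ 2 / 2)).le
  have h8 : Real.exp (-Real.pi * (c / ρ) ^ 2 * p ^ 2 / 2) * ((3 / c) ^ n * p) ≤ (2 / c) ^ n := by
    rw [← mul_assoc]; exact hE
  linarith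

/-- a heavy state that is independent modulo `p` -/
def IsBad {n : ℕ} (Θ : ℝ) (p j : ℕ) (s : (ℕ → Fin n → ℤ) × ℕ) : Prop :=
  Θ ^ j ≤ (s.2 : ℝ) ∧ ∀ c : Fin j → ZMod p,
      Matrix.vecMul c ((rowsM s.1 j).map (Int.castRingHom (ZMod p))) = 0 → c = 0

open Classical in
/-- heavy states that are independent modulo `p` -/
noncomputable def BadS {n : ℕ} (N G K : ℕ) (R Θ : ℝ) (p j : ℕ) :
    Finset ((ℕ → Fin n → ℤ) × ℕ) :=
  (Z N G K R j).filter (fun s => IsBad Θ p j s)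

lemma mem_BadS {n N G K : ℕ} {R Θ : ℝ} {p j : ℕ} {s : (ℕ → Fin n → ℤ) × ℕ} :
    s ∈ BadS N G K R Θ p j ↔ s ∈ Z N G K R j ∧ IsBad Θ p j s := by
  classical
  unfold BadS
  exact Finset.mem_filter

lemma card_BadS {N G K p : ℕ} (hN : 2 ≤ N) {r Θ : ℝ} (hr : (G : ℝ) * 2 ^ K ≤ r) (hΘ : 0 < Θ)
    (hval : 4 * (KC * r) ^ (4 * N) ≤ Θ ^ (2 * N) * (p / 64)) (j : ℕ) (hj : j ≤ N) :
    ((BadS N G K (Real.sqrt (4 * N : ℕ) * r) Θ p j :
      Finset ((ℕ → Fin (4 * N) → ℤ) × ℕ)).card : ℝ) ≤ (p / 64 : ℝ) ^ j := by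
  classical
  set R := Real.sqrt (4 * N : ℕ) * r with hR
  have h1 := Phi_Z_le hN hr j hj
  rw [← hR] at h1
  have h2 : ((BadS N G K R Θ p j : Finset ((ℕ → Fin (4 * N) → ℤ) × ℕ)).card : ℝ) *
      (Θ ^ j) ^ (2 * N) ≤
      Phi N (Z N G K R j : Finset ((ℕ → Fin (4 * N) → ℤ) × ℕ)) := by
    unfold Phi
    have hsub : (BadS N G K R Θ p j : Finset ((ℕ → Fin (4 * N) → ℤ) × ℕ)) ⊆ Z N G K R j :=
      fun s hs => (mem_BadS.1 hs).1
    refine le_trans ?_ (Finset.sum_le_sum_of_subset_of_nonneg hsub (fun s _ _ => by positivity))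
    rw [← nsmul_eq_mul]
    refine Finset.card_nsmul_le_sum _ _ _ (fun s hs => ?_)
    exact pow_le_pow_left₀ (by positivity) (mem_BadS.1 hs).2.1 _
  have h3 : (4 * (KC * r) ^ (4 * N)) ^ j ≤ (Θ ^ (2 * N) * (p / 64)) ^ j := by
    have hr0 : 0 ≤ r := le_trans (by positivity) hr
    have := KC_pos
    exact pow_le_pow_left₀ (by positivity) hval j
  have h4 := h2.trans (h1.trans h3)
  rw [mul_pow, ← pow_mul, ← pow_mul] at h4
  have h5 : Θ ^ (j * (2 * N)) = Θ ^ (2 * N * j) := by rw [mul_comm]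
  rw [h5, mul_comm] at h4
  exact le_of_mul_le_mul_left h4 (by positivity)

lemma sum_64 (N : ℕ) : ∑ j ∈ Finset.Icc 1 N, ((1 : ℝ) / 64) ^ j ≤ 1 / 16 := by
  have h1 : ∀ j ∈ Finset.Icc 1 N, ((1 : ℝ) / 64) ^ j ≤ 1 / 32 * ((2 : ℝ) ^ j)⁻¹ := by
    intro j hj
    rw [Finset.mem_Icc] at hj
    have h2 : (1 / 64 : ℝ) ^ j = (1 / 32) ^ j * ((2 : ℝ) ^ j)⁻¹ := by
      rw [← inv_pow, ← mul_pow]; norm_num
    rw [h2]
    refine mul_le_mul_of_nonneg_right ?_ (by positivity)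
    calc (1 / 32 : ℝ) ^ j ≤ (1 / 32) ^ 1 :=
          pow_le_pow_of_le_one (by norm_num) (by norm_num) hj.1
      _ = 1 / 32 := pow_one _
  refine (Finset.sum_le_sum h1).trans ?_
  rw [← Finset.mul_sum]
  have h3 : ∑ j ∈ Finset.Icc 1 N, ((2 : ℝ) ^ j)⁻¹ ≤ ∑ j ∈ Finset.range (N + 1), ((2 : ℝ) ^ j)⁻¹ := by
    refine Finset.sum_le_sum_of_subset_of_nonneg (fun x hx => ?_) (fun _ _ _ => by positivity)
    rw [Finset.mem_Icc] at hx
    rw [Finset.mem_range]; omega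
  have h4 := sum_half_le N
  linarith

open Classical in
/-- number of bad states contained in the lattice of `a` -/
noncomputable def badc {n : ℕ} (N G K : ℕ) (R Θ : ℝ) (p : ℕ) (a : Fin n → ZMod p) : ℝ :=
  ∑ j ∈ Finset.Icc 1 N, ∑ s ∈ (BadS N G K R Θ p j : Finset ((ℕ → Fin n → ℤ) × ℕ)),
    (if (∀ b < j, s.1 b ∈ La p a) then (1 : ℝ) else 0)

lemma badc_nonneg {n : ℕ} (N G K : ℕ) (R Θ : ℝ) (p : ℕ) (a : Fin n → ZMod p) :
    0 ≤ badc N G K R Θ p a := by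
  unfold badc
  refine Finset.sum_nonneg (fun j _ => Finset.sum_nonneg (fun s _ => ?_))
  split_ifs <;> norm_num

lemma badc_ge {n : ℕ} {N G K : ℕ} {R Θ : ℝ} {p : ℕ} {a : Fin n → ZMod p}
    (h : badc N G K R Θ p a < 1) : NoBad (La p a) N G K R Θ p := by
  classical
  intro j hj1 hjN s hs hΘs hmem
  by_contra hcon
  push Not at hcon
  have hsB : s ∈ (BadS N G K R Θ p j : Finset ((ℕ → Fin n → ℤ) × ℕ)) := by
    rw [mem_BadS]
    refine ⟨hs, hΘs, fun c hc => ?_⟩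
    by_contra hc0
    exact hcon c hc0 hc
  have h1 : (1 : ℝ) ≤ badc N G K R Θ p a := by
    unfold badc
    have e1 : (1 : ℝ) = (if (∀ b < j, s.1 b ∈ La p a) then (1 : ℝ) else 0) := (if_pos hmem).symm
    have e2 : (if (∀ b < j, s.1 b ∈ La p a) then (1 : ℝ) else 0) ≤
        ∑ s ∈ (BadS N G K R Θ p j : Finset ((ℕ → Fin n → ℤ) × ℕ)),
          (if (∀ b < j, s.1 b ∈ La p a) then (1 : ℝ) else 0) :=
      Finset.single_le_sum (f := fun s : (ℕ → Fin n → ℤ) × ℕ =>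
        (if (∀ b < j, s.1 b ∈ La p a) then (1 : ℝ) else 0))
        (fun s _ => by split_ifs <;> norm_num) hsB
    have e3 := Finset.single_le_sum (f := fun j : ℕ =>
      ∑ s ∈ (BadS N G K R Θ p j : Finset ((ℕ → Fin n → ℤ) × ℕ)),
        (if (∀ b < j, s.1 b ∈ La p a) then (1 : ℝ) else 0))
      (fun j _ => Finset.sum_nonneg (fun s _ => by split_ifs <;> norm_num))
      (Finset.mem_Icc.2 ⟨hj1, hjN⟩)
    calc (1 : ℝ) = _ := e1
      _ ≤ _ := e2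
      _ ≤ _ := e3
  linarith

lemma sum_badc {N p G K : ℕ} [Fact p.Prime] (hN : 2 ≤ N) (i0 : Fin (4 * N)) {r Θ : ℝ}
    (hr : (G : ℝ) * 2 ^ K ≤ r) (hΘ : 0 < Θ)
    (hval : 4 * (KC * r) ^ (4 * N) ≤ Θ ^ (2 * N) * (p / 64)) :
    ∑ a ∈ Om p i0, badc N G K (Real.sqrt (4 * N : ℕ) * r) Θ p a ≤
      (p : ℝ) ^ (4 * N - 1) * (1 / 8) := by
  classical
  have hp : p.Prime := Fact.out
  have hp0 : (0 : ℝ) < p := by exact_mod_cast hp.pos
  unfold badc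
  rw [Finset.sum_comm]
  have h1 : ∀ j ∈ Finset.Icc 1 N, ∑ a ∈ Om p i0,
      ∑ s ∈ (BadS N G K (Real.sqrt (4 * N : ℕ) * r) Θ p j :
        Finset ((ℕ → Fin (4 * N) → ℤ) × ℕ)),
        (if (∀ b < j, s.1 b ∈ La p a) then (1 : ℝ) else 0) ≤
      2 * (p : ℝ) ^ (4 * N - 1) * (1 / 64) ^ j := by
    intro j hj
    rw [Finset.mem_Icc] at hj
    rw [Finset.sum_comm]
    have h3 : ∀ s ∈ (BadS N G K (Real.sqrt (4 * N : ℕ) * r) Θ p j :
        Finset ((ℕ → Fin (4 * N) → ℤ) × ℕ)),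
        ∑ a ∈ Om p i0, (if (∀ b < j, s.1 b ∈ La p a) then (1 : ℝ) else 0) ≤
        2 * (p : ℝ) ^ (4 * N - 1) / p ^ j := by
      intro s hs
      rw [Finset.sum_boole, le_div_iff₀ (by positivity)]
      refine card_kill i0 s.1 (mem_BadS.1 hs).2.2 _ (fun a ha => ?_)
      rw [Finset.mem_filter, mem_Om] at ha
      exact ha
    refine (Finset.sum_le_sum h3).trans ?_
    rw [Finset.sum_const, nsmul_eq_mul]
    have h4 := card_BadS hN hr hΘ hval j hj.2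
    calc _ ≤ (p / 64 : ℝ) ^ j * (2 * (p : ℝ) ^ (4 * N - 1) / p ^ j) :=
          mul_le_mul_of_nonneg_right h4 (by positivity)
      _ = _ := by
          rw [div_pow, div_pow, one_pow]
          field_simp
  refine (Finset.sum_le_sum h1).trans ?_
  rw [← Finset.mul_sum]
  have h5 := mul_le_mul_of_nonneg_left (sum_64 N)
    (show 0 ≤ 2 * (p : ℝ) ^ (4 * N - 1) by positivity)
  linarith

/-- **Existence of a good lattice.** -/
theorem exists_good {N p G K : ℕ} [Fact p.Prime] (hN : 2 ≤ N) (i0 : Fin (4 * N)) {ρ ε r Θ : ℝ}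
    (hρ : 8 ≤ ρ) (hρn : ρ ^ (4 * N) = p) (hε : 0 < ε) (hε1 : ε ≤ 1)
    (hE1 : Real.exp (-Real.pi * (8 / ρ) ^ 2 * p ^ 2 / 2) * (3 / 8) ^ (4 * N) * p ≤
      (2 / 8) ^ (4 * N))
    (hE2 : Real.exp (-Real.pi * (ε / 2 / ρ) ^ 2 * p ^ 2 / 2) * (3 / (ε / 2)) ^ (4 * N) * p ≤
      (2 / (ε / 2)) ^ (4 * N))
    (hr : (G : ℝ) * 2 ^ K ≤ r) (hΘ : 0 < Θ)
    (hval : 4 * (KC * r) ^ (4 * N) ≤ Θ ^ (2 * N) * (p / 64)) :
    ∃ a : Fin (4 * N) → ZMod p, a i0 = 1 ∧ thL (La p a) ⊤ (8 / ρ) < (1 / 2) ^ (4 * N) ∧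
      thL (La p a) ⊤ (ε / 2 / ρ) < (8 / ε) ^ (4 * N) ∧
      NoBad (La p a) N G K (Real.sqrt (4 * N : ℕ) * r) Θ p := by
  have hp : p.Prime := Fact.out
  have hp0 : (0 : ℝ) < p := by exact_mod_cast hp.pos
  have hρ0 : 0 < ρ := by linarith
  have hA := avg_theta' i0 hρ0 hρn (by norm_num) hρ hE1
  have hB := avg_theta' i0 hρ0 hρn (by positivity) (by linarith) hE2
  have hC := sum_badc hN i0 hr hΘ hval
  obtain ⟨a, ha, hlt⟩ : ∃ a ∈ Om p i0, thL (La p a) ⊤ (8 / ρ) / (1 / 2) ^ (4 * N) +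
      thL (La p a) ⊤ (ε / 2 / ρ) / (8 / ε) ^ (4 * N) +
      badc N G K (Real.sqrt (4 * N : ℕ) * r) Θ p a < 1 := by
    by_contra hcon
    push Not at hcon
    have h1 := Finset.card_nsmul_le_sum (Om p i0) _ 1 hcon
    rw [card_Om, nsmul_eq_mul, mul_one, Finset.sum_add_distrib, Finset.sum_add_distrib,
      ← Finset.sum_div, ← Finset.sum_div] at h1
    push_cast at h1
    have e1 : (∑ a ∈ Om p i0, thL (La p a) ⊤ (8 / ρ)) / (1 / 2) ^ (4 * N) ≤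
        (p : ℝ) ^ (4 * N - 1) * (3 * (1 / 2) ^ (4 * N)) := by
      rw [div_le_iff₀ (by positivity)]
      refine hA.trans (le_of_eq ?_)
      have : ((2 : ℝ) / 8) ^ (4 * N) = (1 / 2) ^ (4 * N) * (1 / 2) ^ (4 * N) := by
        rw [← mul_pow]; norm_num
      rw [this]; ring
    have e2 : (∑ a ∈ Om p i0, thL (La p a) ⊤ (ε / 2 / ρ)) / (8 / ε) ^ (4 * N) ≤
        (p : ℝ) ^ (4 * N - 1) * (3 * (1 / 2) ^ (4 * N)) := by
      rw [div_le_iff₀ (by positivity)]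
      refine hB.trans (le_of_eq ?_)
      have : ((2 : ℝ) / (ε / 2)) ^ (4 * N) = (1 / 2) ^ (4 * N) * (8 / ε) ^ (4 * N) := by
        rw [← mul_pow]; congr 1; field_simp; norm_num
      rw [this]; ring
    have e3 : ((1 : ℝ) / 2) ^ (4 * N) ≤ 1 / 256 := by
      calc ((1 : ℝ) / 2) ^ (4 * N) ≤ (1 / 2) ^ 8 :=
            pow_le_pow_of_le_one (by norm_num) (by norm_num) (by omega)
        _ = 1 / 256 := by norm_num
    have hpp : 0 < (p : ℝ) ^ (4 * N - 1) := by positivity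
    have e4 := mul_le_mul_of_nonneg_left e3 hpp.le
    push_cast at hC
    linarith
  have hb0 := badc_nonneg N G K (Real.sqrt (4 * N : ℕ) * r) Θ p a
  have t1 := thL_nonneg (La p a) ⊤ (8 / ρ)
  have t2 := thL_nonneg (La p a) ⊤ (ε / 2 / ρ)
  have q1 : 0 ≤ thL (La p a) ⊤ (8 / ρ) / (1 / 2) ^ (4 * N) := by positivity
  have q2 : 0 ≤ thL (La p a) ⊤ (ε / 2 / ρ) / (8 / ε) ^ (4 * N) := by positivity
  refine ⟨a, mem_Om.1 ha, ?_, ?_, ?_⟩
  · have : thL (La p a) ⊤ (8 / ρ) / (1 / 2) ^ (4 * N) < 1 := by linarith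
    rwa [div_lt_one (by positivity)] at this
  · have : thL (La p a) ⊤ (ε / 2 / ρ) / (8 / ε) ^ (4 * N) < 1 := by linarith
    rwa [div_lt_one (by positivity)] at this
  · exact badc_ge (by linarith)

end Pool.Agent.Helper30.Cov
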