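import Mathlib
import Pool.Agent.Helper30.CovGood
open MeasureTheory Filter Topology Set TopologicalSpace
open scoped FourierTransform RealInnerProductSpace

namespace Pool.Agent.Helper30.Cov

lemma KC_ge : 1 ≤ KC := by
  unfold KC
  have : 1 ≤ Real.exp (2 * Real.pi) := Real.one_le_exp (by positivity)
  linarith

lemma exp_16 : (1 : ℝ) / 2 ≤ Real.exp (-(Real.pi * 64 / 400)) := by
  rw [Real.exp_neg]
  have h1 : Real.exp (Real.pi * 64 / 400) ≤ 2 := by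
    rw [← Real.le_log_iff_exp_le (by norm_num)]
    have := Real.log_two_gt_d9
    have := Real.pi_lt_d2
    linarith
  rw [one_div]
  exact inv_anti₀ (Real.exp_pos _) h1

/-- short vectors are not too short -/
lemma min_vec {n : ℕ} {Λ : AddSubgroup (Fin n → ℤ)} {ρ : ℝ} (hρ : 0 < ρ)
    (h : thL Λ ⊤ (8 / ρ) < (1 / 2) ^ n) (z : Fin n → ℤ) (hz : z ∈ Λ) (hz0 : z ≠ 0) :
    1 / 20 * (Real.sqrt n * ρ) ≤ ‖(ze z : E n)‖ := by
  classical
  by_contra hcon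
  push Not at hcon
  have hs : 0 < 8 / ρ := by positivity
  have h1 := (summable_ite_exp (n := n) hs
    (fun z => z ≠ 0 ∧ z ∈ Λ ∧ (ze z : E n) ∈ (⊤ : Submodule ℝ (E n)))).hasSum
  have h2 : Real.exp (-Real.pi * (8 / ρ) ^ 2 * ‖(ze z : E n)‖ ^ 2) ≤ thL Λ ⊤ (8 / ρ) := by
    have h3 := le_hasSum h1 z (fun w _ => by
      split_ifs
      · exact (Real.exp_pos _).le
      · exact le_rfl)
    rw [if_pos ⟨hz0, hz, Submodule.mem_top⟩] at h3
    exact h3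
  have h4 : ((1 : ℝ) / 2) ^ n ≤ Real.exp (-Real.pi * (8 / ρ) ^ 2 * ‖(ze z : E n)‖ ^ 2) := by
    calc ((1 : ℝ) / 2) ^ n ≤ Real.exp (-(Real.pi * 64 / 400)) ^ n :=
          pow_le_pow_left₀ (by norm_num) exp_16 n
      _ = Real.exp (n * (-(Real.pi * 64 / 400))) := (Real.exp_nat_mul _ _).symm
      _ ≤ _ := by
          rw [Real.exp_le_exp]
          have h5 := pow_le_pow_left₀ (norm_nonneg _) hcon.le 2
          rw [mul_pow, mul_pow, Real.sq_sqrt (Nat.cast_nonneg n)] at h5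
          have h6 : (8 / ρ) ^ 2 * ‖(ze z : E n)‖ ^ 2 ≤ (8 / ρ) ^ 2 * ((1 / 20) ^ 2 * (n * ρ ^ 2)) :=
            mul_le_mul_of_nonneg_left h5 (by positivity)
          have h7 : (8 / ρ) ^ 2 * ((1 / 20) ^ 2 * (n * ρ ^ 2)) = 64 / 400 * n := by
            rw [div_pow, ← mul_assoc, mul_comm _ (n * ρ ^ 2 : ℝ)]
            field_simp
            ring
          rw [h7] at h6
          have hpi := Real.pi_pos
          nlinarith [mul_le_mul_of_nonneg_left h6 hpi.le]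
  linarith

/-- the deterministic conclusion for a good lattice -/
lemma good_theta {N p G K : ℕ} [Fact p.Prime] (hN : 2 ≤ N) {Λ : AddSubgroup (Fin (4 * N) → ℤ)}
    {ρ ε t Θ : ℝ} {b k : ℕ} (hρ : 8 ≤ ρ) (hε : 0 < ε) (ht1 : 1 ≤ t) (hΘ : 1 ≤ Θ)
    (hK : Θ ^ N ≤ 2 ^ K) (hb : 2 ≤ b) (hbc : 40 * t < b) (hk : 1 ≤ k)
    (ht : Real.exp (-(3 / 4) * Real.pi * ε ^ 2 * t ^ 2) * (8 / ε) ≤ 1 / 2)
    (hkΘ : Real.log (8 * Θ) ≤ k * (Real.pi * ε ^ 2 / 400))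
    (hNk : Real.pi * (t * b ^ k) ^ 2 ≤ k * (Real.pi * ε ^ 2 * N / 400))
    (hN8 : Real.exp (-(Real.pi * ε ^ 2 * N / 200)) ≤ 1 / 8)
    (hGval : 2 * Real.exp (Real.pi * 64 * N ^ 2 * (4 * N) * t ^ 2) ≤ G)
    (hpval : (N.factorial : ℝ) * ((Real.sqrt (4 * N : ℕ) * (t * ρ)) ^ 2) ^ N < p)
    (h1 : thL Λ ⊤ (8 / ρ) < (1 / 2) ^ (4 * N))
    (h2 : thL Λ ⊤ (ε / 2 / ρ) < (8 / ε) ^ (4 * N))
    (hbad : NoBad Λ N G K (Real.sqrt (4 * N : ℕ) * (t * ρ)) Θ p)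
    (W : Submodule ℝ (E (4 * N))) (hW : Module.finrank ℝ W ≤ N) :
    thL Λ W (ε / ρ) ≤ 1 / 4 := by
  have hρ0 : 0 < ρ := by linarith
  have hN0 : (0 : ℝ) < N := by exact_mod_cast (by omega : 0 < N)
  have hn4 : ((4 * N : ℕ) : ℝ) = 4 * N := by push_cast; ring
  set σ : ℝ := Real.sqrt (4 * N : ℕ) * ρ with hσ
  have hsq : Real.sqrt ((4 * N : ℕ) : ℝ) ^ 2 = 4 * N := by
    rw [Real.sq_sqrt (Nat.cast_nonneg _), hn4]
  have hsqrt1 : 1 ≤ Real.sqrt ((4 * N : ℕ) : ℝ) := by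
    rw [Real.one_le_sqrt, hn4]
    have : (2 : ℝ) ≤ N := by exact_mod_cast hN
    linarith
  have hσ0 : 0 < σ := by positivity
  set R : ℝ := Real.sqrt (4 * N : ℕ) * (t * ρ) with hR
  have hRσ : R = t * σ := by rw [hR, hσ]; ring
  have hR1 : 1 ≤ R := by
    rw [hRσ, hσ]
    have : 1 ≤ Real.sqrt ((4 * N : ℕ) : ℝ) * ρ := by nlinarith
    nlinarith
  have hth1 : thL Λ ⊤ (8 / ρ) ≤ 1 := by
    have : ((1 : ℝ) / 2) ^ (4 * N) ≤ 1 := pow_le_one₀ (by norm_num) (by norm_num)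
    linarith
  have hmin := min_vec hρ0 h1
  have hG : ∀ S : Finset (Fin (4 * N) → ℤ), (∀ z ∈ S, z ∈ Λ ∧ ‖(ze z : E (4 * N))‖ ≤ N * R) →
      S.card ≤ G := by
    intro S hS
    have h3 := card_ball_le Λ (s := 8 / ρ) (by positivity) S hS
    have h4 : Real.pi * (8 / ρ) ^ 2 * (N * R) ^ 2 = Real.pi * 64 * N ^ 2 * (4 * N) * t ^ 2 := by
      rw [hR, mul_pow, mul_pow, mul_pow, hsq]
      field_simp
      norm_num
    rw [h4] at h3
    have h5 : (S.card : ℝ) ≤ G := by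
      refine h3.trans (le_trans ?_ hGval)
      have := Real.exp_pos (Real.pi * 64 * N ^ 2 * (4 * N) * t ^ 2)
      nlinarith
    exact_mod_cast h5
  have hfew : ∀ S : Finset (Fin (4 * N) → ℤ),
      (∀ z ∈ S, z ∈ Λ ∧ ze z ∈ W ∧ ‖(ze z : E (4 * N))‖ ≤ R) →
      (S.card : ℝ) ≤ Real.exp (Real.pi * ε ^ 2 * N / 200) := by
    intro S hS
    have h3 := few_points hσ0 ht1 hRσ hΘ hK hbad hG hpval hR1 (c := 1 / 20)
      (fun z hz hz0 => hmin z hz hz0) hb (by linarith) k W hW S hS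
    have h4 : (8 * Θ) ^ N = Real.exp (N * Real.log (8 * Θ)) := by
      rw [Real.exp_nat_mul, Real.exp_log (by positivity)]
    rw [h4, ← Real.exp_add] at h3
    have h5 : (S.card : ℝ) ^ k ≤ Real.exp (Real.pi * ε ^ 2 * N / 200) ^ k := by
      refine h3.trans ?_
      rw [← Real.exp_nat_mul, Real.exp_le_exp]
      have h6 := mul_le_mul_of_nonneg_left hkΘ hN0.le
      linarith
    exact le_of_pow_le_pow_left₀ (by omega) (Real.exp_pos _).le h5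
  have h3 := theta_split Λ W (s := ε / ρ) (R := R) (m := 1 / 20 * σ) (by positivity)
    (by linarith) (by positivity) hmin _ hfew
  have e1 : -Real.pi * (ε / ρ) ^ 2 * (1 / 20 * σ) ^ 2 = -(Real.pi * ε ^ 2 * N / 100) := by
    rw [hσ, mul_pow, mul_pow, hsq]
    field_simp
    ring
  have e2 : -(3 / 4) * Real.pi * (ε / ρ) ^ 2 * R ^ 2 =
      ((4 * N : ℕ) : ℝ) * (-(3 / 4) * Real.pi * ε ^ 2 * t ^ 2) := by
    rw [hR, mul_pow, mul_pow, hsq, hn4]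
    field_simp
  have e3 : ε / ρ / 2 = ε / 2 / ρ := by ring
  rw [e1, e2, e3, ← Real.exp_add, Real.exp_nat_mul] at h3
  have e4 : Real.pi * ε ^ 2 * N / 200 + -(Real.pi * ε ^ 2 * N / 100) =
      -(Real.pi * ε ^ 2 * N / 200) := by ring
  rw [e4] at h3
  have h5 : Real.exp (-(3 / 4) * Real.pi * ε ^ 2 * t ^ 2) ^ (4 * N) * thL Λ ⊤ (ε / 2 / ρ) ≤
      (1 / 2) ^ (4 * N) := by
    calc _ ≤ Real.exp (-(3 / 4) * Real.pi * ε ^ 2 * t ^ 2) ^ (4 * N) * (8 / ε) ^ (4 * N) :=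
          mul_le_mul_of_nonneg_left h2.le (by positivity)
      _ = (Real.exp (-(3 / 4) * Real.pi * ε ^ 2 * t ^ 2) * (8 / ε)) ^ (4 * N) := by
          rw [mul_pow]
      _ ≤ (1 / 2) ^ (4 * N) := pow_le_pow_left₀ (by positivity) ht _
  have h6 : ((1 : ℝ) / 2) ^ (4 * N) ≤ 1 / 8 := by
    calc ((1 : ℝ) / 2) ^ (4 * N) ≤ (1 / 2) ^ 3 :=
          pow_le_pow_of_le_one (by norm_num) (by norm_num) (by omega)
      _ = 1 / 8 := by norm_num
  linarith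

end Pool.Agent.Helper30.Cov
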