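import Mathlib
import Pool.Agent.Helper30.CovDet
open MeasureTheory Filter Topology Set TopologicalSpace
open scoped FourierTransform RealInnerProductSpace

namespace Pool.Agent.Helper30.Cov

lemma eventually_E (n : ℕ) (hn : 2 ≤ n) {c : ℝ} (hc : 0 < c) :
    ∀ᶠ p : ℕ in atTop, ∀ ρ : ℝ, 1 ≤ ρ → ρ ^ n = p →
      Real.exp (-Real.pi * (c / ρ) ^ 2 * p ^ 2 / 2) * (3 / c) ^ n * p ≤ (2 / c) ^ n := by
  have hα : 0 < Real.pi * c ^ 2 / 2 := by positivity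
  have h1 : Tendsto (fun x : ℝ => x ^ 1 * Real.exp (-x)) atTop (𝓝 0) :=
    Real.tendsto_pow_mul_exp_neg_atTop_nhds_zero 1
  have h2 : Tendsto (fun p : ℕ => (Real.pi * c ^ 2 / 2) * (p : ℝ)) atTop atTop :=
    tendsto_natCast_atTop_atTop.const_mul_atTop hα
  have h3 := h1.comp h2
  have h4 : ∀ᶠ p : ℕ in atTop, ((Real.pi * c ^ 2 / 2) * (p : ℝ)) ^ 1 *
      Real.exp (-((Real.pi * c ^ 2 / 2) * (p : ℝ))) < (Real.pi * c ^ 2 / 2) * (2 / 3) ^ n :=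
    h3.eventually (gt_mem_nhds (by positivity))
  filter_upwards [h4] with p hp ρ hρ hρn
  have hρ0 : 0 < ρ := by linarith
  rw [pow_one, mul_assoc] at hp
  have h5 : (p : ℝ) * Real.exp (-((Real.pi * c ^ 2 / 2) * (p : ℝ))) < (2 / 3) ^ n :=
    lt_of_mul_lt_mul_left hp hα.le
  have h6 : (c / ρ) ^ 2 * (p : ℝ) ^ 2 ≥ c ^ 2 * p := by
    have h7 : (c / ρ) ^ 2 * (p : ℝ) ^ 2 = c ^ 2 * ρ ^ (2 * n - 2) := by
      rw [← hρn, div_pow, ← pow_mul]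
      have : ρ ^ (n * 2) = ρ ^ (2 * n - 2) * ρ ^ 2 := by rw [← pow_add]; congr 1; omega
      rw [this]
      field_simp
    rw [h7, ← hρn]
    exact mul_le_mul_of_nonneg_left (pow_le_pow_right₀ hρ (by omega)) (by positivity)
  have h8 : Real.exp (-Real.pi * (c / ρ) ^ 2 * p ^ 2 / 2) ≤
      Real.exp (-((Real.pi * c ^ 2 / 2) * (p : ℝ))) := by
    rw [Real.exp_le_exp]
    have hpi := Real.pi_pos
    have := mul_le_mul_of_nonneg_left h6 hpi.le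
    linarith
  have hp0 : (0 : ℝ) ≤ p := Nat.cast_nonneg p
  calc Real.exp (-Real.pi * (c / ρ) ^ 2 * p ^ 2 / 2) * (3 / c) ^ n * p
      ≤ Real.exp (-((Real.pi * c ^ 2 / 2) * (p : ℝ))) * (3 / c) ^ n * p := by
        gcongr
    _ = (3 / c) ^ n * (p * Real.exp (-((Real.pi * c ^ 2 / 2) * (p : ℝ)))) := by ring
    _ ≤ (3 / c) ^ n * (2 / 3) ^ n := mul_le_mul_of_nonneg_left h5.le (by positivity)
    _ = (2 / c) ^ n := by
        rw [← mul_pow]; congr 1; field_simp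

lemma exists_t {ε : ℝ} (hε : 0 < ε) : ∃ t : ℝ, 1 ≤ t ∧
    Real.exp (-(3 / 4) * Real.pi * ε ^ 2 * t ^ 2) * (8 / ε) ≤ 1 / 2 := by
  have h1 : Tendsto (fun t : ℝ => (3 / 4 * Real.pi * ε ^ 2) * t ^ 2) atTop atTop :=
    (tendsto_pow_atTop two_ne_zero).const_mul_atTop (by positivity)
  have h2 := Real.tendsto_exp_atBot.comp (tendsto_neg_atTop_atBot.comp h1)
  have h3 : ∀ᶠ t : ℝ in atTop, (Real.exp ∘ Neg.neg ∘ fun t : ℝ =>
      (3 / 4 * Real.pi * ε ^ 2) * t ^ 2) t < ε / 16 :=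
    h2.eventually (gt_mem_nhds (by positivity))
  obtain ⟨t, ht, ht1⟩ := (h3.and (eventually_ge_atTop 1)).exists
  refine ⟨t, ht1, ?_⟩
  simp only [Function.comp_apply] at ht
  have h4 : -(3 / 4) * Real.pi * ε ^ 2 * t ^ 2 = -((3 / 4 * Real.pi * ε ^ 2) * t ^ 2) := by ring
  rw [h4]
  have h5 := mul_le_mul_of_nonneg_right ht.le (show 0 ≤ 8 / ε by positivity)
  refine h5.trans (le_of_eq ?_)
  field_simp
  norm_num

/-- **Key theorem**: for every `ε` there is a lattice with the two theta bounds. -/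
theorem key {ε : ℝ} (hε : 0 < ε) (hε1 : ε ≤ 1) :
    ∃ N p : ℕ, ∃ _ : Fact p.Prime, 2 ≤ N ∧ ∃ ρ : ℝ, 8 ≤ ρ ∧ ρ ^ (4 * N) = p ∧
      ∃ i0 : Fin (4 * N), ∃ a : Fin (4 * N) → ZMod p, a i0 = 1 ∧
        thL (La p a) ⊤ (8 / ρ) ≤ 1 / 4 ∧
        ∀ W : Submodule ℝ (E (4 * N)), Module.finrank ℝ W ≤ N → thL (La p a) W (ε / ρ) ≤ 1 / 4 := by
  obtain ⟨t, ht1, ht⟩ := exists_t hε
  have hpi := Real.pi_pos
  have hKC := KC_ge
  set Θ : ℝ := 4 * (KC * t) ^ 2 with hΘdef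
  have hKt : 1 ≤ KC * t := by nlinarith
  have hΘ : 1 ≤ Θ := by rw [hΘdef]; nlinarith
  obtain ⟨b0, hb0⟩ := exists_nat_gt (40 * t)
  obtain ⟨b, hb, hbc⟩ : ∃ b : ℕ, 2 ≤ b ∧ 40 * t < b := by
    refine ⟨b0, ?_, hb0⟩
    have : (2 : ℝ) < b0 := by linarith
    exact_mod_cast this.le
  have hα : 0 < Real.pi * ε ^ 2 / 400 := by positivity
  obtain ⟨k, hk, hkΘ⟩ : ∃ k : ℕ, 1 ≤ k ∧ Real.log (8 * Θ) ≤ k * (Real.pi * ε ^ 2 / 400) := by
    obtain ⟨k, hk⟩ := exists_nat_gt (Real.log (8 * Θ) / (Real.pi * ε ^ 2 / 400))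
    refine ⟨k + 1, by omega, ?_⟩
    rw [div_lt_iff₀ hα] at hk
    push_cast
    linarith
  -- choice of N
  obtain ⟨N, hN, hNk, hN8⟩ : ∃ N : ℕ, 2 ≤ N ∧
      Real.pi * (t * b ^ k) ^ 2 ≤ k * (Real.pi * ε ^ 2 * N / 400) ∧
      Real.exp (-(Real.pi * ε ^ 2 * N / 200)) ≤ 1 / 8 := by
    have hk0 : (0 : ℝ) < k := by exact_mod_cast hk
    have h1 : Tendsto (fun N : ℕ => (k * (Real.pi * ε ^ 2 / 400)) * (N : ℝ)) atTop atTop :=
      tendsto_natCast_atTop_atTop.const_mul_atTop (by positivity)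
    have h2 : Tendsto (fun N : ℕ => (Real.pi * ε ^ 2 / 200) * (N : ℝ)) atTop atTop :=
      tendsto_natCast_atTop_atTop.const_mul_atTop (by positivity)
    have h3 := Real.tendsto_exp_atBot.comp (tendsto_neg_atTop_atBot.comp h2)
    have h4 : ∀ᶠ N : ℕ in atTop, (Real.exp ∘ Neg.neg ∘ fun N : ℕ =>
        (Real.pi * ε ^ 2 / 200) * (N : ℝ)) N < 1 / 8 :=
      h3.eventually (gt_mem_nhds (by norm_num))
    obtain ⟨N, ⟨hN1, hN2⟩, hN3⟩ := ((h4.and (h1.eventually_ge_atTop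
      (Real.pi * (t * b ^ k) ^ 2))).and (eventually_ge_atTop 2)).exists
    refine ⟨N, hN3, ?_, ?_⟩
    · refine hN2.trans (le_of_eq ?_); ring
    · simp only [Function.comp_apply] at hN1
      have h5 : Real.pi * ε ^ 2 * N / 200 = Real.pi * ε ^ 2 / 200 * N := by ring
      rw [h5]; exact hN1.le
  obtain ⟨K, hK⟩ : ∃ K : ℕ, Θ ^ N ≤ 2 ^ K := by
    obtain ⟨K, hK⟩ := pow_unbounded_of_one_lt (Θ ^ N) (by norm_num : (1 : ℝ) < 2)
    exact ⟨K, hK.le⟩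
  obtain ⟨G, hG⟩ := exists_nat_ge (2 * Real.exp (Real.pi * 64 * N ^ 2 * (4 * N) * t ^ 2))
  -- choice of p
  have hN0 : 0 < N := by omega
  have hNr : (0 : ℝ) < N := by exact_mod_cast hN0
  have hn0 : (4 * N : ℕ) ≠ 0 := by omega
  set y : ℝ := ((4 * N : ℕ) : ℝ)⁻¹ with hy
  have hy0 : 0 < y := by rw [hy]; positivity
  have hρt : Tendsto (fun p : ℕ => (p : ℝ) ^ y) atTop atTop :=
    (tendsto_rpow_atTop hy0).comp tendsto_natCast_atTop_atTop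
  set C0 : ℝ := 8 + G * 2 ^ K + 4 * N ^ 2 * t ^ 2 + 1 with hC0
  obtain ⟨p0, hp0⟩ := eventually_atTop.1 (((hρt.eventually_ge_atTop C0).and
    (eventually_E (4 * N) (by omega) (show (0 : ℝ) < 8 by norm_num))).and
    (eventually_E (4 * N) (by omega) (show (0 : ℝ) < ε / 2 by positivity)))
  obtain ⟨p, hpp0, hp⟩ := Nat.exists_infinite_primes p0
  obtain ⟨⟨hρC, hE1⟩, hE2⟩ := hp0 p hpp0
  have : Fact p.Prime := ⟨hp⟩
  set ρ : ℝ := (p : ℝ) ^ y with hρdef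
  have hρn : ρ ^ (4 * N) = p := by
    rw [hρdef, hy]
    exact Real.rpow_inv_natCast_pow (Nat.cast_nonneg p) hn0
  have hGK : (0 : ℝ) ≤ G * 2 ^ K := by positivity
  have hNt : (0 : ℝ) ≤ 4 * N ^ 2 * t ^ 2 := by positivity
  have hρ8 : 8 ≤ ρ := by linarith
  have hρ1 : 1 ≤ ρ := by linarith
  have hρ0 : 0 < ρ := by linarith
  have hr : (G : ℝ) * 2 ^ K ≤ t * ρ := by nlinarith
  have hval : 4 * (KC * (t * ρ)) ^ (4 * N) ≤ Θ ^ (2 * N) * (p / 64) := by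
    have e1 : (KC * (t * ρ)) ^ (4 * N) = (KC * t) ^ (4 * N) * p := by
      rw [← hρn, ← mul_pow]; congr 1; ring
    have e2 : Θ ^ (2 * N) = 16 ^ N * (KC * t) ^ (4 * N) := by
      rw [hΘdef, mul_pow, ← pow_mul, pow_mul]
      congr 1
      · norm_num
      · congr 1; ring
    rw [e1, e2]
    have e3 : (256 : ℝ) ≤ 16 ^ N := by
      calc (256 : ℝ) = 16 ^ 2 := by norm_num
        _ ≤ 16 ^ N := pow_le_pow_right₀ (by norm_num) hN
    have e4 : 0 ≤ (KC * t) ^ (4 * N) * (p : ℝ) := by positivity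
    nlinarith [mul_le_mul_of_nonneg_right e3 e4]
  have i0 : Fin (4 * N) := ⟨0, by omega⟩
  obtain ⟨a, ha, h1, h2, hbad⟩ := exists_good hN i0 hρ8 hρn hε hε1 (hE1 ρ hρ1 hρn)
    (hE2 ρ hρ1 hρn) hr (by linarith) hval
  have hpval : (N.factorial : ℝ) * ((Real.sqrt (4 * N : ℕ) * (t * ρ)) ^ 2) ^ N < p := by
    have e1 : (Real.sqrt (4 * N : ℕ) * (t * ρ)) ^ 2 = 4 * N * t ^ 2 * ρ ^ 2 := by
      rw [mul_pow, Real.sq_sqrt (Nat.cast_nonneg _)]; push_cast; ring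
    rw [e1]
    have e2 : (N.factorial : ℝ) ≤ (N : ℝ) ^ N := by exact_mod_cast Nat.factorial_le_pow N
    calc (N.factorial : ℝ) * (4 * N * t ^ 2 * ρ ^ 2) ^ N
        ≤ (N : ℝ) ^ N * (4 * N * t ^ 2 * ρ ^ 2) ^ N := by gcongr
      _ = (4 * N ^ 2 * t ^ 2 * ρ ^ 2) ^ N := by rw [← mul_pow]; congr 1; ring
      _ < (ρ ^ 4) ^ N := by
          apply pow_lt_pow_left₀ _ (by positivity) (by omega)
          have e3 : 4 * (N : ℝ) ^ 2 * t ^ 2 < ρ := by linarith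
          have e4 : ρ ≤ ρ ^ 2 := by nlinarith
          have e5 : 4 * (N : ℝ) ^ 2 * t ^ 2 < ρ ^ 2 := by linarith
          have e6 : 0 < ρ ^ 2 := by positivity
          calc 4 * (N : ℝ) ^ 2 * t ^ 2 * ρ ^ 2 < ρ ^ 2 * ρ ^ 2 := mul_lt_mul_of_pos_right e5 e6
            _ = ρ ^ 4 := by ring
      _ = p := by rw [← pow_mul, hρn]
  refine ⟨N, p, ⟨hp⟩, hN, ρ, hρ8, hρn, i0, a, ha, ?_, fun W hW => ?_⟩
  · have : ((1 : ℝ) / 2) ^ (4 * N) ≤ 1 / 4 := by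
      calc ((1 : ℝ) / 2) ^ (4 * N) ≤ (1 / 2) ^ 2 :=
            pow_le_pow_of_le_one (by norm_num) (by norm_num) (by omega)
        _ = 1 / 4 := by norm_num
    linarith
  · exact good_theta hN hρ8 hε ht1 hΘ hK hb hbc hk ht hkΘ hNk hN8 hG hpval h1 h2 hbad W hW

end Pool.Agent.Helper30.Cov
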