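import Mathlib
import Pool.Agent.Helper30.CovKey
open MeasureTheory Filter Topology Set TopologicalSpace
open scoped FourierTransform RealInnerProductSpace

namespace Pool.Agent.Helper30.Cov

/-- the ball of radius `√n` has volume at most `e^{πn}` -/
lemma vol_ball_le (n : ℕ) :
    (volume (Metric.closedBall (0 : E n) (Real.sqrt n))).toReal ≤ Real.exp (Real.pi * n) := by
  have hint : ∫ v : E n, Real.exp (-Real.pi * ‖v‖ ^ 2) = 1 := by
    rw [GaussianFourier.integral_rexp_neg_mul_sq_norm Real.pi_pos, div_self Real.pi_ne_zero,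
      Real.one_rpow]
  have hI : Integrable (fun v : E n => Real.exp (-Real.pi * ‖v‖ ^ 2)) := by
    by_contra hcon
    rw [integral_undef hcon] at hint
    exact zero_ne_one hint
  have hfin : volume (Metric.closedBall (0 : E n) (Real.sqrt n)) < ⊤ :=
    (isCompact_closedBall _ _).measure_lt_top
  have h1 : Real.exp (-(Real.pi * n)) *
      (volume (Metric.closedBall (0 : E n) (Real.sqrt n))).toReal ≤
      ∫ v in Metric.closedBall (0 : E n) (Real.sqrt n), Real.exp (-Real.pi * ‖v‖ ^ 2) := by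
    have h2 := setIntegral_ge_of_const_le_real (μ := (volume : Measure (E n)))
      (s := Metric.closedBall (0 : E n) (Real.sqrt n))
      (f := fun v : E n => Real.exp (-Real.pi * ‖v‖ ^ 2))
      (c := Real.exp (-(Real.pi * n))) Metric.isClosed_closedBall.measurableSet hfin.ne (by
        intro v hv
        rw [Metric.mem_closedBall, dist_zero_right] at hv
        rw [Real.exp_le_exp]
        have h3 := pow_le_pow_left₀ (norm_nonneg _) hv 2
        rw [Real.sq_sqrt (Nat.cast_nonneg n)] at h3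
        have hpi := Real.pi_pos
        nlinarith) hI.integrableOn
    exact h2
  have h2 : ∫ v in Metric.closedBall (0 : E n) (Real.sqrt n), Real.exp (-Real.pi * ‖v‖ ^ 2) ≤
      ∫ v : E n, Real.exp (-Real.pi * ‖v‖ ^ 2) :=
    setIntegral_le_integral hI (Eventually.of_forall (fun v => (Real.exp_pos _).le))
  rw [hint] at h2
  have h3 := h1.trans h2
  rw [Real.exp_neg, inv_mul_le_iff₀ (Real.exp_pos _), mul_one] at h3
  exact h3

/-- the integer lift of the form -/
def lift {n p : ℕ} (a : Fin n → ZMod p) (i : Fin n) : ℤ := ((a i).val : ℤ)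

/-- the row vector of the lattice basis -/
def rowv {n p : ℕ} (i0 : Fin n) (a : Fin n → ZMod p) (i : Fin n) : ℤ :=
  if i = i0 then (p : ℤ) else - lift a i

/-- real matrix of the lattice basis -/
noncomputable def PM {n p : ℕ} (i0 : Fin n) (a : Fin n → ZMod p) : Matrix (Fin n) (Fin n) ℝ :=
  (1 : Matrix (Fin n) (Fin n) ℝ).updateRow i0 (fun i => (rowv i0 a i : ℝ))

lemma det_PM {n p : ℕ} (i0 : Fin n) (a : Fin n → ZMod p) : (PM i0 a).det = p := by
  unfold PM
  rw [← Matrix.cramer_transpose_apply, Matrix.transpose_one, Matrix.cramer_one]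
  simp [rowv]

/-- integer basis map -/
def Dz {n p : ℕ} (i0 : Fin n) (a : Fin n → ZMod p) (w : Fin n → ℤ) : Fin n → ℤ :=
  Function.update w i0 (∑ i, rowv i0 a i * w i)

lemma PM_mulVec {n p : ℕ} (i0 : Fin n) (a : Fin n → ZMod p) (w : Fin n → ℤ) :
    (PM i0 a).mulVec (zr w) = zr (Dz i0 a w) := by
  funext i
  unfold PM Dz
  by_cases h : i = i0
  · subst h
    simp only [Matrix.mulVec, dotProduct, Matrix.updateRow_self, zr, Function.update_self]
    push_cast
    rfl
  · simp only [Matrix.mulVec, dotProduct, Matrix.updateRow_ne h, zr, Function.update_of_ne h,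
      Matrix.one_apply]
    simp

lemma Dz_inj {n p : ℕ} (hp : 0 < p) (i0 : Fin n) (a : Fin n → ZMod p) :
    Function.Injective (Dz i0 a) := by
  intro w w' h
  have h1 : ∀ i, i ≠ i0 → w i = w' i := by
    intro i hi
    have := congrFun h i
    unfold Dz at this
    rwa [Function.update_of_ne hi, Function.update_of_ne hi] at this
  have h2 := congrFun h i0
  unfold Dz at h2
  rw [Function.update_self, Function.update_self] at h2
  have h3 : (p : ℤ) * w i0 = (p : ℤ) * w' i0 := by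
    rw [← Finset.add_sum_erase _ _ (Finset.mem_univ i0),
      ← Finset.add_sum_erase _ _ (Finset.mem_univ i0)] at h2
    have h4 : ∑ x ∈ Finset.univ.erase i0, rowv i0 a x * w x =
        ∑ x ∈ Finset.univ.erase i0, rowv i0 a x * w' x :=
      Finset.sum_congr rfl (fun x hx => by rw [h1 x (Finset.ne_of_mem_erase hx)])
    rw [h4] at h2
    have h5 := add_right_cancel h2
    simpa [rowv] using h5
  funext i
  by_cases hi : i = i0
  · subst hi
    exact mul_left_cancel₀ (by exact_mod_cast hp.ne') h3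
  · exact h1 i hi

lemma Dz_mem {n p : ℕ} [Fact p.Prime] (i0 : Fin n) (a : Fin n → ZMod p) (ha : a i0 = 1)
    (w : Fin n → ℤ) : Dz i0 a w ∈ La p a := by
  rw [mem_La, ← Finset.add_sum_erase _ _ (Finset.mem_univ i0)]
  have h1 : ∑ x ∈ Finset.univ.erase i0, ((Dz i0 a w x : ℤ) : ZMod p) * a x =
      ∑ x ∈ Finset.univ.erase i0, ((w x : ℤ) : ZMod p) * a x := by
    refine Finset.sum_congr rfl (fun x hx => ?_)
    unfold Dz
    rw [Function.update_of_ne (Finset.ne_of_mem_erase hx)]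
  rw [h1, ha, mul_one]
  unfold Dz
  rw [Function.update_self, ← Finset.add_sum_erase _ _ (Finset.mem_univ i0)]
  have h2 : rowv i0 a i0 = p := by simp [rowv]
  rw [h2]
  push_cast
  rw [ZMod.natCast_self, zero_mul, zero_add, ← Finset.sum_add_distrib]
  refine Finset.sum_eq_zero (fun x hx => ?_)
  have h3 : rowv i0 a x = - lift a x := by
    unfold rowv; rw [if_neg (Finset.ne_of_mem_erase hx)]
  rw [h3]
  unfold lift
  push_cast
  rw [ZMod.natCast_zmod_val]
  ring

/-- the dual basis map on real vectors -/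
noncomputable def DD {n p : ℕ} (i0 : Fin n) (a : Fin n → ZMod p) : E n → E n :=
  fun v => WithLp.toLp 2 ((PM i0 a).mulVec (WithLp.ofLp v))

lemma DD_ze {n p : ℕ} (i0 : Fin n) (a : Fin n → ZMod p) (w : Fin n → ℤ) :
    DD i0 a (ze w) = ze (Dz i0 a w) := by
  unfold DD ze
  rw [← PM_mulVec]

/-- the transposed basis map -/
noncomputable def QQ {n p : ℕ} [Fact p.Prime] (i0 : Fin n) (a : Fin n → ZMod p) :
    (Fin n → ℝ) ≃ₗ[ℝ] (Fin n → ℝ) :=
  LinearEquiv.ofIsUnitDet (f := Matrix.toLin' (PM i0 a).transpose)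
    (v := Pi.basisFun ℝ (Fin n)) (v' := Pi.basisFun ℝ (Fin n)) (by
      rw [← Matrix.toLin_eq_toLin', LinearMap.toMatrix_toLin, Matrix.det_transpose, det_PM]
      exact IsUnit.mk0 _ (by exact_mod_cast (Fact.out : p.Prime).ne_zero))

lemma QQ_apply {n p : ℕ} [Fact p.Prime] (i0 : Fin n) (a : Fin n → ZMod p) (v : Fin n → ℝ) :
    QQ i0 a v = (PM i0 a).transpose.mulVec v := rfl

lemma det_QQ {n p : ℕ} [Fact p.Prime] (i0 : Fin n) (a : Fin n → ZMod p) :
    LinearMap.det ((QQ i0 a : (Fin n → ℝ) ≃ₗ[ℝ] (Fin n → ℝ)) : (Fin n → ℝ) →ₗ[ℝ] (Fin n → ℝ))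
      = p := by
  have : ((QQ i0 a : (Fin n → ℝ) ≃ₗ[ℝ] (Fin n → ℝ)) : (Fin n → ℝ) →ₗ[ℝ] (Fin n → ℝ)) =
    Matrix.toLin' (PM i0 a).transpose := rfl
  rw [this, LinearMap.det_toLin', Matrix.det_transpose, det_PM]

/-- coordinates -/
noncomputable def cd (n : ℕ) : E n ≃ₗ[ℝ] (Fin n → ℝ) := WithLp.linearEquiv 2 ℝ (Fin n → ℝ)

lemma cd_ze {n : ℕ} (m : Fin n → ℤ) : cd n (ze m) = zr m := rfl

/-- the lattice basis map of the primal lattice -/
noncomputable def BB {n p : ℕ} [Fact p.Prime] (i0 : Fin n) (a : Fin n → ZMod p) :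
    E n ≃ₗ[ℝ] E n :=
  (cd n).trans ((QQ i0 a).symm.trans (cd n).symm)

lemma inner_eq_dot {n : ℕ} (v w : E n) : inner ℝ v w = (cd n v) ⬝ᵥ (cd n w) := by
  simp [PiLp.inner_apply, dotProduct, cd, mul_comm]

lemma hDD {n p : ℕ} [Fact p.Prime] (i0 : Fin n) (a : Fin n → ZMod p) (v u : E n) :
    inner ℝ (DD i0 a v) (BB i0 a u) = inner ℝ v u := by
  rw [inner_eq_dot, inner_eq_dot]
  have h1 : cd n (DD i0 a v) = (PM i0 a).mulVec (cd n v) := rfl
  have h2 : cd n (BB i0 a u) = (QQ i0 a).symm (cd n u) := by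
    unfold BB; simp
  rw [h1, h2, dotProduct_comm, Matrix.dotProduct_mulVec, dotProduct_comm]
  congr 1
  rw [← Matrix.mulVec_transpose, ← QQ_apply, LinearEquiv.apply_symm_apply]

/-- the map sending the Euclidean ball to the convex body -/
noncomputable def Ph {n p : ℕ} [Fact p.Prime] (i0 : Fin n) (a : Fin n → ZMod p) :
    E n ≃ₗ[ℝ] (Fin n → ℝ) := (cd n).trans (QQ i0 a)

lemma Ph_BB {n p : ℕ} [Fact p.Prime] (i0 : Fin n) (a : Fin n → ZMod p) (m : Fin n → ℤ) :
    Ph i0 a (BB i0 a (ze m)) = zr m := by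
  unfold Ph BB
  simp [cd_ze]

/-- the convex body -/
def KK {n p : ℕ} [Fact p.Prime] (i0 : Fin n) (a : Fin n → ZMod p) : Set (Fin n → ℝ) :=
  Ph i0 a '' Metric.closedBall (0 : E n) (Real.sqrt n)

lemma thW_le_thL {n p : ℕ} [Fact p.Prime] (i0 : Fin n) (a : Fin n → ZMod p) (ha : a i0 = 1)
    (W : Submodule ℝ (E n)) {s : ℝ} (hs : 0 < s) :
    thW (DD i0 a) W s ≤ thL (La p a) W s := by
  classical
  have hp : p.Prime := Fact.out
  have h1 := summable_ite_exp (n := n) hs
    (fun z => z ≠ 0 ∧ z ∈ La p a ∧ (ze z : E n) ∈ W)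
  have h2 := tsum_comp_le_tsum_of_inj h1 (fun z => by
    split_ifs
    · exact (Real.exp_pos _).le
    · exact le_rfl) (Dz_inj hp.pos i0 a)
  refine le_trans (le_of_eq ?_) h2
  unfold thW
  refine tsum_congr (fun w => ?_)
  simp only [Function.comp_apply, DD_ze]
  have h0 : Dz i0 a 0 = 0 := by
    unfold Dz
    simp
  have h3 : w ≠ 0 ↔ Dz i0 a w ≠ 0 := by
    rw [not_iff_not]
    constructor
    · intro h; rw [h, h0]
    · intro h; exact Dz_inj hp.pos i0 a (h.trans h0.symm)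
  by_cases hw : w ≠ 0 ∧ (ze (Dz i0 a w) : E n) ∈ W
  · rw [if_pos hw, if_pos ⟨h3.1 hw.1, Dz_mem i0 a ha w, hw.2⟩]
  · rw [if_neg hw, if_neg (fun h => hw ⟨h3.2 h.1, h.2.2⟩)]

/-- **the covering property** -/
lemma cov_mem {n p : ℕ} [Fact p.Prime] (i0 : Fin n) (a : Fin n → ZMod p) (ha : a i0 = 1)
    {s : ℝ} (hs : 0 < s) (i : ℕ) (hi : i < n)
    (hth : ∀ W : Submodule ℝ (E n), Module.finrank ℝ W = i + 1 → thL (La p a) W s ≤ 1 / 4)
    (A : AffineSubspace ℝ (Fin n → ℝ)) (hA : (A : Set (Fin n → ℝ)).Nonempty)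
    (hAd : Module.finrank ℝ A.direction = n - (i + 1)) :
    ∃ x ∈ KK i0 a, ∃ z : Fin n → ℤ, s • x + (fun j => (z j : ℝ)) ∈ A := by
  obtain ⟨y0, hy0⟩ := hA
  set V : Submodule ℝ (E n) := A.direction.comap (Ph i0 a : E n →ₗ[ℝ] (Fin n → ℝ)) with hV
  have hVfin : Module.finrank ℝ V = n - (i + 1) := by
    rw [← hAd]
    have e : V = A.direction.map ((Ph i0 a).symm : (Fin n → ℝ) →ₗ[ℝ] E n) := by
      rw [hV]
      exact (Submodule.map_equiv_eq_comap_symm (Ph i0 a).symm A.direction).symm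
    rw [e]
    exact LinearEquiv.finrank_map_eq (Ph i0 a).symm A.direction
  set W := Vᗮ with hW
  have hWfin : Module.finrank ℝ W = i + 1 := by
    have := Submodule.finrank_add_finrank_orthogonal V
    rw [hVfin, finrank_euclideanSpace_fin] at this
    change Module.finrank ℝ Vᗮ = i + 1
    omega
  have hthW := (thW_le_thL i0 a ha W hs).trans (hth W hWfin)
  obtain ⟨m, hm⟩ := transference (BB i0 a) (DD i0 a) (hDD i0 a) W (by rw [hWfin]; omega) hs hthW
    ((Ph i0 a).symm y0)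
  set x' := W.starProjection ((Ph i0 a).symm y0 + BB i0 a (ze m)) with hx'
  have hmem : (Ph i0 a).symm y0 + BB i0 a (ze m) - x' ∈ V := by
    have h1 : (Ph i0 a).symm y0 + BB i0 a (ze m) - x' ∈ Wᗮ :=
      Submodule.sub_starProjection_mem_orthogonal _
    rw [hW, Submodule.orthogonal_orthogonal] at h1
    exact h1
  have hdir : y0 + zr m - Ph i0 a x' ∈ A.direction := by
    have h1 : Ph i0 a ((Ph i0 a).symm y0 + BB i0 a (ze m) - x') ∈ A.direction := hmem
    rw [map_sub, map_add, LinearEquiv.apply_symm_apply, Ph_BB] at h1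
    exact h1
  refine ⟨Ph i0 a (s⁻¹ • x'), ⟨s⁻¹ • x', ?_, rfl⟩, -m, ?_⟩
  · rw [Metric.mem_closedBall, dist_zero_right, norm_smul, norm_inv, Real.norm_of_nonneg hs.le,
      inv_mul_le_iff₀ hs]
    refine hm.trans ?_
    rw [hWfin]
    have : ((i + 1 : ℕ) : ℝ) ≤ n := by exact_mod_cast hi
    gcongr
  · rw [map_smul, smul_smul, mul_inv_cancel₀ hs.ne', one_smul]
    have h1 : Ph i0 a x' + (fun j => (((-m) j : ℤ) : ℝ)) =
        (-(y0 + zr m - Ph i0 a x')) +ᵥ y0 := by
      rw [vadd_eq_add]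
      funext j
      simp [zr]
      ring
    rw [h1]
    exact AffineSubspace.vadd_mem_of_mem_direction (A.direction.neg_mem hdir) hy0

end Pool.Agent.Helper30.Cov
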