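import Mathlib

/-!
Combinatorial core of the disproof of the pinwheel threshold conjecture.
A schedule `S : ℤ → I`; the tasks in `Z0` have period `A`, the tasks in `Z1` have period `A + 1`,
`Z0.card + Z1.card + 1 = A`; all other tasks are called long.
-/

set_option autoImplicit false

namespace Pool.Agent.Helper30.Pin

variable {I : Type*} [DecidableEq I]

/-- task `i` is executed in every window of `a` days -/
def Occ (S : ℤ → I) (i : I) (a : ℤ) : Prop :=
  ∀ m : ℤ, ∃ t : ℤ, m ≤ t ∧ t < m + a ∧ S t = i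

/-- If two long executions happen in the `A` days before day `u`, then day `u` is given to a task
of period `A + 1`. -/
lemma star (S : ℤ → I) (A : ℕ) (Z0 Z1 : Finset I) (hdis : Disjoint Z0 Z1)
    (hcard : Z0.card + Z1.card + 1 = A)
    (h0 : ∀ i ∈ Z0, Occ S i A) (h1 : ∀ i ∈ Z1, Occ S i (A + 1))
    (u x y : ℤ) (hx : u - A ≤ x) (hxy : x < y) (hy : y < u)
    (hLx : S x ∉ Z0 ∪ Z1) (hLy : S y ∉ Z0 ∪ Z1) : S u ∈ Z1 := by
  by_contra hu
  have hsub : Z0 ∪ Z1 ⊆ (((Finset.Ico (u - A) u).erase x).erase y).image S := by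
    intro i hi
    have key : ∃ t : ℤ, u - A ≤ t ∧ t < u ∧ S t = i := by
      rcases Finset.mem_union.mp hi with h | h
      · obtain ⟨t, ht1, ht2, ht3⟩ := h0 i h (u - A)
        exact ⟨t, ht1, by linarith, ht3⟩
      · obtain ⟨t, ht1, ht2, ht3⟩ := h1 i h (u - A)
        refine ⟨t, ht1, ?_, ht3⟩
        have hle : t ≤ u := by linarith
        rcases lt_or_eq_of_le hle with hlt | heq
        · exact hlt
        · exfalso
          apply hu
          rw [← heq, ht3]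
          exact h
    obtain ⟨t, ht1, ht2, ht3⟩ := key
    refine Finset.mem_image.mpr ⟨t, ?_, ht3⟩
    simp only [Finset.mem_erase, Finset.mem_Ico]
    refine ⟨?_, ?_, ht1, ht2⟩
    · rintro rfl
      exact hLy (ht3 ▸ hi)
    · rintro rfl
      exact hLx (ht3 ▸ hi)
  have hc := (Finset.card_le_card hsub).trans Finset.card_image_le
  rw [Finset.card_union_of_disjoint hdis] at hc
  have hx' : x ∈ Finset.Ico (u - A) u := Finset.mem_Ico.mpr ⟨hx, by linarith⟩
  have hy' : y ∈ (Finset.Ico (u - A) u).erase x :=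
    Finset.mem_erase.mpr ⟨ne_of_gt hxy, Finset.mem_Ico.mpr ⟨by linarith, hy⟩⟩
  rw [Finset.card_erase_of_mem hy', Finset.card_erase_of_mem hx', Int.card_Ico] at hc
  have : (u - (u - (A : ℤ))).toNat = A := by
    simp
  rw [this] at hc
  have hA : 2 ≤ A := by
    have h2 : ((A : ℕ) : ℤ) ≥ 2 := by linarith
    exact_mod_cast h2
  omega

/-- Three long executions need at least `A + 1` days. -/
lemma three (S : ℤ → I) (A : ℕ) (Z0 Z1 : Finset I) (hdis : Disjoint Z0 Z1)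
    (hcard : Z0.card + Z1.card + 1 = A)
    (h0 : ∀ i ∈ Z0, Occ S i A) (h1 : ∀ i ∈ Z1, Occ S i (A + 1))
    (x y w : ℤ) (hxy : x < y) (hyw : y < w)
    (hLx : S x ∉ Z0 ∪ Z1) (hLy : S y ∉ Z0 ∪ Z1) (hLw : S w ∉ Z0 ∪ Z1) :
    x + A < w := by
  by_contra h
  push Not at h
  have := star S A Z0 Z1 hdis hcard h0 h1 w x y (by linarith) hxy hyw hLx hLy
  exact hLw (Finset.mem_union_right _ this)

/-- Between two long executions every task of period `A` is executed. -/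
lemma between (S : ℤ → I) (A : ℕ) (Z0 Z1 : Finset I) (hdis : Disjoint Z0 Z1)
    (hcard : Z0.card + Z1.card + 1 = A)
    (h0 : ∀ i ∈ Z0, Occ S i A) (h1 : ∀ i ∈ Z1, Occ S i (A + 1))
    (x y : ℤ) (hxy : x < y)
    (hLx : S x ∉ Z0 ∪ Z1) (hLy : S y ∉ Z0 ∪ Z1) (i : I) (hi : i ∈ Z0) :
    ∃ s : ℤ, x < s ∧ s < y ∧ S s = i := by
  obtain ⟨s, hs1, hs2, hs3⟩ := h0 i hi (x + 1)
  refine ⟨s, by linarith, ?_, hs3⟩
  by_contra h
  push Not at h
  rcases lt_or_eq_of_le h with hlt | heq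
  · have := star S A Z0 Z1 hdis hcard h0 h1 s x y (by linarith) hxy hlt hLx hLy
    rw [hs3] at this
    exact Finset.disjoint_left.mp hdis hi this
  · apply hLy
    rw [heq, hs3]
    exact Finset.mem_union_left _ hi

/-- the executions of task `i` in the days `0, …, N - 1` -/
noncomputable def ex (S : ℤ → I) (N : ℤ) (i : I) : Finset ℤ := (Finset.Ico 0 N).filter (fun t => S t = i)

lemma mem_ex (S : ℤ → I) (N : ℤ) (i : I) (t : ℤ) : t ∈ ex S N i ↔ (0 ≤ t ∧ t < N) ∧ S t = i := by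
  simp [ex]

/-- a task of period `a` is executed at least `n` times in `N ≥ n a` days -/
lemma ex_card_ge (S : ℤ → I) (N : ℤ) (i : I) (a : ℤ) (h : Occ S i a) (n : ℕ)
    (hn : (n : ℤ) * a ≤ N) : n ≤ (ex S N i).card := by
  have ha : 0 < a := by
    obtain ⟨t, h1, h2, -⟩ := h 0
    linarith
  choose f hf1 hf2 hf3 using fun j : ℕ => h ((j : ℤ) * a)
  have hinj : Set.InjOn f (Finset.range n : Set ℕ) := by
    intro j _ k _ hjk
    by_contra hne
    rcases lt_or_gt_of_ne hne with hlt | hlt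
    · have h1 : ((j : ℤ) + 1) * a ≤ (k : ℤ) * a := by
        apply mul_le_mul_of_nonneg_right _ ha.le
        exact_mod_cast hlt
      have h2 := hf2 j
      have h3 := hf1 k
      rw [hjk] at h2
      nlinarith
    · have h1 : ((k : ℤ) + 1) * a ≤ (j : ℤ) * a := by
        apply mul_le_mul_of_nonneg_right _ ha.le
        exact_mod_cast hlt
      have h2 := hf2 k
      have h3 := hf1 j
      rw [hjk] at h3
      nlinarith
  have hmaps : ∀ j ∈ Finset.range n, f j ∈ ex S N i := by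
    intro j hj
    rw [mem_ex]
    have hj' : ((j : ℤ) + 1) * a ≤ (n : ℤ) * a := by
      apply mul_le_mul_of_nonneg_right _ ha.le
      exact_mod_cast Finset.mem_range.mp hj
    have h1 := hf1 j
    have h2 := hf2 j
    have h0 : 0 ≤ (j : ℤ) * a := by positivity
    exact ⟨⟨by linarith, by nlinarith⟩, hf3 j⟩
  have := Finset.card_le_card_of_injOn f hmaps hinj
  simpa using this

/-- the long executions in the days `0, …, N - 1` -/
noncomputable def lg (S : ℤ → I) (N : ℤ) (Z : Finset I) : Finset ℤ := (Finset.Ico 0 N).filter (fun t => S t ∉ Z)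

lemma mem_lg (S : ℤ → I) (N : ℤ) (Z : Finset I) (t : ℤ) :
    t ∈ lg S N Z ↔ (0 ≤ t ∧ t < N) ∧ S t ∉ Z := by
  simp [lg]

lemma lg_le (S : ℤ → I) (A : ℕ) (Z0 Z1 : Finset I) (hdis : Disjoint Z0 Z1)
    (hcard : Z0.card + Z1.card + 1 = A)
    (h0 : ∀ i ∈ Z0, Occ S i A) (h1 : ∀ i ∈ Z1, Occ S i (A + 1)) (N : ℤ) (i : I) (hi : i ∈ Z0) :
    (lg S N (Z0 ∪ Z1)).card ≤ (ex S N i).card + 1 := by
  apply Finset.card_le_of_interleaved
  intro x hx y hy hxy _
  rw [mem_lg] at hx hy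
  obtain ⟨s, hs1, hs2, hs3⟩ := between S A Z0 Z1 hdis hcard h0 h1 x y hxy hx.2 hy.2 i hi
  refine ⟨s, ?_, hs1, hs2⟩
  rw [mem_ex]
  exact ⟨⟨by linarith [hx.1.1], by linarith [hy.1.2]⟩, hs3⟩

lemma window_card (S : ℤ → I) (N : ℕ) (Z0 Z1 : Finset I) (hdis : Disjoint Z0 Z1) :
    N = ∑ i ∈ Z0, (ex S N i).card + ∑ i ∈ Z1, (ex S N i).card + (lg S N (Z0 ∪ Z1)).card := by
  have h1 : (Finset.Ico (0 : ℤ) N).card = N := by simp
  have h2 := Finset.card_filter_add_card_filter_not (s := Finset.Ico (0 : ℤ) N)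
    (fun t => S t ∈ Z0 ∪ Z1)
  have h3 : ((Finset.Ico (0 : ℤ) N).filter (fun t => S t ∈ Z0 ∪ Z1)).card
      = ∑ i ∈ Z0 ∪ Z1, (ex S N i).card := by
    rw [Finset.card_eq_sum_card_fiberwise (f := S) (t := Z0 ∪ Z1)]
    · apply Finset.sum_congr rfl
      intro i hi
      congr 1
      ext t
      simp only [ex, Finset.mem_filter]
      constructor
      · rintro ⟨⟨h, _⟩, h'⟩
        exact ⟨h, h'⟩
      · rintro ⟨h, h'⟩
        exact ⟨⟨h, h' ▸ hi⟩, h'⟩
    · intro t ht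
      exact (Finset.mem_filter.mp ht).2
  rw [h3, Finset.sum_union hdis, h1] at h2
  rw [lg]
  omega

/-- In `R (A + 1)` days, `R ≤ z + 1`, there are at most `R + 1` long executions. -/
lemma long_le (S : ℤ → I) (A : ℕ) (Z0 Z1 : Finset I) (hdis : Disjoint Z0 Z1)
    (hcard : Z0.card + Z1.card + 1 = A)
    (h0 : ∀ i ∈ Z0, Occ S i A) (h1 : ∀ i ∈ Z1, Occ S i (A + 1)) (R : ℕ) (hR : R ≤ Z0.card + 1) :
    (lg S (((A + 1) * R : ℕ) : ℤ) (Z0 ∪ Z1)).card ≤ R + 1 := by
  have hw := window_card S ((A + 1) * R) Z0 Z1 hdis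
  have e0 : Z0.card * (lg S (((A + 1) * R : ℕ) : ℤ) (Z0 ∪ Z1)).card
      ≤ ∑ i ∈ Z0, (ex S (((A + 1) * R : ℕ) : ℤ) i).card + Z0.card := by
    calc Z0.card * (lg S (((A + 1) * R : ℕ) : ℤ) (Z0 ∪ Z1)).card
        = ∑ i ∈ Z0, (lg S (((A + 1) * R : ℕ) : ℤ) (Z0 ∪ Z1)).card := by
          rw [Finset.sum_const, smul_eq_mul]
      _ ≤ ∑ i ∈ Z0, ((ex S (((A + 1) * R : ℕ) : ℤ) i).card + 1) :=
          Finset.sum_le_sum (fun i hi => lg_le S A Z0 Z1 hdis hcard h0 h1 _ i hi)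
      _ = _ := by
          rw [Finset.sum_add_distrib, Finset.sum_const, smul_eq_mul, mul_one]
  have e1 : Z1.card * R ≤ ∑ i ∈ Z1, (ex S (((A + 1) * R : ℕ) : ℤ) i).card := by
    calc Z1.card * R = ∑ i ∈ Z1, R := by rw [Finset.sum_const, smul_eq_mul]
      _ ≤ _ := by
          apply Finset.sum_le_sum
          intro i hi
          apply ex_card_ge S _ i _ (h1 i hi) R
          push_cast
          linarith
  set F := (lg S (((A + 1) * R : ℕ) : ℤ) (Z0 ∪ Z1)).card with hF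
  set E0 := ∑ i ∈ Z0, (ex S (((A + 1) * R : ℕ) : ℤ) i).card
  set E1 := ∑ i ∈ Z1, (ex S (((A + 1) * R : ℕ) : ℤ) i).card
  by_contra hcon
  push Not at hcon
  have hF2 : R + 2 ≤ F := hcon
  have h3 : Z0.card * (R + 2) ≤ Z0.card * F := Nat.mul_le_mul_left _ hF2
  have h4 : (A + 1) * R = (Z0.card + Z1.card + 2) * R := by rw [← hcard]
  nlinarith

end Pool.Agent.Helper30.Pin
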