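import Mathlib
import Pool.Agent.Helper30.PinComb

/-!
Separation of the executions of the two very long tasks `Q`, `T`, and the resulting lower bound
for the number of executions of `Q`.
-/

set_option autoImplicit false

namespace Pool.Agent.Helper30.Pin

variable {I : Type*} [DecidableEq I]

/-- Executions of two different long tasks are at least `2 A + 2 - p` days apart, if a third long
task has period `p`. -/
lemma sep (S : ℤ → I) (A : ℕ) (Z0 Z1 : Finset I) (hdis : Disjoint Z0 Z1)
    (hcard : Z0.card + Z1.card + 1 = A)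
    (h0 : ∀ i ∈ Z0, Occ S i A) (h1 : ∀ i ∈ Z1, Occ S i (A + 1))
    (P : I) (p : ℤ) (hP : Occ S P p) (hPZ : P ∉ Z0 ∪ Z1) (hp : (A : ℤ) + 1 ≤ p)
    (x y : ℤ) (hxy : x < y) (hxP : S x ≠ P) (hyP : S y ≠ P)
    (hLx : S x ∉ Z0 ∪ Z1) (hLy : S y ∉ Z0 ∪ Z1) : x + (2 * A + 2 - p) ≤ y := by
  by_contra h
  push Not at h
  obtain ⟨w, hw1, hw2, hw3⟩ := hP (y - A)
  have hLw : S w ∉ Z0 ∪ Z1 := by rw [hw3]; exact hPZ
  have hwx : w ≠ x := by rintro rfl; exact hxP hw3
  have hwy : w ≠ y := by rintro rfl; exact hyP hw3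
  rcases lt_or_gt_of_ne hwx with hlt | hgt
  · have := three S A Z0 Z1 hdis hcard h0 h1 w x y hlt hxy hLw hLx hLy
    linarith
  · rcases lt_or_gt_of_ne hwy with hlt' | hgt'
    · have := three S A Z0 Z1 hdis hcard h0 h1 x w y hgt hlt' hLx hLw hLy
      linarith
    · have := three S A Z0 Z1 hdis hcard h0 h1 x y w hxy hgt' hLx hLy hLw
      linarith

/-- the first execution of task `i` after day `t` -/
lemma exists_next (S : ℤ → I) (i : I) (a : ℤ) (h : Occ S i a) (t : ℤ) :
    ∃ s : ℤ, t < s ∧ s ≤ t + a ∧ S s = i ∧ ∀ u : ℤ, t < u → u < s → S u ≠ i := by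
  classical
  obtain ⟨s, hs1, hs2, hs3⟩ := h (t + 1)
  have hex : ∃ k : ℕ, S (t + 1 + k) = i := by
    refine ⟨(s - (t + 1)).toNat, ?_⟩
    rw [Int.toNat_of_nonneg (by linarith)]
    rw [← hs3]
    congr 1
    ring
  refine ⟨t + 1 + (Nat.find hex : ℕ), by linarith [Int.natCast_nonneg (Nat.find hex)], ?_,
    Nat.find_spec hex, ?_⟩
  · have hle : Nat.find hex ≤ (s - (t + 1)).toNat := by
      apply Nat.find_le
      rw [Int.toNat_of_nonneg (by linarith)]
      rw [← hs3]
      congr 1
      ring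
    have h2 : ((Nat.find hex : ℕ) : ℤ) ≤ s - (t + 1) := by
      have h3 : ((Nat.find hex : ℕ) : ℤ) ≤ (((s - (t + 1)).toNat : ℕ) : ℤ) := by
        exact_mod_cast hle
      rwa [Int.toNat_of_nonneg (by linarith)] at h3
    linarith
  · intro u hu1 hu2 hu3
    have hk : (u - (t + 1)).toNat < Nat.find hex := by
      have h2 : (((u - (t + 1)).toNat : ℕ) : ℤ) < ((Nat.find hex : ℕ) : ℤ) := by
        rw [Int.toNat_of_nonneg (by linarith)]
        linarith
      exact_mod_cast h2
    apply Nat.find_min hex hk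
    rw [Int.toNat_of_nonneg (by linarith), ← hu3]
    congr 1
    ring

/-- A gap of `Q` without execution of `T` in between is at most `r - 2 D`. -/
lemma gap_le (S : ℤ → I) (Q T : I) (r D : ℤ) (hT : Occ S T r)
    (hsep : ∀ x y : ℤ, S x = Q → S y = T → x < y → x + D ≤ y)
    (hsep' : ∀ x y : ℤ, S x = Q → S y = T → y < x → y + D ≤ x) (hQT : Q ≠ T)
    (x x' : ℤ) (hxx' : x < x') (hx : S x = Q) (hx' : S x' = Q)
    (hno : ∀ u : ℤ, x < u → u < x' → S u ≠ T) : x' + 2 * D ≤ x + r := by
  by_contra h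
  push Not at h
  obtain ⟨t, ht1, ht2, ht3⟩ := hT (x - D + 1)
  have htx : t ≠ x := by rintro rfl; exact hQT (hx ▸ ht3)
  have htx' : t ≠ x' := by rintro rfl; exact hQT (hx' ▸ ht3)
  rcases lt_or_gt_of_ne htx with hlt | hgt
  · have := hsep' x t hx ht3 hlt
    linarith
  · rcases lt_or_gt_of_ne htx' with hlt' | hgt'
    · exact hno t hgt hlt' ht3
    · have := hsep x' t hx' ht3 hgt'
      linarith

/-- Main inequality: many executions of `Q` in `N` days. -/
lemma many (S : ℤ → I) (Q T : I) (q r D : ℤ) (hQ : Occ S Q q) (hT : Occ S T r)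
    (hsep : ∀ x y : ℤ, S x = Q → S y = T → x < y → x + D ≤ y)
    (hsep' : ∀ x y : ℤ, S x = Q → S y = T → y < x → y + D ≤ x) (hQT : Q ≠ T)
    (σ : ℤ) (hσ : σ = q - r + 2 * D) (hσ0 : 0 ≤ σ) (hσq : σ ≤ q) (N : ℤ) (hN : q ≤ N) :
    N + 1 - 2 * q ≤ (q - σ) * (((ex S N Q).card : ℤ) - 1) + σ * ((ex S N T).card : ℤ) := by
  classical
  choose nx hnx1 hnx2 hnx3 hnx4 using fun t : ℤ => exists_next S Q q hQ t
  let x : ℕ → ℤ := fun n => nx^[n + 1] (-1)
  have hx0 : x 0 = nx (-1) := rfl
  have hxs : ∀ n, x (n + 1) = nx (x n) := fun n => Function.iterate_succ_apply' nx (n + 1) (-1)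
  have hxQ : ∀ n, S (x n) = Q := by
    intro n
    cases n with
    | zero => rw [hx0]; exact hnx3 _
    | succ n => rw [hxs]; exact hnx3 _
  have hlt : ∀ n, x n < x (n + 1) := fun n => by rw [hxs]; exact hnx1 _
  have hmono : StrictMono x := strictMono_nat_of_lt_succ hlt
  have hx0nn : 0 ≤ x 0 := by
    have := hnx1 (-1)
    rw [hx0]; linarith
  have hx0le : x 0 ≤ q - 1 := by
    have := hnx2 (-1)
    rw [hx0]; linarith
  -- number of T executions between x 0 and x n
  let G : ℕ → Finset ℤ := fun n => (Finset.Ioo (x 0) (x n)).filter (fun t => S t = T)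
  have hGs : ∀ n, G n ⊆ G (n + 1) := by
    intro n t ht
    simp only [G, Finset.mem_filter, Finset.mem_Ioo] at ht ⊢
    exact ⟨⟨ht.1.1, ht.1.2.trans (hlt n)⟩, ht.2⟩
  have hmain : ∀ n : ℕ, x n + σ * n ≤ x 0 + q * n + σ * ((G n).card : ℤ) := by
    intro n
    induction n with
    | zero =>
      have : (0 : ℤ) ≤ σ * ((G 0).card : ℤ) := mul_nonneg hσ0 (by positivity)
      simp only [Nat.cast_zero, mul_zero, add_zero]
      linarith
    | succ n ih =>
      have hgapq : x (n + 1) ≤ x n + q := by rw [hxs]; exact hnx2 _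
      by_cases hT' : ∃ u : ℤ, x n < u ∧ u < x (n + 1) ∧ S u = T
      · obtain ⟨u, hu1, hu2, hu3⟩ := hT'
        have hu0 : x 0 < u := lt_of_le_of_lt (hmono.monotone (Nat.zero_le n)) hu1
        have hnot : u ∉ G n := by
          simp only [G, Finset.mem_filter, Finset.mem_Ioo, not_and]
          intro h
          exact absurd h.2 (by linarith)
        have hins : insert u (G n) ⊆ G (n + 1) := by
          intro t ht
          rcases Finset.mem_insert.mp ht with rfl | ht
          · simp only [G, Finset.mem_filter, Finset.mem_Ioo]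
            exact ⟨⟨hu0, hu2⟩, hu3⟩
          · exact hGs n ht
        have hc := Finset.card_le_card hins
        rw [Finset.card_insert_of_notMem hnot] at hc
        have hc' : ((G n).card : ℤ) + 1 ≤ ((G (n + 1)).card : ℤ) := by exact_mod_cast hc
        have hm := mul_le_mul_of_nonneg_left hc' hσ0
        push_cast
        nlinarith
      · push Not at hT'
        have hg := gap_le S Q T r D hT hsep hsep' hQT (x n) (x (n + 1)) (hlt n) (hxQ n)
          (hxQ (n + 1)) (fun u h1 h2 => hT' u h1 h2)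
        have hc : ((G n).card : ℤ) ≤ ((G (n + 1)).card : ℤ) := by
          exact_mod_cast Finset.card_le_card (hGs n)
        have hm := mul_le_mul_of_nonneg_left hc hσ0
        push_cast
        nlinarith
  -- the first n with x n ≥ N
  have hbig : ∀ n : ℕ, (n : ℤ) ≤ x n := by
    intro n
    induction n with
    | zero => simpa using hx0nn
    | succ n ih => push_cast; have := hlt n; linarith
  have hNex : ∃ n : ℕ, N ≤ x n := ⟨N.toNat, by
    have := hbig N.toNat
    have h2 := Int.self_le_toNat N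
    linarith⟩
  have hfind := Nat.find_spec hNex
  have hpos : Nat.find hNex ≠ 0 := by
    intro h
    rw [h] at hfind
    linarith
  obtain ⟨n, hn⟩ := Nat.exists_eq_succ_of_ne_zero hpos
  have hxn : x n < N := by
    have := Nat.find_min hNex (m := n) (by omega)
    push Not at this
    exact this
  have hxn' : N ≤ x n + q := by
    rw [hn] at hfind
    have : x (n + 1) ≤ x n + q := by rw [hxs]; exact hnx2 _
    exact hfind.trans this
  -- the points x 0, …, x n
  have hXcard : n + 1 ≤ (ex S N Q).card := by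
    have hmaps : ∀ j ∈ Finset.range (n + 1), x j ∈ ex S N Q := by
      intro j hj
      rw [mem_ex]
      have hj' : j ≤ n := Nat.lt_succ_iff.mp (Finset.mem_range.mp hj)
      exact ⟨⟨hx0nn.trans (hmono.monotone (Nat.zero_le j)),
        lt_of_le_of_lt (hmono.monotone hj') hxn⟩, hxQ j⟩
    have := Finset.card_le_card_of_injOn x hmaps (hmono.injective.injOn)
    simpa using this
  have hGcard : (G n).card ≤ (ex S N T).card := by
    apply Finset.card_le_card
    intro t ht
    simp only [G, Finset.mem_filter, Finset.mem_Ioo] at ht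
    rw [mem_ex]
    exact ⟨⟨by linarith [ht.1.1], by linarith [ht.1.2]⟩, ht.2⟩
  have hm := hmain n
  have h1 : (n : ℤ) ≤ ((ex S N Q).card : ℤ) - 1 := by
    have : ((n + 1 : ℕ) : ℤ) ≤ ((ex S N Q).card : ℤ) := by exact_mod_cast hXcard
    push_cast at this
    linarith
  have h2 : ((G n).card : ℤ) ≤ ((ex S N T).card : ℤ) := by exact_mod_cast hGcard
  have h3 := mul_le_mul_of_nonneg_left h1 (sub_nonneg.mpr hσq)
  have h4 := mul_le_mul_of_nonneg_left h2 hσ0
  nlinarith

end Pool.Agent.Helper30.Pin
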