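import Mathlib
import Pool.Agent.Helper30.PinGap

/-!
The counterexample: `z = 7199` tasks of period `A = 99999999`, `99992799` tasks of period `A + 1`,
and three tasks of periods `130926000`, `8 (A + 1)`, `9 (A + 1)`.
-/

set_option autoImplicit false

namespace Pool.Agent.Helper30.Pin

variable {I : Type*} [DecidableEq I]

lemma three_le (S : ℤ → I) (N : ℤ) (Z : Finset I) (P Q T : I) (hPQ : P ≠ Q) (hPT : P ≠ T)
    (hQT : Q ≠ T) (hP : P ∉ Z) (hQ : Q ∉ Z) (hT : T ∉ Z) :
    (ex S N P).card + (ex S N Q).card + (ex S N T).card ≤ (lg S N Z).card := by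
  have h1 : Disjoint (ex S N P) (ex S N Q) := by
    rw [Finset.disjoint_left]
    intro t ht ht'
    rw [mem_ex] at ht ht'
    exact hPQ (ht.2.symm.trans ht'.2)
  have h2 : Disjoint (ex S N P ∪ ex S N Q) (ex S N T) := by
    rw [Finset.disjoint_left]
    intro t ht ht'
    rw [Finset.mem_union, mem_ex, mem_ex] at ht
    rw [mem_ex] at ht'
    rcases ht with ht | ht
    · exact hPT (ht.2.symm.trans ht'.2)
    · exact hQT (ht.2.symm.trans ht'.2)
  rw [← Finset.card_union_of_disjoint h1, ← Finset.card_union_of_disjoint h2]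
  apply Finset.card_le_card
  intro t ht
  rw [Finset.mem_union, Finset.mem_union, mem_ex, mem_ex, mem_ex] at ht
  rw [mem_lg]
  rcases ht with (ht | ht) | ht
  · exact ⟨ht.1, by rw [ht.2]; exact hP⟩
  · exact ⟨ht.1, by rw [ht.2]; exact hQ⟩
  · exact ⟨ht.1, by rw [ht.2]; exact hT⟩

/-- No schedule exists for the counterexample. -/
theorem core (S : ℤ → I) (A : ℕ) (hA : A = 99999999) (Z0 Z1 : Finset I) (hdis : Disjoint Z0 Z1)
    (hc0 : Z0.card = 7199) (hc1 : Z1.card = 99992799)
    (h0 : ∀ i ∈ Z0, Occ S i A) (h1 : ∀ i ∈ Z1, Occ S i (A + 1))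
    (P Q T : I) (hPQ : P ≠ Q) (hPT : P ≠ T) (hQT : Q ≠ T)
    (hPZ : P ∉ Z0 ∪ Z1) (hQZ : Q ∉ Z0 ∪ Z1) (hTZ : T ∉ Z0 ∪ Z1)
    (hP : Occ S P 130926000) (hQ : Occ S Q 800000000) (hT : Occ S T 900000000) : False := by
  have hcard : Z0.card + Z1.card + 1 = A := by rw [hc0, hc1, hA]
  have hAz : (A : ℤ) = 99999999 := by rw [hA]; norm_num
  have hN : ((((A + 1) * 7200 : ℕ) : ℤ)) = 720000000000 := by rw [hA]; norm_num
  have hlong := long_le S A Z0 Z1 hdis hcard h0 h1 7200 (by rw [hc0])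
  rw [hN] at hlong
  have hsum := three_le S 720000000000 (Z0 ∪ Z1) P Q T hPQ hPT hQT hPZ hQZ hTZ
  have eP : 5499 ≤ (ex S 720000000000 P).card := ex_card_ge S _ P _ hP 5499 (by norm_num)
  have eT : 800 ≤ (ex S 720000000000 T).card := ex_card_ge S _ T _ hT 800 (by norm_num)
  have hsep1 : ∀ x y : ℤ, S x = Q → S y = T → x < y → x + 69074000 ≤ y := by
    intro x y hx hy hxy
    have := sep S A Z0 Z1 hdis hcard h0 h1 P 130926000 hP hPZ (by rw [hAz]; norm_num) x y hxy
      (by rw [hx]; exact hPQ.symm) (by rw [hy]; exact hPT.symm) (by rw [hx]; exact hQZ)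
      (by rw [hy]; exact hTZ)
    rw [hAz] at this
    linarith
  have hsep2 : ∀ x y : ℤ, S x = Q → S y = T → y < x → y + 69074000 ≤ x := by
    intro x y hx hy hxy
    have := sep S A Z0 Z1 hdis hcard h0 h1 P 130926000 hP hPZ (by rw [hAz]; norm_num) y x hxy
      (by rw [hy]; exact hPT.symm) (by rw [hx]; exact hPQ.symm) (by rw [hy]; exact hTZ)
      (by rw [hx]; exact hQZ)
    rw [hAz] at this
    linarith
  have hmany := many S Q T 800000000 900000000 69074000 hQ hT hsep1 hsep2 hQT 38148000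
    (by norm_num) (by norm_num) (by norm_num) 720000000000 (by norm_num)
  have eP' : (5499 : ℤ) ≤ ((ex S 720000000000 P).card : ℤ) := by exact_mod_cast eP
  have eT' : (800 : ℤ) ≤ ((ex S 720000000000 T).card : ℤ) := by exact_mod_cast eT
  have hs' : ((ex S 720000000000 P).card : ℤ) + ((ex S 720000000000 Q).card : ℤ)
      + ((ex S 720000000000 T).card : ℤ) ≤ 7201 := by exact_mod_cast hsum.trans hlong
  generalize ((ex S 720000000000 P).card : ℤ) = a at *
  generalize ((ex S 720000000000 Q).card : ℤ) = b at *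
  generalize ((ex S 720000000000 T).card : ℤ) = c at *
  omega

end Pool.Agent.Helper30.Pin
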