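import Mathlib
import Pool.Agent.Helper30.PinMain

/-!
The instance as a function on `Fin`.
-/

set_option autoImplicit false

namespace Pool.Agent.Helper30.Pin

/-- the periods -/
def af (z m p q r : ℕ) : Fin (z + m + 2 + 1) → ℕ := fun i =>
  if i.val < z then z + m + 1 else if i.val < z + m then z + m + 2 else
    if i.val = z + m then p else if i.val = z + m + 1 then q else r

lemma sum_af (z m p q r : ℕ) :
    (∑ i, (1 : ℝ) / (af z m p q r i : ℝ)) =
      z / ((z : ℝ) + m + 1) + m / ((z : ℝ) + m + 2) + 1 / p + 1 / q + 1 / r := by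
  let g : ℕ → ℝ := fun i => (1 : ℝ) / ((if i < z then z + m + 1 else if i < z + m then z + m + 2 else
    if i = z + m then p else if i = z + m + 1 then q else r : ℕ) : ℝ)
  have h1 : (∑ i, (1 : ℝ) / (af z m p q r i : ℝ)) = ∑ i : Fin (z + m + 2 + 1), g i.val := by
    apply Finset.sum_congr rfl
    intro i _
    rfl
  rw [h1, Fin.sum_univ_eq_sum_range g (z + m + 2 + 1), Finset.sum_range_succ,
    Finset.sum_range_succ, Finset.sum_range_succ, Finset.sum_range_add]
  have e1 : ∑ x ∈ Finset.range z, g x = z / ((z : ℝ) + m + 1) := by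
    have : ∀ x ∈ Finset.range z, g x = 1 / ((z : ℝ) + m + 1) := by
      intro x hx
      have hx' := Finset.mem_range.mp hx
      simp only [g, if_pos hx']
      push_cast
      ring
    rw [Finset.sum_congr rfl this, Finset.sum_const, Finset.card_range, nsmul_eq_mul]
    ring
  have e2 : ∑ x ∈ Finset.range m, g (z + x) = m / ((z : ℝ) + m + 2) := by
    have : ∀ x ∈ Finset.range m, g (z + x) = 1 / ((z : ℝ) + m + 2) := by
      intro x hx
      have hx' := Finset.mem_range.mp hx
      simp only [g]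
      rw [if_neg (by omega), if_pos (by omega)]
      push_cast
      ring
    rw [Finset.sum_congr rfl this, Finset.sum_const, Finset.card_range, nsmul_eq_mul]
    ring
  have e3 : g (z + m) = 1 / p := by
    change (1 : ℝ) / ((if z + m < z then z + m + 1 else if z + m < z + m then z + m + 2 else
      if z + m = z + m then p else if z + m = z + m + 1 then q else r : ℕ) : ℝ) = 1 / p
    rw [if_neg (by omega), if_neg (by omega), if_pos rfl]
  have e4 : g (z + m + 1) = 1 / q := by
    change (1 : ℝ) / ((if z + m + 1 < z then z + m + 1 else if z + m + 1 < z + m then z + m + 2 else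
      if z + m + 1 = z + m then p else if z + m + 1 = z + m + 1 then q else r : ℕ) : ℝ) = 1 / q
    rw [if_neg (by omega), if_neg (by omega), if_neg (by omega), if_pos rfl]
  have e5 : g (z + m + 2) = 1 / r := by
    change (1 : ℝ) / ((if z + m + 2 < z then z + m + 1 else if z + m + 2 < z + m then z + m + 2 else
      if z + m + 2 = z + m then p else if z + m + 2 = z + m + 1 then q else r : ℕ) : ℝ) = 1 / r
    rw [if_neg (by omega), if_neg (by omega), if_neg (by omega), if_neg (by omega)]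
  rw [e1, e2, e3, e4, e5]

/-- indices of the tasks of the smallest period -/
def Z0 (z m : ℕ) : Finset (Fin (z + m + 2 + 1)) := Finset.univ.filter (fun i => i.val < z)

/-- indices of the tasks of the second smallest period -/
def Z1 (z m : ℕ) : Finset (Fin (z + m + 2 + 1)) :=
  Finset.univ.filter (fun i => z ≤ i.val ∧ i.val < z + m)

lemma mem_Z0 (z m : ℕ) (i : Fin (z + m + 2 + 1)) : i ∈ Z0 z m ↔ i.val < z := by
  simp [Z0]

lemma mem_Z1 (z m : ℕ) (i : Fin (z + m + 2 + 1)) : i ∈ Z1 z m ↔ z ≤ i.val ∧ i.val < z + m := by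
  simp [Z1]

lemma card_Z0 (z m : ℕ) : (Z0 z m).card = z := by
  have : (Z0 z m).map Fin.valEmbedding = Finset.range z := by
    ext x
    simp only [Finset.mem_map, mem_Z0, Fin.valEmbedding_apply, Finset.mem_range]
    constructor
    · rintro ⟨i, hi, rfl⟩
      exact hi
    · intro hx
      exact ⟨⟨x, by omega⟩, hx, rfl⟩
  have h := congrArg Finset.card this
  rwa [Finset.card_map, Finset.card_range] at h

lemma card_Z1 (z m : ℕ) : (Z1 z m).card = m := by
  have : (Z1 z m).map Fin.valEmbedding = Finset.Ico z (z + m) := by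
    ext x
    simp only [Finset.mem_map, mem_Z1, Fin.valEmbedding_apply, Finset.mem_Ico]
    constructor
    · rintro ⟨i, hi, rfl⟩
      exact hi
    · intro hx
      exact ⟨⟨x, by omega⟩, hx, rfl⟩
  have h := congrArg Finset.card this
  rw [Finset.card_map, Nat.card_Ico] at h
  omega

lemma disj (z m : ℕ) : Disjoint (Z0 z m) (Z1 z m) := by
  rw [Finset.disjoint_left]
  intro i hi hi'
  rw [mem_Z0] at hi
  rw [mem_Z1] at hi'
  omega

lemma af_pos (z m p q r : ℕ) (hp : 0 < p) (hq : 0 < q) (hr : 0 < r) (i : Fin (z + m + 2 + 1)) :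
    0 < af z m p q r i := by
  unfold af
  split_ifs <;> omega

lemma af_zero (z m p q r : ℕ) (hz : 0 < z) : af z m p q r 0 = z + m + 1 := by
  unfold af
  rw [if_pos]
  simpa using hz

lemma af_min (z m p q r : ℕ) (hz : 0 < z) (hp : z + m + 1 ≤ p) (hq : z + m + 1 ≤ q)
    (hr : z + m + 1 ≤ r) (i : Fin (z + m + 2 + 1)) : af z m p q r 0 ≤ af z m p q r i := by
  rw [af_zero z m p q r hz]
  unfold af
  split_ifs <;> omega

theorem main (z m p q r : ℕ) (hz : z = 7199) (hm : m = 99992799) (hp : p = 130926000)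
    (hq : q = 800000000) (hr : r = 900000000) :
    ¬ ∃ S : ℤ → Fin (z + m + 2 + 1), ∀ i : Fin (z + m + 2 + 1), ∀ n : ℤ,
        ∃ t : ℤ, n ≤ t ∧ t < n + (af z m p q r i : ℤ) ∧ S t = i := by
  rintro ⟨S, hS⟩
  let P : Fin (z + m + 2 + 1) := ⟨z + m, by omega⟩
  let Q : Fin (z + m + 2 + 1) := ⟨z + m + 1, by omega⟩
  let T : Fin (z + m + 2 + 1) := ⟨z + m + 2, by omega⟩
  have hPv : P.val = z + m := rfl
  have hQv : Q.val = z + m + 1 := rfl
  have hTv : T.val = z + m + 2 := rfl
  have hPQ : P ≠ Q := by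
    intro h; have := congrArg Fin.val h; omega
  have hPT : P ≠ T := by
    intro h; have := congrArg Fin.val h; omega
  have hQT : Q ≠ T := by
    intro h; have := congrArg Fin.val h; omega
  have hPa : af z m p q r P = p := by
    unfold af
    rw [hPv, if_neg (by omega), if_neg (by omega), if_pos rfl]
  have hQa : af z m p q r Q = q := by
    unfold af
    rw [hQv, if_neg (by omega), if_neg (by omega), if_neg (by omega), if_pos rfl]
  have hTa : af z m p q r T = r := by
    unfold af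
    rw [hTv, if_neg (by omega), if_neg (by omega), if_neg (by omega), if_neg (by omega)]
  have hnot : ∀ i : Fin (z + m + 2 + 1), z + m ≤ i.val → i ∉ Z0 z m ∪ Z1 z m := by
    intro i hi h
    rw [Finset.mem_union, mem_Z0, mem_Z1] at h
    omega
  refine core S (z + m + 1) (by omega) (Z0 z m) (Z1 z m) (disj z m)
    (by rw [card_Z0]; exact hz) (by rw [card_Z1]; exact hm) ?_ ?_ P Q T hPQ hPT hQT
    (hnot P (by omega)) (hnot Q (by omega)) (hnot T (by omega)) ?_ ?_ ?_
  · intro i hi n
    rw [mem_Z0] at hi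
    obtain ⟨t, h1, h2, h3⟩ := hS i n
    refine ⟨t, h1, ?_, h3⟩
    have : af z m p q r i = z + m + 1 := by
      unfold af
      rw [if_pos hi]
    rw [this] at h2
    exact h2
  · intro i hi n
    rw [mem_Z1] at hi
    obtain ⟨t, h1, h2, h3⟩ := hS i n
    refine ⟨t, h1, ?_, h3⟩
    have : af z m p q r i = z + m + 2 := by
      unfold af
      rw [if_neg (by omega), if_pos hi.2]
    rw [this] at h2
    push_cast at h2 ⊢
    linarith
  · intro n
    obtain ⟨t, h1, h2, h3⟩ := hS P n
    refine ⟨t, h1, ?_, h3⟩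
    rw [hPa, hp] at h2
    exact_mod_cast h2
  · intro n
    obtain ⟨t, h1, h2, h3⟩ := hS Q n
    refine ⟨t, h1, ?_, h3⟩
    rw [hQa, hq] at h2
    exact_mod_cast h2
  · intro n
    obtain ⟨t, h1, h2, h3⟩ := hS T n
    refine ⟨t, h1, ?_, h3⟩
    rw [hTa, hr] at h2
    exact_mod_cast h2

theorem not_all :
    ¬ (∀ (k : ℕ) (a : Fin (k + 1) → ℕ),
      (∀ i, 0 < a i) →
      (∀ i, a 0 ≤ a i) →
      (∑ i, (1 : ℝ) / (a i : ℝ)) ≤ 1 - ((a 0 : ℝ) - 1) / ((a 0 : ℝ) * ((a 0 : ℝ) + 1)) →
      ∃ S : ℤ → Fin (k + 1), ∀ i : Fin (k + 1), ∀ m : ℤ,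
        ∃ t : ℤ, m ≤ t ∧ t < m + (a i : ℤ) ∧ S t = i) := by
  intro h
  obtain ⟨z, hz⟩ : ∃ z : ℕ, z = 7199 := ⟨_, rfl⟩
  obtain ⟨m, hm⟩ : ∃ m : ℕ, m = 99992799 := ⟨_, rfl⟩
  obtain ⟨p, hp⟩ : ∃ p : ℕ, p = 130926000 := ⟨_, rfl⟩
  obtain ⟨q, hq⟩ : ∃ q : ℕ, q = 800000000 := ⟨_, rfl⟩
  obtain ⟨r, hr⟩ : ∃ r : ℕ, r = 900000000 := ⟨_, rfl⟩
  have hzpos : 0 < z := by omega
  refine main z m p q r hz hm hp hq hr (h (z + m + 2) (af z m p q r)
    (af_pos z m p q r (by omega) (by omega) (by omega))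
    (af_min z m p q r hzpos (by omega) (by omega) (by omega)) ?_)
  rw [sum_af, af_zero z m p q r hzpos]
  have hzr : (z : ℝ) = 7199 := by rw [hz]; norm_num
  have hmr : (m : ℝ) = 99992799 := by rw [hm]; norm_num
  have hpr : (p : ℝ) = 130926000 := by rw [hp]; norm_num
  have hqr : (q : ℝ) = 800000000 := by rw [hq]; norm_num
  have hrr : (r : ℝ) = 900000000 := by rw [hr]; norm_num
  push_cast
  rw [hzr, hmr, hpr, hqr, hrr]
  norm_num

end Pool.Agent.Helper30.Pin
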